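import Mathlib

set_option autoImplicit false

namespace Pool.Agent.Helper60.Gap

open Finset

/-- The Euclidean plane. -/
abbrev Plane := EuclideanSpace ℝ (Fin 2)

/-- `f A d` is the number of unordered pairs of points of `A` at distance `d`
(half the number of ordered pairs of distinct points at distance `d`). -/
noncomputable def f (A : Finset Plane) (d : ℝ) : ℕ :=
  (A.offDiag.filter (fun q => dist q.1 q.2 = d)).card / 2

/-- The finite set of distances determined by pairs of distinct points of `A`. -/
noncomputable def distances (A : Finset Plane) : Finset ℝ :=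
  A.offDiag.image (fun q => dist q.1 q.2)

/-- The list `f(d_1) ≥ f(d_2) ≥ ...` of the multiplicities of all distances of `A`. -/
noncomputable def mults (A : Finset Plane) : List ℕ :=
  ((distances A).val.map (f A)).sort (fun a b => b ≤ a)

/-- `fr A j = f(d_j)` for `j ≥ 1`, which is `0` beyond the number of distances. -/
noncomputable def fr (A : Finset Plane) (j : ℕ) : ℕ := (mults A).getD (j - 1) 0

/-- `M_r(n)`: the maximum of `f(d_r) - f(d_{r+1})` over all `n`-point sets in the plane. -/
noncomputable def M (r n : ℕ) : ℕ :=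
  sSup {g | ∃ A : Finset Plane, A.card = n ∧ g = fr A r - fr A (r + 1)}

/-! ### Ranking -/

theorem mults_pairwise (A : Finset Plane) : (mults A).Pairwise (fun a b => b ≤ a) :=
  Multiset.pairwise_sort _ _

theorem mults_perm (A : Finset Plane) :
    ((mults A : List ℕ) : Multiset ℕ) = (distances A).val.map (f A) :=
  Multiset.sort_eq _ _

theorem countP_mults (A : Finset Plane) (q : ℕ → Prop) [DecidablePred q] :
    (mults A).countP q = ((distances A).filter (fun d => q (f A d))).card := by
  rw [← Multiset.coe_countP, mults_perm, Multiset.countP_map]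
  rfl

theorem getD_anti {l : List ℕ} (hl : l.Pairwise (fun a b => b ≤ a)) {i j : ℕ} (hij : i ≤ j) :
    l.getD j 0 ≤ l.getD i 0 := by
  rcases Nat.lt_or_ge j l.length with hj | hj
  · rw [List.getD_eq_getElem _ _ hj, List.getD_eq_getElem _ _ (lt_of_le_of_lt hij hj)]
    rcases Nat.eq_or_lt_of_le hij with h | h
    · subst h; exact le_rfl
    · exact List.pairwise_iff_getElem.mp hl i j _ _ h
  · rw [List.getD_eq_default _ _ hj]
    exact Nat.zero_le _

theorem getD_ge_of_countP {l : List ℕ} (hl : l.Pairwise (fun a b => b ≤ a)) {r T : ℕ}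
    (hr : 1 ≤ r) (hc : r ≤ l.countP (fun x => T ≤ x)) : T ≤ l.getD (r - 1) 0 := by
  by_contra hcon
  push Not at hcon
  have h1 : l.countP (fun x => T ≤ x) ≤ (l.take (r - 1)).countP (fun x => T ≤ x) +
      (l.drop (r - 1)).countP (fun x => T ≤ x) := by
    conv_lhs => rw [← List.take_append_drop (r - 1) l, List.countP_append]
  have h2 : (l.drop (r - 1)).countP (fun x => T ≤ x) = 0 := by
    rw [List.countP_eq_zero]
    intro x hx
    rw [List.mem_iff_getElem] at hx
    obtain ⟨i, hi, rfl⟩ := hx
    rw [List.getElem_drop]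
    have hlen : r - 1 + i < l.length := by
      rw [List.length_drop] at hi
      omega
    have h3 := getD_anti hl (show r - 1 ≤ r - 1 + i by omega)
    rw [List.getD_eq_getElem _ _ hlen] at h3
    simp only [decide_eq_true_eq, not_le]
    omega
  have h3 : (l.take (r - 1)).countP (fun x => T ≤ x) ≤ r - 1 :=
    (List.countP_le_length).trans (List.length_take_le _ _)
  omega

theorem getD_le_of_countP {l : List ℕ} (hl : l.Pairwise (fun a b => b ≤ a)) {r T : ℕ}
    (hc : l.countP (fun x => T < x) ≤ r) : l.getD r 0 ≤ T := by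
  by_contra hcon
  push Not at hcon
  have hlen : r < l.length := by
    by_contra h
    rw [List.getD_eq_default _ _ (not_lt.mp h)] at hcon
    omega
  have h1 : (l.take (r + 1)).countP (fun x => T < x) = (l.take (r + 1)).length := by
    rw [List.countP_eq_length]
    intro x hx
    rw [List.mem_iff_getElem] at hx
    obtain ⟨i, hi, rfl⟩ := hx
    rw [List.getElem_take]
    rw [List.length_take] at hi
    have h3 := getD_anti hl (show i ≤ r by omega)
    rw [List.getD_eq_getElem _ _ (by omega : i < l.length)] at h3
    simp only [decide_eq_true_eq]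
    omega
  have h2 : (l.take (r + 1)).countP (fun x => T < x) ≤ l.countP (fun x => T < x) := by
    conv_rhs => rw [← List.take_append_drop (r + 1) l, List.countP_append]
    exact Nat.le_add_right _ _
  rw [h1, List.length_take] at h2
  omega

theorem fr_ge (A : Finset Plane) (r T : ℕ) (hr : 1 ≤ r) (hT : 1 ≤ T) (D : Finset ℝ)
    (hD : D.card = r) (h : ∀ d ∈ D, T ≤ f A d) : T ≤ fr A r := by
  apply getD_ge_of_countP (mults_pairwise A) hr
  rw [countP_mults, ← hD]
  apply Finset.card_le_card
  intro d hd
  rw [Finset.mem_filter]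
  refine ⟨?_, h d hd⟩
  have h1 := h d hd
  have h2 : (A.offDiag.filter (fun q => dist q.1 q.2 = d)).card ≠ 0 := by
    intro h0
    unfold f at h1
    rw [h0] at h1
    omega
  rw [Finset.card_ne_zero] at h2
  obtain ⟨q, hq⟩ := h2
  rw [Finset.mem_filter] at hq
  rw [distances, Finset.mem_image]
  exact ⟨q, hq.1, hq.2⟩

theorem fr_le (A : Finset Plane) (r T : ℕ) (D : Finset ℝ)
    (hD : D.card ≤ r) (h : ∀ d, d ∉ D → f A d ≤ T) : fr A (r + 1) ≤ T := by
  unfold fr
  rw [Nat.add_sub_cancel]
  apply getD_le_of_countP (mults_pairwise A)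
  rw [countP_mults]
  refine le_trans (Finset.card_le_card ?_) hD
  intro d hd
  rw [Finset.mem_filter] at hd
  by_contra hnot
  have := h d hnot
  omega

theorem f_le (A : Finset Plane) (d : ℝ) : f A d ≤ A.card * A.card := by
  unfold f
  refine (Nat.div_le_self _ _).trans ((Finset.card_filter_le _ _).trans ?_)
  rw [Finset.offDiag_card]
  exact Nat.sub_le _ _

theorem fr_le_sq (A : Finset Plane) (r : ℕ) : fr A r ≤ A.card * A.card := by
  unfold fr
  rcases Nat.lt_or_ge (r - 1) (mults A).length with h | h
  · rw [List.getD_eq_getElem _ _ h]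
    have hmem : (mults A)[r - 1] ∈ mults A := List.getElem_mem h
    have : (mults A)[r - 1] ∈ ((mults A : List ℕ) : Multiset ℕ) := hmem
    rw [mults_perm, Multiset.mem_map] at this
    obtain ⟨d, -, hd⟩ := this
    rw [← hd]
    exact f_le A d
  · rw [List.getD_eq_default _ _ h]
    exact Nat.zero_le _

theorem le_M {r n : ℕ} (A : Finset Plane) (hA : A.card = n) :
    fr A r - fr A (r + 1) ≤ M r n := by
  apply le_csSup
  · refine ⟨n * n, ?_⟩
    rintro g ⟨B, hB, rfl⟩
    have := fr_le_sq B r
    rw [hB] at this
    omega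
  · exact ⟨A, hA, rfl⟩

end Pool.Agent.Helper60.Gap
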