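import Mathlib
import Pool.Agent.Helper53.Generic

set_option autoImplicit false

namespace Pool.Agent.Helper60.Gap

open Finset Filter Pool.Agent.Helper53.Generic

/-! ### Counting ordered pairs at a given distance, unions, isometries, scalings -/

theorem P_mem_ne_zero {A : Finset E2} {x y : E2} (hx : x ∈ A) (hy : y ∈ A) (hne : x ≠ y) :
    P A (dist x y) ≠ 0 := by
  unfold P
  rw [Finset.card_ne_zero]
  refine ⟨(x, y), ?_⟩
  rw [Finset.mem_filter, Finset.mem_offDiag]
  exact ⟨⟨hx, hy, hne⟩, rfl⟩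

theorem exists_of_P_ne_zero {A : Finset E2} {d : ℝ} (h : P A d ≠ 0) :
    ∃ x ∈ A, ∃ y ∈ A, x ≠ y ∧ dist x y = d := by
  unfold P at h
  rw [Finset.card_ne_zero] at h
  obtain ⟨q, hq⟩ := h
  rw [Finset.mem_filter, Finset.mem_offDiag] at hq
  exact ⟨q.1, hq.1.1, q.2, hq.1.2.1, hq.1.2.2, hq.2⟩

theorem P_nonpos {A : Finset E2} {d : ℝ} (hd : d ≤ 0) : P A d = 0 := by
  by_contra h
  obtain ⟨x, -, y, -, hne, he⟩ := exists_of_P_ne_zero h
  have := dist_pos.mpr hne
  linarith

/-- Images under a similarity of ratio `c`. -/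
theorem P_image_similar (A : Finset E2) (φ : E2 → E2) {c : ℝ} (hc : 0 < c)
    (hφ : ∀ x y, dist (φ x) (φ y) = c * dist x y) [DecidableEq E2] (d : ℝ) :
    P (A.image φ) (c * d) = P A d := by
  have hinj : Function.Injective φ := by
    intro x y h
    have h1 := hφ x y
    rw [h, dist_self] at h1
    have h2 : dist x y = 0 := by
      rcases mul_eq_zero.mp h1.symm with h3 | h3
      · exact absurd h3 hc.ne'
      · exact h3
    exact dist_eq_zero.mp h2
  unfold P
  symm
  apply Finset.card_bij (fun q _ => (φ q.1, φ q.2))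
  · intro q hq
    rw [Finset.mem_filter, Finset.mem_offDiag] at hq ⊢
    refine ⟨⟨Finset.mem_image_of_mem _ hq.1.1, Finset.mem_image_of_mem _ hq.1.2.1, ?_⟩, ?_⟩
    · intro h
      exact hq.1.2.2 (hinj h)
    · simp only
      rw [hφ, hq.2]
  · rintro ⟨a, b⟩ _ ⟨a', b'⟩ _ h
    simp only [Prod.mk.injEq] at h ⊢
    exact ⟨hinj h.1, hinj h.2⟩
  · rintro ⟨x, y⟩ h
    rw [Finset.mem_filter, Finset.mem_offDiag] at h
    obtain ⟨⟨hx, hy, hne⟩, hd⟩ := h
    simp only at hx hy hne hd
    rw [Finset.mem_image] at hx hy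
    obtain ⟨a, ha, rfl⟩ := hx
    obtain ⟨b, hb, rfl⟩ := hy
    refine ⟨(a, b), ?_, rfl⟩
    rw [Finset.mem_filter, Finset.mem_offDiag]
    refine ⟨⟨ha, hb, ?_⟩, ?_⟩
    · rintro h
      simp only at h
      exact hne (by rw [h])
    · simp only
      rw [hφ] at hd
      exact mul_left_cancel₀ hc.ne' hd

theorem card_image_similar (A : Finset E2) (φ : E2 → E2) {c : ℝ} (hc : 0 < c)
    (hφ : ∀ x y, dist (φ x) (φ y) = c * dist x y) [DecidableEq E2] :
    (A.image φ).card = A.card := by
  apply Finset.card_image_of_injective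
  intro x y h
  have h1 := hφ x y
  rw [h, dist_self] at h1
  have h2 : dist x y = 0 := by
    rcases mul_eq_zero.mp h1.symm with h3 | h3
    · exact absurd h3 hc.ne'
    · exact h3
  exact dist_eq_zero.mp h2

/-- A copy of `A` scaled by `c > 0`. -/
theorem exists_scaled (A : Finset E2) {c : ℝ} (hc : 0 < c) :
    ∃ B : Finset E2, B.card = A.card ∧ ∀ d, P B (c * d) = P A d := by
  classical
  have hφ : ∀ x y : E2, dist (c • x) (c • y) = c * dist x y := by
    intro x y
    rw [dist_smul₀, Real.norm_eq_abs, abs_of_pos hc]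
  exact ⟨A.image (fun x => c • x), card_image_similar A _ hc hφ,
    fun d => P_image_similar A _ hc hφ d⟩

/-! ### Generic rotations -/

theorem infinite_circle : Infinite Circle := by
  have e := Circle.argEquiv
  have : Infinite (Set.Ioc (-Real.pi) Real.pi) :=
    Set.infinite_coe_iff.mpr (Set.Ioc_infinite (by linarith [Real.pi_pos]))
  exact Infinite.of_injective e.symm e.symm.injective

theorem exists_rotation (W : Finset (E2 × E2)) (hW : ∀ p ∈ W, p.2 ≠ 0) :
    ∃ ρ : E2 ≃ₗᵢ[ℝ] E2, ∀ p ∈ W, ρ p.2 ≠ p.1 := by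
  classical
  set e : ℂ ≃ₗᵢ[ℝ] E2 := Complex.orthonormalBasisOneI.repr with he
  haveI := infinite_circle
  -- the bad angles
  have hfin : (⋃ p ∈ W, {c : Circle | (c : ℂ) * e.symm p.2 = e.symm p.1}).Finite := by
    apply Set.Finite.biUnion (Finset.finite_toSet W)
    intro p hp
    apply Set.Subsingleton.finite
    intro c hc c' hc'
    rw [Set.mem_ofPred_eq] at hc hc'
    have h0 : e.symm p.2 ≠ 0 := by
      intro h
      apply hW p hp
      have := congrArg e h
      simpa using this
    have : (c : ℂ) = c' := mul_right_cancel₀ h0 (hc.trans hc'.symm)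
    exact Circle.ext this
  obtain ⟨c, hc⟩ := hfin.exists_notMem
  refine ⟨e.symm.trans ((rotation c).trans e), ?_⟩
  intro p hp h
  apply hc
  rw [Set.mem_iUnion₂]
  refine ⟨p, hp, ?_⟩
  rw [Set.mem_ofPred_eq]
  have := congrArg e.symm h
  simpa using this

/-! ### Adding a generic copy -/

theorem step2 (U B : Finset E2) (C : Finset ℝ) :
    ∃ U' : Finset E2, U'.card = U.card + B.card ∧
      (∀ d ∈ C, P U' d = P U d + P B d) ∧
      (∀ d, P U d + P B d ≤ P U' d) ∧
      (∀ d, P U d + P B d ≠ 0 → P U' d = P U d + P B d) ∧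
      (∀ d, P U' d ≤ P U d + P B d + 2) := by
  classical
  -- rotate
  obtain ⟨ρ, hρ⟩ := exists_rotation
    (((U ×ˢ U) ×ˢ (B ×ˢ B)).image (fun t => (t.1.1 - t.1.2, t.2.1 - t.2.2)) |>.filter
      (fun p => p.2 ≠ 0)) (fun p hp => (Finset.mem_filter.mp hp).2)
  set B1 := B.image ρ with hB1
  have hρd : ∀ x y, dist (ρ x) (ρ y) = 1 * dist x y := by
    intro x y
    rw [ρ.dist_map, one_mul]
  have hB1card : B1.card = B.card := card_image_similar B ρ one_pos hρd
  have hB1P : ∀ d, P B1 d = P B d := by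
    intro d
    have := P_image_similar B ρ one_pos hρd d
    rwa [one_mul] at this
  have hdiff : ∀ u ∈ U, ∀ b ∈ B1, ∀ u' ∈ U, ∀ b' ∈ B1, u - b = u' - b' → u = u' ∧ b = b' := by
    intro u hu b hb u' hu' b' hb' h
    rw [hB1, Finset.mem_image] at hb hb'
    obtain ⟨c, hc, rfl⟩ := hb
    obtain ⟨c', hc', rfl⟩ := hb'
    have h1 : ρ (c - c') = u - u' := by
      rw [map_sub]
      have : u - u' = ρ c - ρ c' := by
        have h2 : u - ρ c + ρ c = u' - ρ c' + ρ c := by rw [h]
        rw [sub_add_cancel] at h2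
        rw [h2]
        abel
      exact this.symm
    by_cases hcc : c = c'
    · subst hcc
      exact ⟨sub_left_injective h, rfl⟩
    · exfalso
      apply hρ (u - u', c - c') _ h1
      rw [Finset.mem_filter, Finset.mem_image]
      refine ⟨⟨((u, u'), (c, c')), ?_, rfl⟩, sub_ne_zero.mpr hcc⟩
      rw [Finset.mem_product, Finset.mem_product, Finset.mem_product]
      exact ⟨⟨hu, hu'⟩, ⟨hc, hc'⟩⟩
  -- translate
  set C' : Finset ℝ := ({0} ∪ (U.offDiag.image (fun q => sq q.1 q.2)) ∪
    (B1.offDiag.image (fun q => sq q.1 q.2))) ∪ C.image (fun d => d ^ 2) with hC'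
  obtain ⟨v, hv1, hv2⟩ := exists_translation U B1 C'
  set B' := B1.map (Equiv.addRight v).toEmbedding with hB'
  have hB'card : B'.card = B.card := by rw [hB', Finset.card_map, hB1card]
  have hB'P : ∀ d, P B' d = P B d := by
    intro d
    rw [hB', P_translate, hB1P]
  have hmemB' : ∀ y ∈ B', ∃ b ∈ B1, y = b + v := by
    intro y hy
    rw [hB', Finset.mem_map] at hy
    obtain ⟨b, hb, he⟩ := hy
    exact ⟨b, hb, he.symm⟩
  have hcross : ∀ u ∈ U, ∀ y ∈ B', ∀ u' ∈ U, ∀ y' ∈ B', dist u y = dist u' y' →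
      u = u' ∧ y = y' := by
    intro u hu y hy u' hu' y' hy' h
    obtain ⟨b, hb, rfl⟩ := hmemB' y hy
    obtain ⟨b', hb', rfl⟩ := hmemB' y' hy'
    have e1 : sq u (b + v) = sq u' (b' + v) := by rw [← dist_sq, ← dist_sq, h]
    have e2 := hv2 u hu b hb u' hu' b' hb' e1
    obtain ⟨e3, e4⟩ := hdiff u hu b hb u' hu' b' hb' e2
    exact ⟨e3, by rw [e4]⟩
  have hnot : ∀ u ∈ U, ∀ y ∈ B', dist u y ^ 2 ∉ C' := by
    intro u hu y hy h
    obtain ⟨b, hb, rfl⟩ := hmemB' y hy
    rw [dist_sq] at h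
    exact hv1 u hu b hb _ h rfl
  have hdisj : Disjoint U B' := by
    rw [Finset.disjoint_left]
    intro x hx hx'
    apply hnot x hx x hx'
    rw [dist_self, hC']
    simp
  refine ⟨U ∪ B', by rw [Finset.card_union_of_disjoint hdisj, hB'card], ?_⟩
  -- the cross pairs
  set X1 : ℝ → Finset (E2 × E2) := fun d => (U ×ˢ B').filter (fun q => dist q.1 q.2 = d) with hX1
  set X2 : ℝ → Finset (E2 × E2) := fun d => (B' ×ˢ U).filter (fun q => dist q.1 q.2 = d) with hX2
  have hX1card : ∀ d, (X1 d).card ≤ 1 := by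
    intro d
    rw [Finset.card_le_one]
    rintro ⟨x, y⟩ hq ⟨x', y'⟩ hq'
    rw [hX1, Finset.mem_filter, Finset.mem_product] at hq hq'
    obtain ⟨e1, e2⟩ := hcross x hq.1.1 y hq.1.2 x' hq'.1.1 y' hq'.1.2 (hq.2.trans hq'.2.symm)
    rw [e1, e2]
  have hX2card : ∀ d, (X2 d).card = (X1 d).card := by
    intro d
    apply Finset.card_bij (fun q _ => (q.2, q.1))
    · intro q hq
      rw [hX2, Finset.mem_filter, Finset.mem_product] at hq
      rw [hX1, Finset.mem_filter, Finset.mem_product]
      exact ⟨⟨hq.1.2, hq.1.1⟩, by rw [dist_comm]; exact hq.2⟩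
    · rintro ⟨a, b⟩ _ ⟨c, e⟩ _ h
      simp only [Prod.mk.injEq] at h ⊢
      exact ⟨h.2, h.1⟩
    · rintro ⟨a, b⟩ hq
      rw [hX1, Finset.mem_filter, Finset.mem_product] at hq
      refine ⟨(b, a), ?_, rfl⟩
      rw [hX2, Finset.mem_filter, Finset.mem_product]
      exact ⟨⟨hq.1.2, hq.1.1⟩, by rw [dist_comm]; exact hq.2⟩
  have hX1zero : ∀ d, d ^ 2 ∈ C' → (X1 d).card = 0 := by
    intro d hd
    rw [Finset.card_eq_zero, Finset.eq_empty_iff_forall_notMem]
    rintro ⟨x, y⟩ hq
    rw [hX1, Finset.mem_filter, Finset.mem_product] at hq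
    apply hnot x hq.1.1 y hq.1.2
    simp only at hq
    rw [hq.2]
    exact hd
  have hupper : ∀ d, P (U ∪ B') d ≤ P U d + P B' d + ((X1 d).card + (X2 d).card) := by
    intro d
    unfold P
    have hsub : (U ∪ B').offDiag.filter (fun q => dist q.1 q.2 = d) ⊆
        (U.offDiag.filter (fun q => dist q.1 q.2 = d) ∪
        B'.offDiag.filter (fun q => dist q.1 q.2 = d)) ∪ (X1 d ∪ X2 d) := by
      rintro ⟨x, y⟩ hq
      rw [Finset.mem_filter, Finset.mem_offDiag, Finset.mem_union, Finset.mem_union] at hq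
      obtain ⟨⟨hx, hy, hne⟩, hd⟩ := hq
      rw [Finset.mem_union, Finset.mem_union, Finset.mem_union, hX1, hX2, Finset.mem_filter,
        Finset.mem_filter, Finset.mem_filter, Finset.mem_filter, Finset.mem_offDiag,
        Finset.mem_offDiag, Finset.mem_product, Finset.mem_product]
      tauto
    refine (Finset.card_le_card hsub).trans ((Finset.card_union_le _ _).trans ?_)
    exact Nat.add_le_add (Finset.card_union_le _ _) (Finset.card_union_le _ _)
  have hlower : ∀ d, P U d + P B' d ≤ P (U ∪ B') d := by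
    intro d
    unfold P
    rw [← Finset.card_union_of_disjoint]
    · apply Finset.card_le_card
      rintro ⟨x, y⟩ hq
      rw [Finset.mem_union, Finset.mem_filter, Finset.mem_filter, Finset.mem_offDiag,
        Finset.mem_offDiag] at hq
      rw [Finset.mem_filter, Finset.mem_offDiag, Finset.mem_union, Finset.mem_union]
      tauto
    · rw [Finset.disjoint_left]
      rintro ⟨x, y⟩ hq hq'
      rw [Finset.mem_filter, Finset.mem_offDiag] at hq hq'
      exact Finset.disjoint_left.mp hdisj hq.1.1 hq'.1.1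
  have hexact : ∀ d, d ^ 2 ∈ C' → P (U ∪ B') d = P U d + P B d := by
    intro d hd
    have h1 := hupper d
    have h2 := hlower d
    have h3 := hX1zero d hd
    have h4 := hX2card d
    rw [hB'P] at h1 h2
    omega
  refine ⟨?_, ?_, ?_, ?_⟩
  · intro d hd
    apply hexact
    rw [hC', Finset.mem_union]
    right
    exact Finset.mem_image_of_mem _ hd
  · intro d
    have h2 := hlower d
    rwa [hB'P] at h2
  · intro d hne
    apply hexact
    rw [hC', Finset.mem_union]
    left
    by_cases hU : P U d = 0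
    · have hBne : P B1 d ≠ 0 := by rw [hB1P]; omega
      obtain ⟨x, hx, y, hy, hxy, he⟩ := exists_of_P_ne_zero hBne
      rw [Finset.mem_union]
      right
      rw [Finset.mem_image]
      exact ⟨(x, y), Finset.mem_offDiag.mpr ⟨hx, hy, hxy⟩, by rw [← dist_sq, he]⟩
    · obtain ⟨x, hx, y, hy, hxy, he⟩ := exists_of_P_ne_zero hU
      rw [Finset.mem_union, Finset.mem_union]
      left; right
      rw [Finset.mem_image]
      exact ⟨(x, y), Finset.mem_offDiag.mpr ⟨hx, hy, hxy⟩, by rw [← dist_sq, he]⟩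
  · intro d
    have h1 := hupper d
    have h3 := hX1card d
    have h4 := hX2card d
    rw [hB'P] at h1
    omega

/-- Generic union of a finite family: multiplicities add up on the prescribed set `C` of
distances, all others occur at most once. -/
theorem family2 {ι : Type} [DecidableEq ι] (s : Finset ι) (B : ι → Finset E2) (C : Finset ℝ)
    (hC : ∀ i ∈ s, ∀ d, P (B i) d ≠ 0 → d ∈ C) :
    ∃ U : Finset E2, U.card = ∑ i ∈ s, (B i).card ∧
      (∀ d ∈ C, P U d = ∑ i ∈ s, P (B i) d) ∧ (∀ d, d ∉ C → P U d ≤ 2) := by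
  induction s using Finset.induction_on with
  | empty =>
    refine ⟨∅, by simp, ?_, ?_⟩
    · intro d _
      simp [P]
    · intro d _
      simp [P]
  | insert i s hi ih =>
    obtain ⟨U, hU, hU1, hU2⟩ := ih (fun j hj => hC j (Finset.mem_insert_of_mem hj))
    obtain ⟨U', hU', h1, h2, h3, h4⟩ := step2 U (B i) C
    refine ⟨U', ?_, ?_, ?_⟩
    · rw [Finset.sum_insert hi, hU', hU]; ring
    · intro d hd
      rw [Finset.sum_insert hi, h1 d hd, hU1 d hd]; ring
    · intro d hd
      have hB0 : P (B i) d = 0 := by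
        by_contra h
        exact hd (hC i (Finset.mem_insert_self i s) d h)
      have h5 := hU2 d hd
      by_cases hz : P U d = 0
      · have := h4 d
        omega
      · have := h3 d (by omega)
        omega

end Pool.Agent.Helper60.Gap
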