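import Mathlib
import Pool.Agent.Helper60.Gap.Base
import Pool.Agent.Helper60.Gap.Union

set_option autoImplicit false

namespace Pool.Agent.Helper60.Gap

open Finset Pool.Agent.Helper53.Generic

theorem f_eq (A : Finset Plane) (d : ℝ) : f A d = P A d / 2 := rfl

theorem P_even (A : Finset Plane) (d : ℝ) : P A d = 2 * f A d := by
  have h : ((P A d : ℕ) : ZMod 2) = 0 := by
    unfold P
    rw [Finset.cast_card]
    apply Finset.sum_involution (fun q _ => (q.2, q.1))
    · intro q _
      decide
    · intro q hq _ h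
      rw [Finset.mem_filter, Finset.mem_offDiag] at hq
      have := congrArg Prod.fst h
      exact hq.1.2.2 this.symm
    · intro q hq
      rw [Finset.mem_filter, Finset.mem_offDiag] at hq ⊢
      refine ⟨⟨hq.1.2.1, hq.1.1, hq.1.2.2.symm⟩, ?_⟩
      rw [dist_comm]
      exact hq.2
    · intro q _
      rfl
  rw [ZMod.natCast_eq_zero_iff] at h
  have h2 : f A d = P A d / 2 := rfl
  omega

theorem mem_distances {A : Finset Plane} {d : ℝ} : d ∈ distances A ↔ P A d ≠ 0 := by
  unfold distances
  rw [Finset.mem_image]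
  constructor
  · rintro ⟨q, hq, rfl⟩
    rw [Finset.mem_offDiag] at hq
    exact P_mem_ne_zero hq.1 hq.2.1 hq.2.2
  · intro h
    obtain ⟨x, hx, y, hy, hne, he⟩ := exists_of_P_ne_zero h
    exact ⟨(x, y), Finset.mem_offDiag.mpr ⟨hx, hy, hne⟩, he⟩

theorem le_fr_iff (A : Finset Plane) {r T : ℕ} (hr : 1 ≤ r) (hT : 1 ≤ T) :
    T ≤ fr A r ↔ r ≤ ((distances A).filter (fun d => T ≤ f A d)).card := by
  classical
  constructor
  · intro h
    by_contra hcon
    push Not at hcon
    have h1 := fr_le A (r - 1) (T - 1) ((distances A).filter (fun d => T ≤ f A d)) (by omega)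
      (by
        intro d hd
        by_contra hlt
        apply hd
        rw [Finset.mem_filter, mem_distances]
        refine ⟨?_, by omega⟩
        rw [P_even]
        omega)
    rw [Nat.sub_add_cancel hr] at h1
    omega
  · intro h
    obtain ⟨D, hD, hDc⟩ := Finset.exists_subset_card_eq h
    apply fr_ge A r T hr hT D hDc
    intro d hd
    exact (Finset.mem_filter.mp (hD hd)).2

theorem fr_anti (A : Finset Plane) {i j : ℕ} (hij : i ≤ j) : fr A j ≤ fr A i := by
  unfold fr
  exact getD_anti (mults_pairwise A) (by omega)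

theorem f_le_fr_one (A : Finset Plane) (d : ℝ) : f A d ≤ fr A 1 := by
  by_cases h : f A d = 0
  · omega
  · rw [le_fr_iff A le_rfl (by omega)]
    rw [Nat.one_le_iff_ne_zero, Finset.card_ne_zero]
    refine ⟨d, ?_⟩
    rw [Finset.mem_filter, mem_distances, P_even]
    exact ⟨by omega, le_rfl⟩

theorem exists_card (n : ℕ) : ∃ A : Finset Plane, A.card = n :=
  Infinite.exists_subset_card_eq Plane n

theorem exists_M (r n : ℕ) : ∃ A : Finset Plane, A.card = n ∧ M r n = fr A r - fr A (r + 1) := by
  have hne : {g | ∃ A : Finset Plane, A.card = n ∧ g = fr A r - fr A (r + 1)}.Nonempty := by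
    obtain ⟨A, hA⟩ := exists_card n
    exact ⟨_, A, hA, rfl⟩
  have hbdd : BddAbove {g | ∃ A : Finset Plane, A.card = n ∧ g = fr A r - fr A (r + 1)} := by
    refine ⟨n * n, ?_⟩
    rintro g ⟨B, hB, rfl⟩
    have := fr_le_sq B r
    rw [hB] at this
    omega
  exact Nat.sSup_mem hne hbdd

/-- The total number of ordered pairs. -/
theorem sum_P (A : Finset Plane) (S : Finset ℝ) :
    ∑ d ∈ S, P A d ≤ A.card * (A.card - 1) := by
  classical
  unfold P
  have h := Finset.card_biUnion (s := S)
    (t := fun d => A.offDiag.filter (fun q => dist q.1 q.2 = d)) (by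
      intro d _ d' _ hne
      rw [Function.onFun, Finset.disjoint_left]
      intro q hq hq'
      rw [Finset.mem_filter] at hq hq'
      exact hne (hq.2.symm.trans hq'.2))
  rw [← h]
  refine (Finset.card_le_card (Finset.biUnion_subset.mpr
    (fun d _ => Finset.filter_subset _ _))).trans ?_
  rw [Finset.offDiag_card, Nat.mul_sub_one]

theorem two_mul_fr_le (A : Finset Plane) {r : ℕ} (hr : 1 ≤ r) :
    2 * (r * fr A r) ≤ A.card * (A.card - 1) := by
  classical
  by_cases h0 : fr A r = 0
  · rw [h0]; simp
  · have h1 := (le_fr_iff A hr (Nat.one_le_iff_ne_zero.mpr h0)).mp le_rfl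
    have h2 := sum_P A ((distances A).filter (fun d => fr A r ≤ f A d))
    refine le_trans ?_ h2
    calc 2 * (r * fr A r)
        ≤ 2 * (((distances A).filter (fun d => fr A r ≤ f A d)).card * fr A r) := by gcongr
      _ = ∑ _d ∈ (distances A).filter (fun d => fr A r ≤ f A d), 2 * fr A r := by
          rw [Finset.sum_const, smul_eq_mul]; ring
      _ ≤ _ := by
          apply Finset.sum_le_sum
          intro d hd
          rw [P_even]
          exact Nat.mul_le_mul_left _ (Finset.mem_filter.mp hd).2

theorem two_mul_M_le {r : ℕ} (hr : 1 ≤ r) (n : ℕ) : 2 * (r * M r n) ≤ n * (n - 1) := by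
  obtain ⟨A, hA, hM⟩ := exists_M r n
  have h := two_mul_fr_le A hr
  rw [hA] at h
  refine le_trans ?_ h
  rw [hM]
  gcongr
  exact Nat.sub_le _ _

/-! ### Good configurations -/

/-- There is an `n`-point set with exactly `r` distances of multiplicity at least `T`, all
other distances occurring at most once. -/
def Good (n r T : ℕ) : Prop :=
  ∃ U : Finset Plane, ∃ D : Finset ℝ, U.card = n ∧ D.card = r ∧
    (∀ d ∈ D, 2 * T ≤ P U d) ∧ (∀ d, d ∉ D → P U d ≤ 2)

theorem Good.le_M {n r T : ℕ} (h : Good n r T) (hr : 1 ≤ r) (hT : 1 ≤ T) : T - 1 ≤ M r n := by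
  obtain ⟨U, D, hU, hD, h1, h2⟩ := h
  have e1 : T ≤ fr U r := by
    apply fr_ge U r T hr hT D hD
    intro d hd
    have := h1 d hd
    rw [P_even] at this
    omega
  have e2 : fr U (r + 1) ≤ 1 := by
    apply fr_le U r 1 D hD.le
    intro d hd
    have := h2 d hd
    rw [P_even] at this
    omega
  have := Gap.le_M (r := r) U hU
  omega

theorem Good.mono {n r T T' : ℕ} (h : Good n r T) (hT : T' ≤ T) : Good n r T' := by
  obtain ⟨U, D, hU, hD, h1, h2⟩ := h
  exact ⟨U, D, hU, hD, fun d hd => (by have := h1 d hd; omega), h2⟩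

theorem Good.zero (T : ℕ) : Good 0 0 T := by
  refine ⟨∅, ∅, rfl, rfl, ?_, ?_⟩
  · intro d hd
    exact absurd hd (Finset.notMem_empty d)
  · intro d _
    simp [P]

/-- Adding configurations. -/
theorem Good.add {n r n' r' T : ℕ} (hT : 1 ≤ T) (h : Good n r T) (h' : Good n' r' T) :
    Good (n + n') (r + r') T := by
  classical
  obtain ⟨U, D, hU, hD, h1, h2⟩ := h
  obtain ⟨V, E, hV, hE, h3, h4⟩ := h'
  -- scale the second set so that its distances are larger than those of the first
  have hDpos : ∀ d ∈ distances U, 0 < d := by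
    intro d hd
    rw [mem_distances] at hd
    by_contra hneg
    exact hd (P_nonpos (not_lt.mp hneg))
  have hEpos : ∀ d ∈ distances V, 0 < d := by
    intro d hd
    rw [mem_distances] at hd
    by_contra hneg
    exact hd (P_nonpos (not_lt.mp hneg))
  obtain ⟨c, hc, hcd⟩ : ∃ c : ℝ, 0 < c ∧ ∀ d ∈ distances U, ∀ e ∈ distances V, d < c * e := by
    have h5 : ∀ᶠ c : ℝ in Filter.atTop, ∀ d ∈ distances U, ∀ e ∈ distances V, d < c * e := by
      rw [Filter.eventually_all_finset]
      intro d _
      rw [Filter.eventually_all_finset]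
      intro e he
      have := hEpos e he
      exact (Filter.Tendsto.atTop_mul_const this Filter.tendsto_id).eventually_gt_atTop d
    obtain ⟨c, hc1, hc2⟩ := (h5.and (Filter.eventually_gt_atTop 0)).exists
    exact ⟨c, hc2, hc1⟩
  obtain ⟨V', hV', hPV'⟩ := exists_scaled V hc
  have hP' : ∀ d, P V' d = P V (d / c) := by
    intro d
    have := hPV' (d / c)
    rwa [mul_div_cancel₀ _ hc.ne'] at this
  obtain ⟨W, hW, hW1, hW2, hW3, hW4⟩ := step2 U V' ∅
  refine ⟨W, D ∪ E.image (fun e => c * e), ?_, ?_, ?_, ?_⟩
  · rw [hW, hU, hV', hV]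
  · rw [Finset.card_union_of_disjoint, hD,
      Finset.card_image_of_injective _ (mul_right_injective₀ hc.ne'), hE]
    rw [Finset.disjoint_left]
    intro d hd hd'
    rw [Finset.mem_image] at hd'
    obtain ⟨e, he, rfl⟩ := hd'
    have e1 : c * e ∈ distances U := by
      rw [mem_distances]
      have := h1 _ hd
      omega
    have e2 : e ∈ distances V := by
      rw [mem_distances]
      have := h3 _ he
      omega
    exact lt_irrefl _ (hcd _ e1 _ e2)
  · intro d hd
    rw [Finset.mem_union, Finset.mem_image] at hd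
    have h6 := hW2 d
    rcases hd with hd | ⟨e, he, rfl⟩
    · have := h1 d hd
      omega
    · have h7 := h3 e he
      rw [hPV'] at h6
      omega
  · intro d hd
    rw [Finset.mem_union, not_or, Finset.mem_image] at hd
    obtain ⟨hd1, hd2⟩ := hd
    have e1 : P U d ≤ 2 := h2 d hd1
    have e2 : P V' d ≤ 2 := by
      rw [hP']
      apply h4
      intro he
      exact hd2 ⟨d / c, he, mul_div_cancel₀ _ hc.ne'⟩
    by_cases hz : P U d + P V' d = 0
    · have := hW4 d
      omega
    · have h5 := hW3 d hz
      by_cases hz1 : P U d = 0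
      · omega
      · by_cases hz2 : P V' d = 0
        · omega
        · exfalso
          have e3 : d ∈ distances U := mem_distances.mpr hz1
          have e4 : d / c ∈ distances V := by
            rw [mem_distances, ← hP']
            exact hz2
          have := hcd _ e3 _ e4
          rw [mul_div_cancel₀ _ hc.ne'] at this
          exact lt_irrefl _ this

theorem Good.single (T : ℕ) : Good 1 0 T := by
  refine ⟨{0}, ∅, by simp, rfl, ?_, ?_⟩
  · intro d hd
    exact absurd hd (Finset.notMem_empty d)
  · intro d _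
    simp [P]

theorem Good.pad {n r T : ℕ} (hT : 1 ≤ T) (h : Good n r T) {N : ℕ} (hN : n ≤ N) : Good N r T := by
  induction N, hN using Nat.le_induction with
  | base => exact h
  | succ N _ ih => exact ih.add hT (Good.single T)

theorem Good.nsmul {n r T : ℕ} (hT : 1 ≤ T) (h : Good n r T) (k : ℕ) : Good (k * n) (k * r) T := by
  induction k with
  | zero => simpa using Good.zero T
  | succ k ih =>
    rw [add_mul, add_mul, one_mul, one_mul]
    exact ih.add hT h

end Pool.Agent.Helper60.Gap
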