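import Mathlib
import Pool.Agent.Helper60.Gap.Rank

set_option autoImplicit false

namespace Pool.Agent.Helper60.Gap

open Finset Filter Pool.Agent.Helper53.Generic

/-! ### Concentric regular polygons -/

/-- The `K`-th roots of unity. -/
noncomputable def mu (K : ℕ) : Finset ℂ := Polynomial.nthRootsFinset K (1 : ℂ)

theorem mem_mu {K : ℕ} (hK : 0 < K) {g : ℂ} : g ∈ mu K ↔ g ^ K = 1 :=
  Polynomial.mem_nthRootsFinset hK 1

theorem card_mu {K : ℕ} (hK : 0 < K) : (mu K).card = K :=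
  (Complex.isPrimitiveRoot_exp K hK.ne').card_nthRootsFinset

theorem mu_ne_zero {K : ℕ} (hK : 0 < K) {g : ℂ} (hg : g ∈ mu K) : g ≠ 0 := by
  rintro rfl
  rw [mem_mu hK, zero_pow hK.ne'] at hg
  exact zero_ne_one hg

theorem mu_mul {K : ℕ} (hK : 0 < K) {g h : ℂ} (hg : g ∈ mu K) (hh : h ∈ mu K) : g * h ∈ mu K := by
  rw [mem_mu hK] at *
  rw [mul_pow, hg, hh, one_mul]

theorem mu_inv {K : ℕ} (hK : 0 < K) {g : ℂ} (hg : g ∈ mu K) : g⁻¹ ∈ mu K := by
  rw [mem_mu hK] at *
  rw [inv_pow, hg, inv_one]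

theorem mu_one {K : ℕ} (hK : 0 < K) : (1 : ℂ) ∈ mu K := by
  rw [mem_mu hK, one_pow]

theorem mu_norm {K : ℕ} (hK : 0 < K) {g : ℂ} (hg : g ∈ mu K) : ‖g‖ = 1 := by
  rw [mem_mu hK] at hg
  have h1 : ‖g‖ ^ K = 1 := by rw [← norm_pow, hg, norm_one]
  exact (pow_eq_one_iff_of_nonneg (norm_nonneg g) hK.ne').mp h1

theorem dist_mul_left' {g : ℂ} (hg : ‖g‖ = 1) (x y : ℂ) : dist (g * x) (g * y) = dist x y := by
  rw [dist_eq_norm, dist_eq_norm, ← mul_sub, norm_mul, hg, one_mul]

/-- Two unit complex numbers at the same distance from `1` are equal or inverse. -/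
theorem eq_or_inv {g h : ℂ} (hg : ‖g‖ = 1) (hh : ‖h‖ = 1) (he : ‖1 - g‖ = ‖1 - h‖) :
    g = h ∨ g = h⁻¹ := by
  have e1 : g.re ^ 2 + g.im ^ 2 = 1 := by
    have := Complex.sq_norm g
    rw [hg, Complex.normSq_apply] at this
    linarith
  have e2 : h.re ^ 2 + h.im ^ 2 = 1 := by
    have := Complex.sq_norm h
    rw [hh, Complex.normSq_apply] at this
    linarith
  have e3 : (1 - g.re) ^ 2 + g.im ^ 2 = (1 - h.re) ^ 2 + h.im ^ 2 := by
    have a1 := Complex.sq_norm (1 - g)
    have a2 := Complex.sq_norm (1 - h)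
    rw [Complex.normSq_apply] at a1 a2
    rw [he] at a1
    have a3 := a1.symm.trans a2
    simp only [Complex.sub_re, Complex.one_re, Complex.sub_im, Complex.one_im, zero_sub] at a3
    nlinarith [a3]
  have e4 : g.re = h.re := by nlinarith
  have e5 : g.im ^ 2 = h.im ^ 2 := by rw [e4] at e1; linarith
  have hinv : h⁻¹ = (starRingEnd ℂ) h := Complex.inv_eq_conj hh
  rcases sq_eq_sq_iff_eq_or_eq_neg.mp e5 with h5 | h5
  · left
    exact Complex.ext e4 h5
  · right
    rw [hinv]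
    apply Complex.ext
    · simpa using e4
    · simpa using h5

theorem quartic_eventually (a4 a2 a1 a0 : ℝ) (h : a4 ≠ 0 ∨ a2 ≠ 0 ∨ a1 ≠ 0 ∨ a0 ≠ 0) :
    ∀ᶠ s : ℝ in atTop, a4 * s ^ 4 + a2 * s ^ 2 + a1 * s + a0 ≠ 0 := by
  set p : Polynomial ℝ := Polynomial.C a4 * Polynomial.X ^ 4 + Polynomial.C a2 * Polynomial.X ^ 2 +
    Polynomial.C a1 * Polynomial.X + Polynomial.C a0 with hp
  have hc4 : p.coeff 4 = a4 := by
    rw [hp]; simp [Polynomial.coeff_X, Polynomial.coeff_C, Polynomial.coeff_X_pow]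
  have hc2 : p.coeff 2 = a2 := by
    rw [hp]; simp [Polynomial.coeff_X, Polynomial.coeff_C, Polynomial.coeff_X_pow]
  have hc1 : p.coeff 1 = a1 := by
    rw [hp]; simp [Polynomial.coeff_X, Polynomial.coeff_C, Polynomial.coeff_X_pow]
  have hc0 : p.coeff 0 = a0 := by
    rw [hp]; simp [Polynomial.coeff_X, Polynomial.coeff_C, Polynomial.coeff_X_pow]
  have hne : p ≠ 0 := by
    intro h0
    rw [h0, Polynomial.coeff_zero] at hc4 hc2 hc1 hc0
    rcases h with h | h | h | h
    · exact h hc4.symm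
    · exact h hc2.symm
    · exact h hc1.symm
    · exact h hc0.symm
  filter_upwards [Polynomial.eventually_atTop_not_isRoot p hne] with s hs h0
  apply hs
  rw [Polynomial.IsRoot, hp]
  simpa using h0

/-- Point on the parabola. -/
noncomputable def xx (s : ℝ) : ℂ := ⟨s, s ^ 2⟩

theorem dist_xx_sq (y : ℂ) (s : ℝ) : dist y (xx s) ^ 2 = (y.re - s) ^ 2 + (y.im - s ^ 2) ^ 2 := by
  rw [dist_eq_norm, Complex.sq_norm, Complex.normSq_apply]
  simp only [xx, Complex.sub_re, Complex.sub_im]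
  ring

theorem norm_xx_sq (s : ℝ) : ‖xx s‖ ^ 2 = s ^ 2 + s ^ 4 := by
  rw [Complex.sq_norm, Complex.normSq_apply]
  simp only [xx]
  ring

theorem exists_generic {K : ℕ} (X : Finset ℂ) (h0 : (0 : ℂ) ∉ X) (C : Finset ℝ) :
    ∃ x : ℂ, (∀ y ∈ X, ∀ c ∈ C, dist y x ^ 2 ≠ c) ∧
      (∀ y ∈ X, ∀ y' ∈ X, dist y x ^ 2 = dist y' x ^ 2 → y = y') ∧
      (∀ g ∈ mu K, g ≠ 1 → ∀ c ∈ C, ‖x‖ ^ 2 * ‖1 - g‖ ^ 2 ≠ c) ∧
      (∀ y ∈ X, ∀ g ∈ mu K, dist y x ^ 2 ≠ ‖x‖ ^ 2 * ‖1 - g‖ ^ 2) ∧ x ≠ 0 := by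
  have E1 : ∀ᶠ s : ℝ in atTop, ∀ y ∈ X, ∀ c ∈ C, dist y (xx s) ^ 2 ≠ c := by
    rw [Filter.eventually_all_finset]
    intro y _
    rw [Filter.eventually_all_finset]
    intro c _
    filter_upwards [quartic_eventually 1 (1 - 2 * y.im) (-2 * y.re)
      (y.re ^ 2 + y.im ^ 2 - c) (Or.inl one_ne_zero)] with s hs he
    apply hs
    rw [dist_xx_sq] at he
    linear_combination he
  have E2 : ∀ᶠ s : ℝ in atTop, ∀ y ∈ X, ∀ y' ∈ X,
      dist y (xx s) ^ 2 = dist y' (xx s) ^ 2 → y = y' := by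
    rw [Filter.eventually_all_finset]
    intro y _
    rw [Filter.eventually_all_finset]
    intro y' _
    by_cases hyy : y = y'
    · exact Filter.Eventually.of_forall (fun s _ => hyy)
    · have hne : (0 : ℝ) ≠ 0 ∨ -2 * (y.im - y'.im) ≠ 0 ∨ -2 * (y.re - y'.re) ≠ 0 ∨
          (y.re ^ 2 + y.im ^ 2 - y'.re ^ 2 - y'.im ^ 2) ≠ 0 := by
        by_contra hcon
        push Not at hcon
        obtain ⟨-, e1, e2, -⟩ := hcon
        exact hyy (Complex.ext (by linarith) (by linarith))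
      filter_upwards [quartic_eventually _ _ _ _ hne] with s hs he
      exfalso
      apply hs
      rw [dist_xx_sq, dist_xx_sq] at he
      linear_combination he
  have E3 : ∀ᶠ s : ℝ in atTop, ∀ g ∈ mu K, g ≠ 1 → ∀ c ∈ C, ‖xx s‖ ^ 2 * ‖1 - g‖ ^ 2 ≠ c := by
    rw [Filter.eventually_all_finset]
    intro g _
    by_cases hg : g = 1
    · exact Filter.Eventually.of_forall (fun s h => absurd hg h)
    · have hpos : ‖1 - g‖ ^ 2 ≠ 0 := by
        apply pow_ne_zero
        rw [norm_ne_zero_iff, sub_ne_zero]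
        exact fun h => hg h.symm
      have : ∀ᶠ s : ℝ in atTop, ∀ c ∈ C, ‖xx s‖ ^ 2 * ‖1 - g‖ ^ 2 ≠ c := by
        rw [Filter.eventually_all_finset]
        intro c _
        filter_upwards [quartic_eventually (‖1 - g‖ ^ 2) (‖1 - g‖ ^ 2) 0 (-c)
          (Or.inl hpos)] with s hs he
        apply hs
        rw [norm_xx_sq] at he
        linear_combination he
      filter_upwards [this] with s hs _
      exact hs
  have E4 : ∀ᶠ s : ℝ in atTop, ∀ y ∈ X, ∀ g ∈ mu K,
      dist y (xx s) ^ 2 ≠ ‖xx s‖ ^ 2 * ‖1 - g‖ ^ 2 := by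
    rw [Filter.eventually_all_finset]
    intro y hy
    rw [Filter.eventually_all_finset]
    intro g _
    have hy0 : y.re ^ 2 + y.im ^ 2 ≠ 0 := by
      intro h
      apply h0
      have e1 : y.re = 0 := by nlinarith [sq_nonneg y.re, sq_nonneg y.im]
      have e2 : y.im = 0 := by nlinarith [sq_nonneg y.re, sq_nonneg y.im]
      have : y = 0 := Complex.ext e1 e2
      rwa [this] at hy
    filter_upwards [quartic_eventually (1 - ‖1 - g‖ ^ 2) (1 - ‖1 - g‖ ^ 2 - 2 * y.im) (-2 * y.re)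
      (y.re ^ 2 + y.im ^ 2) (Or.inr (Or.inr (Or.inr hy0)))] with s hs he
    apply hs
    rw [norm_xx_sq, dist_xx_sq] at he
    linear_combination he
  obtain ⟨s, hs1, hs2, hs3, hs4, hs5⟩ :=
    (E1.and (E2.and (E3.and (E4.and (Filter.eventually_gt_atTop (0 : ℝ)))))).exists
  refine ⟨xx s, hs1, hs2, hs3, hs4, ?_⟩
  intro h
  have := congrArg Complex.re h
  simp only [xx, Complex.zero_re] at this
  linarith

/-- The relation: the pair `(u', w')` is a rotated or rotated and swapped copy of `(u, w)`. -/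
def Rel (K : ℕ) (u w u' w' : ℂ) : Prop :=
  ∃ g ∈ mu K, (u' = g * u ∧ w' = g * w) ∨ (u' = g * w ∧ w' = g * u)

theorem Rel.swap_left {K : ℕ} {u w u' w' : ℂ} (h : Rel K u w u' w') : Rel K w u u' w' := by
  obtain ⟨g, hg, h1 | h1⟩ := h
  · exact ⟨g, hg, Or.inr h1⟩
  · exact ⟨g, hg, Or.inl h1⟩

theorem Rel.swap_right {K : ℕ} {u w u' w' : ℂ} (h : Rel K u w u' w') : Rel K u w w' u' := by
  obtain ⟨g, hg, h1 | h1⟩ := h
  · exact ⟨g, hg, Or.inr ⟨h1.2, h1.1⟩⟩
  · exact ⟨g, hg, Or.inl ⟨h1.2, h1.1⟩⟩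

theorem Rel.symm {K : ℕ} (hK : 0 < K) {u w u' w' : ℂ} (h : Rel K u w u' w') : Rel K u' w' u w := by
  obtain ⟨g, hg, ⟨rfl, rfl⟩ | ⟨rfl, rfl⟩⟩ := h
  · refine ⟨g⁻¹, mu_inv hK hg, Or.inl ⟨?_, ?_⟩⟩ <;>
    rw [← mul_assoc, inv_mul_cancel₀ (mu_ne_zero hK hg), one_mul]
  · refine ⟨g⁻¹, mu_inv hK hg, Or.inr ⟨?_, ?_⟩⟩ <;>
    rw [← mul_assoc, inv_mul_cancel₀ (mu_ne_zero hK hg), one_mul]

/-- A rotation invariant set all of whose distances come from one class of pairs. -/
structure Blk (K : ℕ) (X : Finset ℂ) : Prop where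
  inv : ∀ u ∈ X, ∀ g ∈ mu K, g * u ∈ X
  zero : (0 : ℂ) ∉ X
  gen : ∀ u ∈ X, ∀ w ∈ X, ∀ u' ∈ X, ∀ w' ∈ X, u ≠ w → u' ≠ w' → dist u w = dist u' w' →
    Rel K u w u' w'

theorem Blk.step {K : ℕ} (hK : 0 < K) {X : Finset ℂ} (hX : Blk K X) :
    ∃ X' : Finset ℂ, Blk K X' ∧ X'.card = X.card + K := by
  classical
  obtain ⟨x, h1, h2, h3, h4, hx0⟩ := exists_generic (K := K) X hX.zero
    ({0} ∪ X.offDiag.image (fun q => dist q.1 q.2 ^ 2))
  set O := (mu K).image (fun g => g * x) with hO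
  have hOcard : O.card = K := by
    rw [hO, Finset.card_image_of_injective _ (mul_left_injective₀ hx0), card_mu hK]
  have hmemO : ∀ z, z ∈ O ↔ ∃ g ∈ mu K, z = g * x := by
    intro z
    rw [hO, Finset.mem_image]
    constructor
    · rintro ⟨g, hg, rfl⟩; exact ⟨g, hg, rfl⟩
    · rintro ⟨g, hg, rfl⟩; exact ⟨g, hg, rfl⟩
  -- distance from a point of `X` to a point of the new orbit
  have hdXO : ∀ u, ∀ g ∈ mu K, dist u (g * x) = dist (g⁻¹ * u) x := by
    intro u g hg
    have e := dist_mul_left' (mu_norm hK (mu_inv hK hg)) u (g * x)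
    rw [← mul_assoc, inv_mul_cancel₀ (mu_ne_zero hK hg), one_mul] at e
    exact e.symm
  have hdOO : ∀ g ∈ mu K, ∀ h ∈ mu K, dist (g * x) (h * x) = ‖x‖ * ‖1 - g⁻¹ * h‖ := by
    intro g hg h hh
    have e := dist_mul_left' (mu_norm hK (mu_inv hK hg)) (g * x) (h * x)
    rw [← mul_assoc, inv_mul_cancel₀ (mu_ne_zero hK hg), one_mul] at e
    rw [← e, dist_eq_norm, ← mul_assoc]
    have : x - g⁻¹ * h * x = x * (1 - g⁻¹ * h) := by ring
    rw [this, norm_mul]
  have hdisj : Disjoint X O := by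
    rw [Finset.disjoint_left]
    intro z hz hz'
    obtain ⟨g, hg, rfl⟩ := (hmemO z).mp hz'
    have := h1 (g⁻¹ * (g * x)) (hX.inv _ hz _ (mu_inv hK hg)) 0 (by simp)
    rw [← mul_assoc, inv_mul_cancel₀ (mu_ne_zero hK hg), one_mul, dist_self] at this
    simp at this
  refine ⟨X ∪ O, ⟨?_, ?_, ?_⟩, ?_⟩
  · intro u hu g hg
    rw [Finset.mem_union] at hu ⊢
    rcases hu with hu | hu
    · left; exact hX.inv u hu g hg
    · right
      obtain ⟨h, hh, rfl⟩ := (hmemO u).mp hu
      rw [hmemO]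
      exact ⟨g * h, mu_mul hK hg hh, by ring⟩
  · rw [Finset.mem_union, not_or]
    refine ⟨hX.zero, ?_⟩
    intro h
    obtain ⟨g, hg, he⟩ := (hmemO 0).mp h
    rcases mul_eq_zero.mp he.symm with h | h
    · exact mu_ne_zero hK hg h
    · exact hx0 h
  · -- normal forms
    have AB : ∀ u ∈ X, ∀ w ∈ X, ∀ u' ∈ X, ∀ g ∈ mu K, u ≠ w → dist u w ≠ dist u' (g * x) := by
      intro u hu w hw u' hu' g hg huw he
      rw [hdXO u' g hg] at he
      apply h1 (g⁻¹ * u') (hX.inv _ hu' _ (mu_inv hK hg)) (dist u w ^ 2)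
      · rw [Finset.mem_union, Finset.mem_image]
        right
        exact ⟨(u, w), Finset.mem_offDiag.mpr ⟨hu, hw, huw⟩, rfl⟩
      · rw [he]
    have AC : ∀ u ∈ X, ∀ w ∈ X, ∀ g ∈ mu K, ∀ h ∈ mu K, u ≠ w → g * x ≠ h * x →
        dist u w ≠ dist (g * x) (h * x) := by
      intro u hu w hw g hg h hh huw hgh he
      rw [hdOO g hg h hh] at he
      apply h3 (g⁻¹ * h) (mu_mul hK (mu_inv hK hg) hh) _ (dist u w ^ 2)
      · rw [Finset.mem_union, Finset.mem_image]
        right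
        exact ⟨(u, w), Finset.mem_offDiag.mpr ⟨hu, hw, huw⟩, rfl⟩
      · rw [he]; ring
      · intro h'
        apply hgh
        have : h = g := by
          rw [inv_mul_eq_one₀ (mu_ne_zero hK hg)] at h'
          exact h'.symm
        rw [this]
    have BB : ∀ u ∈ X, ∀ g ∈ mu K, ∀ u' ∈ X, ∀ h ∈ mu K, dist u (g * x) = dist u' (h * x) →
        Rel K u (g * x) u' (h * x) := by
      intro u hu g hg u' hu' h hh he
      rw [hdXO u g hg, hdXO u' h hh] at he
      have e1 := h2 _ (hX.inv _ hu _ (mu_inv hK hg)) _ (hX.inv _ hu' _ (mu_inv hK hh)) (by rw [he])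
      refine ⟨h * g⁻¹, mu_mul hK hh (mu_inv hK hg), Or.inl ⟨?_, ?_⟩⟩
      · rw [mul_assoc, e1, ← mul_assoc, mul_inv_cancel₀ (mu_ne_zero hK hh), one_mul]
      · rw [mul_assoc, ← mul_assoc g⁻¹, inv_mul_cancel₀ (mu_ne_zero hK hg), one_mul]
    have BC : ∀ u ∈ X, ∀ g ∈ mu K, ∀ h ∈ mu K, ∀ k ∈ mu K,
        dist u (g * x) ≠ dist (h * x) (k * x) := by
      intro u hu g hg h hh k hk he
      rw [hdXO u g hg, hdOO h hh k hk] at he
      apply h4 _ (hX.inv _ hu _ (mu_inv hK hg)) (h⁻¹ * k) (mu_mul hK (mu_inv hK hh) hk)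
      rw [he]; ring
    have CC : ∀ g ∈ mu K, ∀ h ∈ mu K, ∀ g' ∈ mu K, ∀ h' ∈ mu K,
        dist (g * x) (h * x) = dist (g' * x) (h' * x) →
        Rel K (g * x) (h * x) (g' * x) (h' * x) := by
      intro g hg h hh g' hg' h' hh' he
      rw [hdOO g hg h hh, hdOO g' hg' h' hh'] at he
      have e1 := mul_left_cancel₀ (norm_ne_zero_iff.mpr hx0) he
      have hg0 := mu_ne_zero hK hg
      have hh0 := mu_ne_zero hK hh
      have hg0' := mu_ne_zero hK hg'
      have hh0' := mu_ne_zero hK hh'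
      rcases eq_or_inv (mu_norm hK (mu_mul hK (mu_inv hK hg) hh))
        (mu_norm hK (mu_mul hK (mu_inv hK hg') hh')) e1 with e2 | e2
      · refine ⟨g' * g⁻¹, mu_mul hK hg' (mu_inv hK hg), Or.inl ⟨?_, ?_⟩⟩
        · field_simp
        · have : h' = g' * (g⁻¹ * h) := by rw [e2]; field_simp
          rw [this]; ring
      · refine ⟨h' * g⁻¹, mu_mul hK hh' (mu_inv hK hg), Or.inr ⟨?_, ?_⟩⟩
        · have : g' = h' * (g⁻¹ * h) := by rw [e2]; field_simp
          rw [this]; ring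
        · field_simp
    -- every pair has a normal form, up to swapping
    intro u hu w hw u' hu' w' hw' huw huw' he
    rw [Finset.mem_union, hmemO] at hu hw hu' hw'
    rcases hu with hu | ⟨g, hg, rfl⟩ <;> rcases hw with hw | ⟨h, hh, rfl⟩ <;>
    rcases hu' with hu' | ⟨g', hg', rfl⟩ <;> rcases hw' with hw' | ⟨h', hh', rfl⟩
    · exact hX.gen u hu w hw u' hu' w' hw' huw huw' he
    · exact absurd he (AB u hu w hw u' hu' h' hh' huw)
    · exact absurd (he.trans (dist_comm _ _)) (AB u hu w hw w' hw' g' hg' huw)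
    · exact absurd he (AC u hu w hw g' hg' h' hh' huw huw')
    · exact absurd he.symm (AB u' hu' w' hw' u hu h hh huw')
    · exact BB u hu h hh u' hu' h' hh' he
    · exact (BB u hu h hh w' hw' g' hg' (he.trans (dist_comm _ _))).swap_right
    · exact absurd he (BC u hu h hh g' hg' h' hh')
    · exact absurd (he.symm.trans (dist_comm _ _)) (AB u' hu' w' hw' w hw g hg huw')
    · exact (BB w hw g hg u' hu' h' hh' ((dist_comm _ _).trans he)).swap_left
    · exact ((BB w hw g hg w' hw' g' hg' ((dist_comm _ _).trans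
        (he.trans (dist_comm _ _)))).swap_left).swap_right
    · exact absurd ((dist_comm _ _).trans he) (BC w hw g hg g' hg' h' hh')
    · exact absurd he.symm (AC u' hu' w' hw' g hg h hh huw' huw)
    · exact absurd he.symm (BC u' hu' h' hh' g hg h hh)
    · exact absurd ((dist_comm _ _).trans he.symm) (BC w' hw' g' hg' g hg h hh)
    · exact CC g hg h hh g' hg' h' hh' he
  · rw [Finset.card_union_of_disjoint hdisj, hOcard]

theorem exists_Blk {K : ℕ} (hK : 0 < K) (m : ℕ) : ∃ X : Finset ℂ, Blk K X ∧ X.card = m * K := by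
  induction m with
  | zero =>
    refine ⟨∅, ⟨?_, ?_, ?_⟩, by simp⟩
    · intro u hu; exact absurd hu (Finset.notMem_empty u)
    · exact Finset.notMem_empty 0
    · intro u hu; exact absurd hu (Finset.notMem_empty u)
  | succ m ih =>
    obtain ⟨X, hX, hc⟩ := ih
    obtain ⟨X', hX', hc'⟩ := hX.step hK
    exact ⟨X', hX', by rw [hc', hc]; ring⟩

/-- In such a set, for odd `K`, every distance occurs for exactly `2 K` ordered pairs. -/
theorem Blk.count {K : ℕ} (hK : 0 < K) (hodd : Odd K) {X : Finset ℂ} (hX : Blk K X) (d : ℝ) :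
    (X.offDiag.filter (fun q => dist q.1 q.2 = d)).card = 0 ∨
    (X.offDiag.filter (fun q => dist q.1 q.2 = d)).card = 2 * K := by
  classical
  rcases Finset.eq_empty_or_nonempty (X.offDiag.filter (fun q => dist q.1 q.2 = d)) with h | h
  · left; rw [h, Finset.card_empty]
  · right
    obtain ⟨⟨u, w⟩, hq⟩ := h
    rw [Finset.mem_filter, Finset.mem_offDiag] at hq
    obtain ⟨⟨hu, hw, huw⟩, hd⟩ := hq
    simp only at hu hw huw hd
    have hu0 : u ≠ 0 := fun h => hX.zero (h ▸ hu)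
    have hw0 : w ≠ 0 := fun h => hX.zero (h ▸ hw)
    have hcard : ((mu K) ×ˢ (Finset.univ : Finset Bool)).card = 2 * K := by
      rw [Finset.card_product, card_mu hK, Finset.card_univ, Fintype.card_bool, mul_comm]
    rw [← hcard]
    symm
    apply Finset.card_bij (fun p _ => if p.2 then (p.1 * u, p.1 * w) else (p.1 * w, p.1 * u))
    · rintro ⟨g, b⟩ hp
      rw [Finset.mem_product] at hp
      have hg : g ∈ mu K := hp.1
      have hg0 := mu_ne_zero hK hg
      rw [Finset.mem_filter, Finset.mem_offDiag]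
      cases b
      · simp only [Bool.false_eq_true, if_false]
        refine ⟨⟨hX.inv w hw g hg, hX.inv u hu g hg, ?_⟩, ?_⟩
        · intro h
          exact huw (mul_left_cancel₀ hg0 h).symm
        · rw [dist_mul_left' (mu_norm hK hg), dist_comm]
          exact hd
      · simp only [if_true]
        refine ⟨⟨hX.inv u hu g hg, hX.inv w hw g hg, ?_⟩, ?_⟩
        · intro h
          exact huw (mul_left_cancel₀ hg0 h)
        · rw [dist_mul_left' (mu_norm hK hg)]
          exact hd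
    · -- injectivity
      have key : ∀ g ∈ mu K, ∀ h ∈ mu K, g * u = h * w → g * w = h * u → False := by
        intro g hg h hh e1 e2
        have hg0 := mu_ne_zero hK hg
        have hh0 := mu_ne_zero hK hh
        have e3 : (g * g) * (u * w) = (h * h) * (u * w) := by
          calc (g * g) * (u * w) = (g * u) * (g * w) := by ring
            _ = (h * w) * (h * u) := by rw [e1, e2]
            _ = _ := by ring
        have e4 := mul_right_cancel₀ (mul_ne_zero hu0 hw0) e3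
        have e5 : g = h := by
          obtain ⟨k, hk⟩ := hodd
          rw [mem_mu hK, hk] at hg hh
          have a1 : g * (g * g) ^ k = 1 := by
            calc g * (g * g) ^ k = g ^ (2 * k + 1) := by ring
              _ = 1 := hg
          have a2 : h * (h * h) ^ k = 1 := by
            calc h * (h * h) ^ k = h ^ (2 * k + 1) := by ring
              _ = 1 := hh
          rw [e4] at a1
          have hne : (h * h) ^ k ≠ 0 := pow_ne_zero _ (mul_ne_zero hh0 hh0)
          exact mul_right_cancel₀ hne (a1.trans a2.symm)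
        subst e5
        exact huw (mul_left_cancel₀ hg0 e1)
      rintro ⟨g, b⟩ hp ⟨h, b'⟩ hp' he
      rw [Finset.mem_product] at hp hp'
      cases b <;> cases b'
      · simp only [Bool.false_eq_true, if_false, Prod.mk.injEq] at he
        rw [mul_right_cancel₀ hw0 he.1]
      · simp only [Bool.false_eq_true, if_false, if_true, Prod.mk.injEq] at he
        exact absurd he (fun h' => key h hp'.1 g hp.1 h'.1.symm h'.2.symm)
      · simp only [Bool.false_eq_true, if_false, if_true, Prod.mk.injEq] at he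
        exact absurd he (fun h' => key g hp.1 h hp'.1 h'.1 h'.2)
      · simp only [if_true, Prod.mk.injEq] at he
        rw [mul_right_cancel₀ hu0 he.1]
    · rintro ⟨u', w'⟩ hq'
      rw [Finset.mem_filter, Finset.mem_offDiag] at hq'
      obtain ⟨⟨hu', hw', huw'⟩, hd'⟩ := hq'
      simp only at hu' hw' huw' hd'
      obtain ⟨g, hg, h1 | h1⟩ := hX.gen u hu w hw u' hu' w' hw' huw huw' (hd.trans hd'.symm)
      · refine ⟨(g, true), Finset.mem_product.mpr ⟨hg, Finset.mem_univ _⟩, ?_⟩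
        simp only [if_true]
        rw [h1.1, h1.2]
      · refine ⟨(g, false), Finset.mem_product.mpr ⟨hg, Finset.mem_univ _⟩, ?_⟩
        simp only [Bool.false_eq_true, if_false]
        rw [h1.1, h1.2]

/-- Transfer from `ℂ` to the plane. -/
theorem exists_transfer (X : Finset ℂ) : ∃ U : Finset Plane, U.card = X.card ∧
    ∀ d, P U d = (X.offDiag.filter (fun q => dist q.1 q.2 = d)).card := by
  classical
  set e : ℂ ≃ₗᵢ[ℝ] Plane := Complex.orthonormalBasisOneI.repr with he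
  refine ⟨X.image e, Finset.card_image_of_injective _ e.injective, ?_⟩
  intro d
  unfold P
  symm
  apply Finset.card_bij (fun q _ => (e q.1, e q.2))
  · intro q hq
    rw [Finset.mem_filter, Finset.mem_offDiag] at hq ⊢
    refine ⟨⟨Finset.mem_image_of_mem _ hq.1.1, Finset.mem_image_of_mem _ hq.1.2.1, ?_⟩, ?_⟩
    · intro h
      exact hq.1.2.2 (e.injective h)
    · simp only
      rw [e.dist_map]
      exact hq.2
  · rintro ⟨a, b⟩ _ ⟨a', b'⟩ _ h
    simp only [Prod.mk.injEq] at h ⊢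
    exact ⟨e.injective h.1, e.injective h.2⟩
  · rintro ⟨x, y⟩ h
    rw [Finset.mem_filter, Finset.mem_offDiag] at h
    obtain ⟨⟨hx, hy, hne⟩, hd⟩ := h
    simp only at hx hy hne hd
    rw [Finset.mem_image] at hx hy
    obtain ⟨a, ha, rfl⟩ := hx
    obtain ⟨b, hb, rfl⟩ := hy
    refine ⟨(a, b), ?_, rfl⟩
    rw [Finset.mem_filter, Finset.mem_offDiag]
    refine ⟨⟨ha, hb, ?_⟩, ?_⟩
    · rintro h
      simp only at h
      exact hne (by rw [h])
    · simp only
      rw [e.dist_map] at hd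
      exact hd

theorem sum_P_distances (A : Finset Plane) :
    ∑ d ∈ distances A, P A d = A.card * (A.card - 1) := by
  classical
  have h := Finset.card_eq_sum_card_image (fun q : Plane × Plane => dist q.1 q.2) A.offDiag
  rw [Finset.offDiag_card, Nat.mul_sub_one] at *
  rw [h]
  rfl

/-- Block: `m` concentric regular `K`-gons, `K` odd. -/
theorem exists_block {K : ℕ} (hK : 0 < K) (hodd : Odd K) (m : ℕ) :
    ∃ U : Finset Plane, U.card = m * K ∧ (∀ d ∈ distances U, P U d = 2 * K) ∧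
      2 * (distances U).card = m * (m * K - 1) := by
  obtain ⟨X, hX, hc⟩ := exists_Blk hK m
  obtain ⟨U, hU, hP⟩ := exists_transfer X
  have h1 : ∀ d ∈ distances U, P U d = 2 * K := by
    intro d hd
    rw [mem_distances, hP] at hd
    rw [hP]
    rcases hX.count hK hodd d with h | h
    · exact absurd h hd
    · exact h
  refine ⟨U, by rw [hU, hc], h1, ?_⟩
  have h2 := sum_P_distances U
  rw [Finset.sum_congr rfl h1, Finset.sum_const, smul_eq_mul, hU, hc] at h2
  apply Nat.eq_of_mul_eq_mul_right hK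
  calc 2 * (distances U).card * K = (distances U).card * (2 * K) := by ring
    _ = m * K * (m * K - 1) := h2
    _ = m * (m * K - 1) * K := by ring

end Pool.Agent.Helper60.Gap
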