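import Mathlib
import Pool.Agent.Helper60.Gap.Block

set_option autoImplicit false

namespace Pool.Agent.Helper60.Gap

open Finset Filter Pool.Agent.Helper53.Generic

/-- The number of distances of `m` concentric regular `K`-gons. -/
def tri (K m : ℕ) : ℕ := m * (m * K - 1) / 2

theorem two_tri {K : ℕ} (hK : 0 < K) (hodd : Odd K) (m : ℕ) : 2 * tri K m = m * (m * K - 1) := by
  obtain ⟨U, -, -, h⟩ := exists_block hK hodd m
  unfold tri
  omega

theorem block_good {K : ℕ} (hK : 0 < K) (hodd : Odd K) (m : ℕ) : Good (m * K) (tri K m) K := by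
  obtain ⟨U, hU, h1, h2⟩ := exists_block hK hodd m
  refine ⟨U, distances U, hU, ?_, fun d hd => (h1 d hd).ge, ?_⟩
  · have := two_tri hK hodd m
    omega
  · intro d hd
    rw [mem_distances, not_not] at hd
    rw [hd]
    exact Nat.zero_le 2

theorem small_good (r : ℕ) {T : ℕ} (hT : 1 ≤ T) : Good (T + 2 * r) r T := by
  classical
  rcases Nat.eq_zero_or_pos r with h0 | hr
  · subst h0
    exact (Good.zero T).pad hT (Nat.zero_le _)
  · obtain ⟨U, hU, h1, h2⟩ := exists_block (K := 2 * r + 1) (by omega) ⟨r, rfl⟩ 1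
    rw [one_mul] at hU h2
    set c := (T + 2 * r) / (2 * r + 1) with hc
    have hc1 : c * (2 * r + 1) ≤ T + 2 * r := Nat.div_mul_le_self _ _
    have hc2 : T ≤ c * (2 * r + 1) := by
      have := Nat.lt_div_mul_add (a := T + 2 * r) (b := 2 * r + 1) (by omega)
      rw [← hc] at this
      omega
    obtain ⟨V, hV, h3, h4⟩ := family2 (Finset.range c) (fun _ => U) (distances U)
      (fun i _ d hd => mem_distances.mpr hd)
    rw [Finset.sum_const, Finset.card_range, smul_eq_mul, hU] at hV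
    have hgood : Good (c * (2 * r + 1)) r T := by
      refine ⟨V, distances U, hV, by omega, ?_, h4⟩
      intro d hd
      rw [h3 d hd, Finset.sum_const, Finset.card_range, smul_eq_mul, h1 d hd]
      calc 2 * T ≤ 2 * (c * (2 * r + 1)) := by omega
        _ = c * (2 * (2 * r + 1)) := by ring
    exact hgood.pad hT hc1

theorem base_good (h : ℕ) (hh : 1 ≤ h) (r : ℕ) :
    Good ((r / h + 2) * (2 * h + 1)) r (2 * h + 1) := by
  have h1 : Good (1 * (2 * h + 1)) (tri (2 * h + 1) 1) (2 * h + 1) :=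
    block_good (by omega) ⟨h, rfl⟩ 1
  have h2 : tri (2 * h + 1) 1 = h := by
    unfold tri
    omega
  rw [h2, one_mul] at h1
  have h3 := h1.nsmul (by omega) (r / h)
  have h4 : Good (2 * h + 1 + 2 * (r % h)) (r % h) (2 * h + 1) := small_good _ (by omega)
  have h5 := h3.add (by omega) h4
  have e1 : r / h * h + r % h = r := Nat.div_add_mod' r h
  rw [e1] at h5
  apply h5.pad (by omega)
  have := Nat.mod_lt r hh
  rw [add_mul]
  omega

theorem exists_level {K : ℕ} (hK : 3 ≤ K) (r : ℕ) : ∃ m, tri K m ≤ r ∧ r < tri K (m + 1) := by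
  have hex : ∃ m, r < tri K (m + 1) := by
    refine ⟨r, ?_⟩
    unfold tri
    rw [Nat.lt_div_iff_mul_lt (by norm_num)]
    have h1 : (r + 1) * 3 ≤ (r + 1) * K := Nat.mul_le_mul_left _ hK
    have h2 : 2 ≤ (r + 1) * K - 1 := by omega
    have h3 : (r + 1) * 2 ≤ (r + 1) * ((r + 1) * K - 1) := Nat.mul_le_mul_left _ h2
    omega
  classical
  refine ⟨Nat.find hex, ?_, Nat.find_spec hex⟩
  rcases Nat.eq_zero_or_pos (Nat.find hex) with h | h
  · rw [h]
    simp [tri]
  · have := Nat.find_min hex (m := Nat.find hex - 1) (by omega)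
    rw [Nat.sub_add_cancel h] at this
    omega

/-- Increment of `tri`. -/
theorem two_tri_succ {K : ℕ} (hK : 0 < K) (hodd : Odd K) (m : ℕ) :
    2 * tri K (m + 1) = 2 * tri K m + ((2 * m + 1) * K - 1) := by
  rw [two_tri hK hodd, two_tri hK hodd]
  obtain ⟨k, rfl⟩ : ∃ k, K = k + 1 := ⟨K - 1, by omega⟩
  rcases Nat.eq_zero_or_pos m with h | h
  · subst h; simp
  · obtain ⟨j, rfl⟩ : ∃ j, m = j + 1 := ⟨m - 1, by omega⟩
    have e1 : (j + 1 + 1) * (k + 1) - 1 = (j + 1 + 1) * k + j + 1 := by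
      have : (j + 1 + 1) * (k + 1) = (j + 1 + 1) * k + j + 1 + 1 := by ring
      omega
    have e2 : (j + 1) * (k + 1) - 1 = (j + 1) * k + j := by
      have : (j + 1) * (k + 1) = (j + 1) * k + j + 1 := by ring
      omega
    have e3 : (2 * (j + 1) + 1) * (k + 1) - 1 = (2 * (j + 1) + 1) * k + 2 * (j + 1) := by
      have : (2 * (j + 1) + 1) * (k + 1) = (2 * (j + 1) + 1) * k + 2 * (j + 1) + 1 := by ring
      omega
    rw [e1, e2, e3]
    ring

/-- One level of the greedy construction. -/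
theorem one_level (h : ℕ) (hh : 1 ≤ h) (r : ℕ) :
    ∃ m, 2 * tri (2 * h + 1) m ≤ 2 * r ∧
      Good ((4 * m + 3) * (2 * h + 1)) r (2 * h + 1) := by
  obtain ⟨m, hm1, hm2⟩ := exists_level (K := 2 * h + 1) (by omega) r
  refine ⟨m, by omega, ?_⟩
  have h1 := block_good (K := 2 * h + 1) (by omega) ⟨h, rfl⟩ m
  have h2 := base_good h hh (r - tri (2 * h + 1) m)
  have h3 := h1.add (by omega) h2
  have e1 : tri (2 * h + 1) m + (r - tri (2 * h + 1) m) = r := by omega
  rw [e1] at h3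
  apply h3.pad (by omega)
  have h4 := two_tri_succ (K := 2 * h + 1) (by omega) ⟨h, rfl⟩ m
  have h5 : 2 * (r - tri (2 * h + 1) m) < (2 * m + 1) * (2 * h + 1) - 1 := by omega
  have h6 : (r - tri (2 * h + 1) m) / h ≤ 3 * m + 1 := by
    rw [← Nat.lt_succ_iff, Nat.div_lt_iff_lt_mul hh]
    have e2 : (2 * m + 1) * (2 * h + 1) = 2 * (2 * (m * h) + m + h) + 1 := by ring
    have e3 : (3 * m + 1).succ * h = 3 * (m * h) + 2 * h := by
      rw [Nat.succ_eq_add_one]; ring
    have e4 : m ≤ m * h := Nat.le_mul_of_pos_right _ hh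
    rw [e3]
    omega
  calc m * (2 * h + 1) + ((r - tri (2 * h + 1) m) / h + 2) * (2 * h + 1)
      ≤ m * (2 * h + 1) + (3 * m + 1 + 2) * (2 * h + 1) := by gcongr
    _ = (4 * m + 3) * (2 * h + 1) := by ring

/-- Two levels of the greedy construction. -/
theorem two_level (h : ℕ) (hh : 1 ≤ h) (r : ℕ) :
    ∃ m₁ m₂, 2 * tri (2 * h + 1) m₁ ≤ 2 * r ∧
      2 * tri (2 * h + 1) m₂ ≤ (2 * m₁ + 1) * (2 * h + 1) ∧
      Good ((m₁ + 4 * m₂ + 3) * (2 * h + 1)) r (2 * h + 1) := by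
  obtain ⟨m, hm1, hm2⟩ := exists_level (K := 2 * h + 1) (by omega) r
  obtain ⟨m₂, h1, h2⟩ := one_level h hh (r - tri (2 * h + 1) m)
  refine ⟨m, m₂, by omega, ?_, ?_⟩
  · have h4 := two_tri_succ (K := 2 * h + 1) (by omega) ⟨h, rfl⟩ m
    omega
  · have h3 := block_good (K := 2 * h + 1) (by omega) ⟨h, rfl⟩ m
    have h4 := h3.add (by omega) h2
    have e1 : tri (2 * h + 1) m + (r - tri (2 * h + 1) m) = r := by omega
    have e2 : m * (2 * h + 1) + (4 * m₂ + 3) * (2 * h + 1) =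
        (m + 4 * m₂ + 3) * (2 * h + 1) := by ring
    rwa [e1, e2] at h4

/-- From `m (m K - 1) ≤ y` to a bound for `m K`. -/
theorem mK_le {K m : ℕ} (hK : 0 < K) (hodd : Odd K) {y : ℝ} (hy : 0 ≤ y)
    (h : (2 * tri K m : ℕ) * (K : ℝ) ≤ y ^ 2) : (m : ℝ) * K ≤ y + 1 := by
  rcases Nat.eq_zero_or_pos m with h0 | hm
  · subst h0; simp; linarith
  have h1 := two_tri hK hodd m
  have h2 : ((m * K - 1 : ℕ) : ℝ) = (m : ℝ) * K - 1 := by
    rw [Nat.cast_sub (Nat.mul_pos hm hK)]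
    push_cast
    ring
  have h3 : ((2 * tri K m : ℕ) : ℝ) = (m : ℝ) * ((m : ℝ) * K - 1) := by
    rw [h1, Nat.cast_mul, h2]
  rw [h3] at h
  by_contra hcon
  push Not at hcon
  have h4 : (m : ℝ) * (m * K - 1) * K = (m * K) * (m * K - 1) := by ring
  rw [h4] at h
  nlinarith

end Pool.Agent.Helper60.Gap
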