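import Mathlib
import Pool.Agent.Helper60.Gap.Rank
import Pool.Agent.Helper60.Gap.Block

set_option autoImplicit false

namespace Pool.Agent.Helper60.Gap

open Finset Filter Pool.Agent.Helper53.Generic

/-! ### `M_r(n) ≥ 1` for all `1 ≤ r ≤ n (n - 1) / 2` -/

/-- Integer points on a line. -/
noncomputable def line (k : ℕ) : Plane := !₂[(k : ℝ), 0]

theorem dist_line (a b : ℕ) : dist (line a) (line b) = |(a : ℝ) - b| := by
  rw [EuclideanSpace.dist_eq, Fin.sum_univ_two]
  simp only [line, PiLp.toLp_apply, Matrix.cons_val_zero, Matrix.cons_val_one,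
    Matrix.cons_val_fin_one, dist_self]
  rw [Real.dist_eq]
  simp [Real.sqrt_sq_eq_abs]

theorem line_injective : Function.Injective line := by
  intro a b h
  have := dist_line a b
  rw [h, dist_self] at this
  have h2 := abs_eq_zero.mp this.symm
  exact_mod_cast sub_eq_zero.mp h2

theorem mem_distances_line [DecidableEq Plane] {S : Finset ℕ} {d : ℝ} :
    d ∈ distances (S.image line) ↔ ∃ a ∈ S, ∃ b ∈ S, a < b ∧ d = ((b - a : ℕ) : ℝ) := by
  rw [mem_distances]
  constructor
  · intro h
    obtain ⟨x, hx, y, hy, hne, he⟩ := exists_of_P_ne_zero h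
    rw [Finset.mem_image] at hx hy
    obtain ⟨a, ha, rfl⟩ := hx
    obtain ⟨b, hb, rfl⟩ := hy
    rw [dist_line] at he
    have hab : a ≠ b := fun h => hne (by rw [h])
    rcases lt_or_gt_of_ne hab with hlt | hlt
    · refine ⟨a, ha, b, hb, hlt, ?_⟩
      rw [← he, Nat.cast_sub hlt.le, abs_sub_comm, abs_of_nonneg]
      have : (a : ℝ) < b := by exact_mod_cast hlt
      linarith
    · refine ⟨b, hb, a, ha, hlt, ?_⟩
      rw [← he, Nat.cast_sub hlt.le, abs_of_nonneg]
      have : (b : ℝ) < a := by exact_mod_cast hlt
      linarith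
  · rintro ⟨a, ha, b, hb, hlt, rfl⟩
    have hne : line b ≠ line a := fun h => hlt.ne (line_injective h).symm
    have := P_mem_ne_zero (Finset.mem_image_of_mem line hb) (Finset.mem_image_of_mem line ha) hne
    rw [dist_line, abs_of_nonneg] at this
    · rwa [Nat.cast_sub hlt.le]
    · have : (a : ℝ) < b := by exact_mod_cast hlt
      linarith

theorem P_line_range [DecidableEq Plane] (n k : ℕ) (hk : 1 ≤ k) :
    P ((Finset.range n).image line) (k : ℝ) = 2 * (n - k) := by
  have hcard : ((Finset.range (n - k)) ×ˢ (Finset.univ : Finset Bool)).card = 2 * (n - k) := by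
    rw [Finset.card_product, Finset.card_range, Finset.card_univ, Fintype.card_bool, mul_comm]
  rw [← hcard]
  unfold P
  symm
  apply Finset.card_bij (fun p _ => if p.2 then (line p.1, line (p.1 + k))
    else (line (p.1 + k), line p.1))
  · rintro ⟨j, b⟩ hp
    rw [Finset.mem_product, Finset.mem_range] at hp
    have hj : j < n - k := hp.1
    have hd : |((j : ℝ)) - ((j + k : ℕ) : ℝ)| = k := by
      push_cast
      rw [sub_add_cancel_left, abs_neg, abs_of_nonneg (Nat.cast_nonneg k)]
    rw [Finset.mem_filter, Finset.mem_offDiag]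
    cases b
    · simp only [Bool.false_eq_true, if_false]
      refine ⟨⟨Finset.mem_image_of_mem _ (Finset.mem_range.mpr (by omega)),
        Finset.mem_image_of_mem _ (Finset.mem_range.mpr (by omega)), ?_⟩, ?_⟩
      · intro h
        have := line_injective h
        omega
      · rw [dist_comm, dist_line]
        exact hd
    · simp only [if_true]
      refine ⟨⟨Finset.mem_image_of_mem _ (Finset.mem_range.mpr (by omega)),
        Finset.mem_image_of_mem _ (Finset.mem_range.mpr (by omega)), ?_⟩, ?_⟩
      · intro h
        have := line_injective h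
        omega
      · rw [dist_line]
        exact hd
  · rintro ⟨j, b⟩ _ ⟨j', b'⟩ _ he
    cases b <;> cases b' <;>
    simp only [Bool.false_eq_true, if_false, if_true, Prod.mk.injEq, line_injective.eq_iff] at he
    · rw [he.2]
    · omega
    · omega
    · rw [he.1]
  · rintro ⟨x, y⟩ hq
    rw [Finset.mem_filter, Finset.mem_offDiag] at hq
    obtain ⟨⟨hx, hy, hne⟩, hd⟩ := hq
    simp only at hx hy hne hd
    rw [Finset.mem_image] at hx hy
    obtain ⟨a, ha, rfl⟩ := hx
    obtain ⟨b, hb, rfl⟩ := hy
    rw [Finset.mem_range] at ha hb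
    rw [dist_line] at hd
    have hab : a ≠ b := fun h => hne (by rw [h])
    rcases lt_or_gt_of_ne hab with hlt | hlt
    · have hlt' : (a : ℝ) < b := by exact_mod_cast hlt
      rw [abs_sub_comm, abs_of_nonneg (by linarith)] at hd
      have hb' : b = a + k := by
        have : (b : ℝ) = ((a + k : ℕ) : ℝ) := by push_cast; linarith
        exact_mod_cast this
      refine ⟨(a, true), ?_, ?_⟩
      · rw [Finset.mem_product, Finset.mem_range]
        exact ⟨by simp only; omega, Finset.mem_univ _⟩
      · simp only [if_true]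
        rw [hb']
    · have hlt' : (b : ℝ) < a := by exact_mod_cast hlt
      rw [abs_of_nonneg (by linarith)] at hd
      have ha' : a = b + k := by
        have : (a : ℝ) = ((b + k : ℕ) : ℝ) := by push_cast; linarith
        exact_mod_cast this
      refine ⟨(b, false), ?_, ?_⟩
      · rw [Finset.mem_product, Finset.mem_range]
        exact ⟨by simp only; omega, Finset.mem_univ _⟩
      · simp only [Bool.false_eq_true, if_false]
        rw [ha']

/-- Arithmetic progressions: `M_r(n) ≥ 1` for `r ≤ n - 1`. -/
theorem M_pos_small {n r : ℕ} (hr : 1 ≤ r) (hrn : r + 1 ≤ n) : 1 ≤ M r n := by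
  classical
  set A : Finset Plane := (Finset.range n).image line with hA
  have hcard : A.card = n := by
    rw [hA, Finset.card_image_of_injective _ line_injective, Finset.card_range]
  set D : Finset ℝ := (Finset.Icc 1 r).image (fun k : ℕ => (k : ℝ)) with hD
  have hDcard : D.card = r := by
    rw [hD, Finset.card_image_of_injective _ Nat.cast_injective, Nat.card_Icc]
    omega
  have h1 : n - r ≤ fr A r := by
    apply fr_ge A r (n - r) hr (by omega) D hDcard
    intro d hd
    rw [hD, Finset.mem_image] at hd
    obtain ⟨k, hk, rfl⟩ := hd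
    rw [Finset.mem_Icc] at hk
    have h2 := P_line_range n k hk.1
    rw [← hA, P_even] at h2
    omega
  have h2 : fr A (r + 1) ≤ n - r - 1 := by
    apply fr_le A r (n - r - 1) D hDcard.le
    intro d hd
    by_cases h0 : P A d = 0
    · rw [P_even] at h0
      omega
    · have h3 := mem_distances.mpr h0
      rw [hA, mem_distances_line] at h3
      obtain ⟨a, ha, b, hb, hlt, rfl⟩ := h3
      have h4 : ¬ (b - a ≤ r) := by
        intro h
        apply hd
        rw [hD, Finset.mem_image]
        exact ⟨b - a, Finset.mem_Icc.mpr ⟨by omega, h⟩, rfl⟩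
      have h5 := P_line_range n (b - a) (by omega)
      rw [← hA, P_even] at h5
      omega
  have h3 := Gap.le_M (r := r) A hcard
  omega

/-- A set with exactly `r` distances. -/
def Exact (n r : ℕ) : Prop := ∃ A : Finset Plane, A.card = n ∧ (distances A).card = r

theorem Exact.M_pos {n r : ℕ} (hr : 1 ≤ r) (h : Exact n r) : 1 ≤ M r n := by
  classical
  obtain ⟨A, hA, hD⟩ := h
  have h1 : 1 ≤ fr A r := by
    apply fr_ge A r 1 hr le_rfl (distances A) hD
    intro d hd
    rw [mem_distances, P_even] at hd
    omega
  have h2 : fr A (r + 1) ≤ 0 := by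
    apply fr_le A r 0 (distances A) hD.le
    intro d hd
    rw [mem_distances, not_not, P_even] at hd
    omega
  have h3 := Gap.le_M (r := r) A hA
  omega

theorem exact_base {n y : ℕ} (hn : 2 ≤ n) (hy1 : n - 1 ≤ y) (hy2 : y + 3 ≤ 2 * n) : Exact n y := by
  classical
  set S : Finset ℕ := insert y (Finset.range (n - 1)) with hS
  have hyS : y ∉ Finset.range (n - 1) := by rw [Finset.mem_range]; omega
  refine ⟨S.image line, ?_, ?_⟩
  · rw [Finset.card_image_of_injective _ line_injective, hS, Finset.card_insert_of_notMem hyS,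
      Finset.card_range]
    omega
  · have : distances (S.image line) = (Finset.Icc 1 y).image (fun k : ℕ => (k : ℝ)) := by
      ext d
      rw [mem_distances_line, Finset.mem_image]
      constructor
      · rintro ⟨a, ha, b, hb, hlt, rfl⟩
        refine ⟨b - a, ?_, rfl⟩
        rw [hS, Finset.mem_insert, Finset.mem_range] at ha hb
        rw [Finset.mem_Icc]
        omega
      · rintro ⟨k, hk, rfl⟩
        rw [Finset.mem_Icc] at hk
        by_cases hkn : k ≤ n - 2
        · refine ⟨0, ?_, k, ?_, by omega, by rw [Nat.sub_zero]⟩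
          · rw [hS, Finset.mem_insert, Finset.mem_range]; omega
          · rw [hS, Finset.mem_insert, Finset.mem_range]; omega
        · refine ⟨y - k, ?_, y, ?_, by omega, ?_⟩
          · rw [hS, Finset.mem_insert, Finset.mem_range]; omega
          · rw [hS, Finset.mem_insert]; left; rfl
          · congr 1; omega
    rw [this, Finset.card_image_of_injective _ Nat.cast_injective, Nat.card_Icc]
    omega

theorem Exact.succ {n r : ℕ} (h : Exact n r) : Exact (n + 1) (r + n) := by
  classical
  obtain ⟨U, hU, hD⟩ := h
  obtain ⟨U', h1, -, h3, h4, h5⟩ := step2 U {0} ∅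
  rw [Finset.card_singleton] at h1
  have hP0 : ∀ d, P ({0} : Finset Plane) d = 0 := by
    intro d
    simp [P]
  refine ⟨U', by rw [h1, hU], ?_⟩
  have hsub : distances U ⊆ distances U' := by
    intro d hd
    rw [mem_distances] at hd ⊢
    have := h3 d
    omega
  have e1 := sum_P_distances U'
  have e2 := sum_P_distances U
  rw [← Finset.sum_sdiff hsub] at e1
  have e3 : ∑ d ∈ distances U, P U' d = ∑ d ∈ distances U, P U d := by
    apply Finset.sum_congr rfl
    intro d hd
    rw [mem_distances] at hd
    rw [h4 d (by omega), hP0, add_zero]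
  have e4 : ∑ d ∈ distances U' \ distances U, P U' d = 2 * (distances U' \ distances U).card := by
    rw [Finset.sum_congr rfl (g := fun _ => 2), Finset.sum_const, smul_eq_mul, mul_comm]
    intro d hd
    rw [Finset.mem_sdiff, mem_distances, mem_distances, not_not] at hd
    have h6 := h5 d
    rw [hP0, hd.2] at h6
    have h7 := hd.1
    rw [P_even] at h6 h7 ⊢
    omega
  rw [e3, e4, e2, h1, hU] at e1
  have e5 := Finset.card_sdiff_add_card_eq_card hsub
  rw [hD] at e5
  have e6 : (n + 1) * (n + 1 - 1) = 2 * n + n * (n - 1) := by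
    rcases Nat.eq_zero_or_pos n with h0 | hpos
    · subst h0; rfl
    · obtain ⟨k, rfl⟩ : ∃ k, n = k + 1 := ⟨n - 1, by omega⟩
      simp only [Nat.add_sub_cancel]
      ring
  omega

theorem exact_all {n : ℕ} (hn : 2 ≤ n) : ∀ r, n - 1 ≤ r → 2 * r ≤ n * (n - 1) → Exact n r := by
  induction n, hn using Nat.le_induction with
  | base =>
    intro r h1 h2
    exact exact_base le_rfl h1 (by omega)
  | succ n hn ih =>
    intro r h1 h2
    by_cases h : r + 3 ≤ 2 * (n + 1)
    · exact exact_base (by omega) h1 h
    · have h3 := ih (r - n) (by omega) (by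
        have e6 : (n + 1) * (n + 1 - 1) = 2 * n + n * (n - 1) := by
          obtain ⟨k, rfl⟩ : ∃ k, n = k + 1 := ⟨n - 1, by omega⟩
          simp only [Nat.add_sub_cancel]
          ring
        omega)
      have h4 := h3.succ
      have e1 : r - n + n = r := by omega
      rwa [e1] at h4

theorem M_pos {n r : ℕ} (hn : 2 ≤ n) (hr : 1 ≤ r) (hrn : 2 * r ≤ n * (n - 1)) : 1 ≤ M r n := by
  by_cases h : r + 1 ≤ n
  · exact M_pos_small hr h
  · exact (exact_all hn r (by omega) hrn).M_pos hr

end Pool.Agent.Helper60.Gap
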