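import Mathlib
import Pool.Agent.Helper60.Gap.Greedy
import Pool.Agent.Helper60.Gap.Pos

set_option autoImplicit false

namespace Pool.Agent.Helper60.Gap

open Finset Filter

/-- An odd number in a prescribed range. -/
theorem exists_odd {y : ℝ} (hy : 3 ≤ y) : ∃ h : ℕ, 1 ≤ h ∧ ((2 * h + 1 : ℕ) : ℝ) ≤ y ∧
    y < ((2 * h + 1 : ℕ) : ℝ) + 2 := by
  refine ⟨⌊(y - 1) / 2⌋₊, ?_, ?_, ?_⟩
  · apply Nat.le_floor
    push_cast
    linarith
  · have := Nat.floor_le (show (0 : ℝ) ≤ (y - 1) / 2 by linarith)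
    push_cast
    linarith
  · have := Nat.lt_floor_add_one ((y - 1) / 2)
    push_cast
    linarith

theorem upper (n r : ℕ) (hr : 1 ≤ r) : (M r n : ℝ) ≤ (n : ℝ) ^ 2 / (2 * r) := by
  have h := two_mul_M_le hr n
  have hr' : (0 : ℝ) < r := by exact_mod_cast hr
  rw [le_div_iff₀ (by positivity)]
  have h2 : n * (n - 1) ≤ n * n := Nat.mul_le_mul_left _ (Nat.sub_le _ _)
  have h3 : ((2 * (r * M r n) : ℕ) : ℝ) ≤ ((n * n : ℕ) : ℝ) := by exact_mod_cast h.trans h2
  push_cast at h3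
  nlinarith

/-- `M_r(n)` is at least a constant times `min (n, n²/r)` in the whole range. -/
theorem lower_all (n r : ℕ) (hn : 2 ≤ n) (hr : 1 ≤ r) (hrn : 2 * r ≤ n * (n - 1)) :
    min (n : ℝ) ((n : ℝ) ^ 2 / r) / 1000 ≤ M r n := by
  have hr' : (0 : ℝ) < r := by exact_mod_cast hr
  have hn' : (0 : ℝ) < n := by exact_mod_cast (by omega : 0 < n)
  set x := min (n : ℝ) ((n : ℝ) ^ 2 / r) with hx
  have hxn : x ≤ n := min_le_left _ _
  have hxr : x ≤ (n : ℝ) ^ 2 / r := min_le_right _ _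
  rcases le_or_gt x 1000 with hsmall | hbig
  · have h1 : (1 : ℝ) ≤ M r n := by exact_mod_cast M_pos hn hr hrn
    linarith
  · obtain ⟨h, hh, hK1, hK2⟩ := exists_odd (y := x / 128) (by linarith)
    obtain ⟨m, hm, hgood⟩ := one_level h hh r
    set K : ℕ := 2 * h + 1 with hKdef
    have hodd : Odd K := ⟨h, rfl⟩
    have hKpos : 0 < K := by omega
    have hKr : (0 : ℝ) < K := by exact_mod_cast hKpos
    -- bound for m K
    have hmK : (m : ℝ) * K ≤ n / 8 + 1 := by
      apply mK_le hKpos hodd (by positivity)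
      have e1 : ((2 * tri K m : ℕ) : ℝ) ≤ 2 * r := by exact_mod_cast hm
      have e2 : (K : ℝ) ≤ (n : ℝ) ^ 2 / r / 128 := by
        calc (K : ℝ) ≤ x / 128 := hK1
          _ ≤ _ := by gcongr
      calc ((2 * tri K m : ℕ) : ℝ) * K ≤ (2 * r) * ((n : ℝ) ^ 2 / r / 128) := by gcongr
        _ = (n / 8) ^ 2 := by field_simp; ring
    have hsize : (4 * m + 3) * K ≤ n := by
      have : (((4 * m + 3) * K : ℕ) : ℝ) ≤ n := by
        push_cast
        have e3 : (K : ℝ) ≤ n / 128 := hK1.trans (by linarith)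
        nlinarith
      exact_mod_cast this
    have hM := (hgood.pad (by omega) hsize).le_M hr (by omega)
    have hM' : (K : ℝ) - 1 ≤ M r n := by
      have : ((K - 1 : ℕ) : ℝ) ≤ M r n := by exact_mod_cast hM
      rw [Nat.cast_sub (by omega)] at this
      simpa using this
    linarith

/-- Asymptotically sharp lower bound for `n ≪ r ≪ n²`. -/
theorem lower_sharp (ε : ℝ) (hε : 0 < ε) : ∃ C : ℝ, 0 < C ∧ ∀ n r : ℕ, C * n ≤ r →
    C * r ≤ (n : ℝ) ^ 2 → 1 ≤ r → (1 - ε) * ((n : ℝ) ^ 2 / (2 * r)) ≤ M r n := by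
  -- it suffices to treat small ε
  wlog hε1 : ε ≤ 1 with H
  · obtain ⟨C, hC, h⟩ := H 1 one_pos le_rfl
    refine ⟨C, hC, ?_⟩
    intro n r h1 h2 h3
    refine le_trans ?_ (h n r h1 h2 h3)
    have : (0 : ℝ) ≤ (n : ℝ) ^ 2 / (2 * r) := by positivity
    apply mul_le_mul_of_nonneg_right _ this
    linarith
  set δ := ε / 2 with hδ
  have hδ0 : 0 < δ := by positivity
  have hδ1 : δ ≤ 1 / 2 := by linarith
  refine ⟨10000 / δ ^ 2, by positivity, ?_⟩
  intro n r h1 h2 hr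
  have hr' : (0 : ℝ) < r := by exact_mod_cast hr
  have hC : 10000 ≤ 10000 / δ ^ 2 := by
    rw [le_div_iff₀ (by positivity)]
    nlinarith
  have hC1 : 10000 / δ ≤ 10000 / δ ^ 2 := by
    apply div_le_div_of_nonneg_left (by norm_num) (by positivity)
    nlinarith
  set C := 10000 / δ ^ 2 with hCdef
  have hC0 : 0 < C := by linarith
  have hn0 : (0 : ℝ) < n := by
    by_contra hcon
    have hn0 : (n : ℝ) = 0 := le_antisymm (not_lt.mp hcon) (Nat.cast_nonneg n)
    rw [hn0] at h2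
    nlinarith
  have hnC : C ^ 2 ≤ n := by
    have : C * (C * n) ≤ (n : ℝ) ^ 2 := le_trans (by gcongr) h2
    have h3 : C ^ 2 * n ≤ n * n := by nlinarith
    exact le_of_mul_le_mul_right h3 hn0
  have hCd : 10000 ≤ C * δ := by
    have e5 : 10000 / δ ≤ C := hC1
    rwa [div_le_iff₀ hδ0] at e5
  have hnC' : C ≤ n := by
    have : C * 1 ≤ C * C := by gcongr; linarith
    nlinarith
  have hnd : 10000 ≤ δ * n := by
    calc 10000 ≤ C * δ := hCd
      _ ≤ n * δ := by gcongr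
      _ = δ * n := mul_comm _ _
  set lam := (n : ℝ) ^ 2 / (2 * r) with hlam
  have hlam_low : C / 2 ≤ lam := by
    rw [hlam, le_div_iff₀ (by positivity)]
    nlinarith
  have hlam_up : lam ≤ n / (2 * C) := by
    rw [hlam, div_le_div_iff₀ (by positivity) (by positivity)]
    nlinarith
  have hlam_pos : 0 < lam := by linarith
  have h4 : (1 - δ) * lam ≥ 3 := by nlinarith
  obtain ⟨h, hh, hK1, hK2⟩ := exists_odd (y := (1 - δ) * lam) h4
  obtain ⟨m₁, m₂, hm₁, hm₂, hgood⟩ := two_level h hh r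
  set K : ℕ := 2 * h + 1 with hKdef
  have hodd : Odd K := ⟨h, rfl⟩
  have hKpos : 0 < K := by omega
  have hKr : (1 : ℝ) ≤ K := by exact_mod_cast hKpos
  have hKlam : (K : ℝ) ≤ lam := by nlinarith
  have hKn : (K : ℝ) ≤ n / (2 * C) := hKlam.trans hlam_up
  have hKn' : (K : ℝ) ≤ n := by
    refine hKn.trans ?_
    rw [div_le_iff₀ (by positivity)]
    nlinarith
  -- first level
  have hb1 : (m₁ : ℝ) * K ≤ (1 - δ / 2) * n + 1 := by
    apply mK_le hKpos hodd
    · apply mul_nonneg _ hn0.le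
      linarith
    · have e1 : ((2 * tri K m₁ : ℕ) : ℝ) ≤ 2 * r := by exact_mod_cast hm₁
      have e3 : (1 - δ) ≤ (1 - δ / 2) ^ 2 := by nlinarith
      calc ((2 * tri K m₁ : ℕ) : ℝ) * K ≤ (2 * r) * ((1 - δ) * lam) := by gcongr
        _ = (1 - δ) * (n : ℝ) ^ 2 := by rw [hlam]; field_simp
        _ ≤ (1 - δ / 2) ^ 2 * (n : ℝ) ^ 2 := by gcongr
        _ = _ := by ring
  have hb1' : (m₁ : ℝ) * K ≤ n := by
    linarith
  -- second level
  have hb2 : (m₂ : ℝ) * K ≤ √(3 * n * K) + 1 := by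
    apply mK_le hKpos hodd (Real.sqrt_nonneg _)
    rw [Real.sq_sqrt (by positivity)]
    have e1 : ((2 * tri K m₂ : ℕ) : ℝ) ≤ (2 * m₁ + 1) * K := by exact_mod_cast hm₂
    have e2 : (2 * (m₁ : ℝ) + 1) * K ≤ 3 * n := by
      have : (2 * (m₁ : ℝ) + 1) * K = 2 * (m₁ * K) + K := by ring
      rw [this]
      linarith
    calc ((2 * tri K m₂ : ℕ) : ℝ) * K ≤ (3 * n) * K := by
          apply mul_le_mul_of_nonneg_right (e1.trans e2) (by positivity)
      _ = 3 * n * K := by ring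
  have hsq : √(3 * n * K) ≤ δ / 40 * n := by
    rw [Real.sqrt_le_left (by positivity)]
    have e1 : 3 * (n : ℝ) * K ≤ 3 * n * (n / (2 * C)) := by gcongr
    refine e1.trans ?_
    have e2 : n / (2 * C) = n * (δ ^ 2 / 20000) := by
      rw [hCdef]; field_simp; ring
    rw [e2]
    have e3 : (δ / 40 * (n : ℝ)) ^ 2 - 3 * n * (n * (δ ^ 2 / 20000)) =
        δ ^ 2 * (n : ℝ) ^ 2 * (19 / 40000) := by ring
    have e4 : 0 ≤ δ ^ 2 * (n : ℝ) ^ 2 * (19 / 40000) := by positivity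
    linarith
  have hKsmall : (K : ℝ) ≤ δ / 40 * n := by
    refine hKn.trans ?_
    have e2 : n / (2 * C) = n * (δ ^ 2 / 20000) := by
      rw [hCdef]; field_simp; ring
    rw [e2]
    have e3 : δ / 40 * (n : ℝ) - n * (δ ^ 2 / 20000) = n * δ * (1 / 40 - δ / 20000) := by ring
    have e4 : 0 ≤ n * δ * (1 / 40 - δ / 20000) := by
      apply mul_nonneg (by positivity)
      linarith
    linarith
  have hone : 1 ≤ δ / 40 * n := by linarith
  have hsize : (m₁ + 4 * m₂ + 3) * K ≤ n := by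
    have : (((m₁ + 4 * m₂ + 3) * K : ℕ) : ℝ) ≤ n := by
      push_cast
      have : ((m₁ : ℝ) + 4 * m₂ + 3) * K = m₁ * K + 4 * (m₂ * K) + 3 * K := by ring
      rw [this]
      linarith
    exact_mod_cast this
  have hM := (hgood.pad (by omega) hsize).le_M hr (by omega)
  have hM' : (K : ℝ) - 1 ≤ M r n := by
    have : ((K - 1 : ℕ) : ℝ) ≤ M r n := by exact_mod_cast hM
    rw [Nat.cast_sub (by omega)] at this
    simpa using this
  have hfin : 3 ≤ δ * lam := by
    calc (3 : ℝ) ≤ δ * (C / 2) := by linarith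
      _ ≤ δ * lam := by gcongr
  have : ε = 2 * δ := by rw [hδ]; ring
  rw [this]
  linarith

end Pool.Agent.Helper60.Gap
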