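import Mathlib

set_option autoImplicit false

namespace Pool.Agent.Helper60.Gap

open Finset

/-! ### A bounded differences inequality for uniformly random colourings -/

theorem sum_exp_le {q : ℕ} (x : Fin q → ℝ) {c : ℝ} (hc : 0 ≤ c) (hx : ∀ a, |x a| ≤ c)
    (h0 : ∑ a, x a = 0) (s : ℝ) :
    ∑ a, Real.exp (s * x a) ≤ q * Real.exp (s ^ 2 * c ^ 2 / 2) := by
  rcases hc.eq_or_lt with h | hc
  · have hx0 : ∀ a, x a = 0 := by
      intro a
      have := hx a
      rw [← h] at this
      exact abs_nonpos_iff.mp this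
    have e1 : ∑ a, Real.exp (s * x a) = ∑ _a : Fin q, (1 : ℝ) := by
      apply Finset.sum_congr rfl
      intro a _
      rw [hx0 a, mul_zero, Real.exp_zero]
    rw [e1, Finset.sum_const, Finset.card_univ, Fintype.card_fin, nsmul_eq_mul, ← h]
    simp
  · have key : ∀ a, Real.exp (s * x a) ≤
        (Real.exp (s * c) + Real.exp (-(s * c))) / 2 +
        x a * ((Real.exp (s * c) - Real.exp (-(s * c))) / (2 * c)) := by
      intro a
      obtain ⟨h1, h2⟩ := abs_le.mp (hx a)
      have ha : 0 ≤ (c + x a) / (2 * c) := div_nonneg (by linarith) (by linarith)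
      have hb : 0 ≤ (c - x a) / (2 * c) := div_nonneg (by linarith) (by linarith)
      have hab : (c + x a) / (2 * c) + (c - x a) / (2 * c) = 1 := by field_simp; ring
      have hconv := convexOn_exp.2 (Set.mem_univ (s * c)) (Set.mem_univ (-(s * c))) ha hb hab
      simp only [smul_eq_mul] at hconv
      have e1 : (c + x a) / (2 * c) * (s * c) + (c - x a) / (2 * c) * (-(s * c)) = s * x a := by
        field_simp
        ring
      rw [e1] at hconv
      refine hconv.trans (le_of_eq ?_)
      field_simp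
      ring
    calc ∑ a, Real.exp (s * x a)
        ≤ ∑ a, ((Real.exp (s * c) + Real.exp (-(s * c))) / 2 +
          x a * ((Real.exp (s * c) - Real.exp (-(s * c))) / (2 * c))) :=
          Finset.sum_le_sum (fun a _ => key a)
      _ = q * Real.cosh (s * c) := by
          rw [Finset.sum_add_distrib, ← Finset.sum_mul, h0, zero_mul, add_zero, Finset.sum_const,
            Finset.card_univ, Fintype.card_fin, nsmul_eq_mul, Real.cosh_eq]
      _ ≤ q * Real.exp ((s * c) ^ 2 / 2) := by
          gcongr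
          exact Real.cosh_le_exp_half_sq _
      _ = _ := by rw [mul_pow]

theorem mgf_bound {q : ℕ} (hq : 0 < q) : ∀ (n : ℕ) (F : (Fin n → Fin q) → ℝ) (c : Fin n → ℝ),
    (∀ i, 0 ≤ c i) →
    (∀ i ω ω', (∀ j, j ≠ i → ω j = ω' j) → |F ω - F ω'| ≤ c i) → ∀ s : ℝ,
    ∑ ω, Real.exp (s * (F ω - (∑ ω', F ω') / (q : ℝ) ^ n)) ≤
      (q : ℝ) ^ n * Real.exp (s ^ 2 * (∑ i, c i ^ 2) / 2) := by
  have hq' : (0 : ℝ) < q := by exact_mod_cast hq
  intro n
  induction n with
  | zero =>
    intro F c _ _ s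
    simp
  | succ n ih =>
    intro F c hc hF s
    have hsplit : ∀ G : (Fin (n + 1) → Fin q) → ℝ,
        ∑ ω, G ω = ∑ a : Fin q, ∑ ω' : Fin n → Fin q, G (Fin.cons a ω') := by
      intro G
      rw [← Fintype.sum_prod_type']
      exact (Fintype.sum_equiv (Fin.consEquiv (fun _ : Fin (n + 1) => Fin q)) _ _
        (fun p => rfl)).symm
    set m : Fin q → ℝ := fun a => (∑ ω', F (Fin.cons a ω')) / (q : ℝ) ^ n with hm
    set M := (∑ ω', F ω') / (q : ℝ) ^ (n + 1) with hM
    have hMm : M = (∑ a, m a) / q := by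
      rw [hM, hm, hsplit F, ← Finset.sum_div, pow_succ, div_div]
    have hIH : ∀ a, ∑ ω', Real.exp (s * (F (Fin.cons a ω') - m a)) ≤
        (q : ℝ) ^ n * Real.exp (s ^ 2 * (∑ i : Fin n, c i.succ ^ 2) / 2) := by
      intro a
      apply ih (fun ω' => F (Fin.cons a ω')) (fun i => c i.succ) (fun i => hc _)
      intro i ω ω' h
      apply hF i.succ
      intro j hj
      refine Fin.cases ?_ ?_ j (motive := fun j => j ≠ i.succ →
        (Fin.cons a ω : Fin (n + 1) → Fin q) j = (Fin.cons a ω' : Fin (n + 1) → Fin q) j) hj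
      · intro _
        rfl
      · intro k hk
        rw [Fin.cons_succ, Fin.cons_succ]
        exact h k (fun h => hk (by rw [h]))
    have hmm : ∀ a b, |m a - m b| ≤ c 0 := by
      intro a b
      have h1 : m a - m b = (∑ ω' : Fin n → Fin q, (F (Fin.cons a ω') - F (Fin.cons b ω'))) /
          (q : ℝ) ^ n := by
        rw [hm, Finset.sum_sub_distrib, sub_div]
      rw [h1, abs_div, abs_of_pos (pow_pos hq' n), div_le_iff₀ (pow_pos hq' n)]
      calc |∑ ω' : Fin n → Fin q, (F (Fin.cons a ω') - F (Fin.cons b ω'))|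
          ≤ ∑ ω' : Fin n → Fin q, |F (Fin.cons a ω') - F (Fin.cons b ω')| :=
            Finset.abs_sum_le_sum_abs _ _
        _ ≤ ∑ _ω' : Fin n → Fin q, c 0 := by
            apply Finset.sum_le_sum
            intro ω' _
            apply hF 0
            intro j hj
            refine Fin.cases ?_ ?_ j (motive := fun j => j ≠ 0 →
              (Fin.cons a ω' : Fin (n + 1) → Fin q) j = (Fin.cons b ω' : Fin (n + 1) → Fin q) j) hj
            · intro h; exact absurd rfl h
            · intro k _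
              rw [Fin.cons_succ, Fin.cons_succ]
        _ = c 0 * (q : ℝ) ^ n := by
            rw [Finset.sum_const, Finset.card_univ, Fintype.card_fun, Fintype.card_fin,
              Fintype.card_fin, nsmul_eq_mul]
            push_cast
            ring
    have hx : ∀ a, |m a - M| ≤ c 0 := by
      intro a
      have h1 : m a - M = (∑ b, (m a - m b)) / q := by
        rw [Finset.sum_sub_distrib, Finset.sum_const, Finset.card_univ, Fintype.card_fin,
          nsmul_eq_mul, hMm]
        field_simp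
      rw [h1, abs_div, abs_of_pos hq', div_le_iff₀ hq']
      calc |∑ b, (m a - m b)| ≤ ∑ b, |m a - m b| := Finset.abs_sum_le_sum_abs _ _
        _ ≤ ∑ _b : Fin q, c 0 := Finset.sum_le_sum (fun b _ => hmm a b)
        _ = c 0 * q := by
            rw [Finset.sum_const, Finset.card_univ, Fintype.card_fin, nsmul_eq_mul]; ring
    have hx0 : ∑ a, (m a - M) = 0 := by
      rw [Finset.sum_sub_distrib, Finset.sum_const, Finset.card_univ, Fintype.card_fin,
        nsmul_eq_mul, hMm]
      field_simp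
      ring
    have h2 := sum_exp_le (fun a => m a - M) (hc 0) hx hx0 s
    calc ∑ ω, Real.exp (s * (F ω - M))
        = ∑ a : Fin q, ∑ ω' : Fin n → Fin q, Real.exp (s * (F (Fin.cons a ω') - M)) := hsplit _
      _ = ∑ a : Fin q, Real.exp (s * (m a - M)) *
          ∑ ω' : Fin n → Fin q, Real.exp (s * (F (Fin.cons a ω') - m a)) := by
          apply Finset.sum_congr rfl
          intro a _
          rw [Finset.mul_sum]
          apply Finset.sum_congr rfl
          intro ω' _
          rw [← Real.exp_add]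
          congr 1
          ring
      _ ≤ ∑ a : Fin q, Real.exp (s * (m a - M)) *
          ((q : ℝ) ^ n * Real.exp (s ^ 2 * (∑ i : Fin n, c i.succ ^ 2) / 2)) := by
          apply Finset.sum_le_sum
          intro a _
          exact mul_le_mul_of_nonneg_left (hIH a) (Real.exp_pos _).le
      _ = (∑ a : Fin q, Real.exp (s * (m a - M))) *
          ((q : ℝ) ^ n * Real.exp (s ^ 2 * (∑ i : Fin n, c i.succ ^ 2) / 2)) := by
          rw [Finset.sum_mul]
      _ ≤ (q * Real.exp (s ^ 2 * c 0 ^ 2 / 2)) *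
          ((q : ℝ) ^ n * Real.exp (s ^ 2 * (∑ i : Fin n, c i.succ ^ 2) / 2)) := by
          apply mul_le_mul_of_nonneg_right h2
          positivity
      _ = (q : ℝ) ^ (n + 1) * Real.exp (s ^ 2 * (∑ i, c i ^ 2) / 2) := by
          rw [Fin.sum_univ_succ]
          have : s ^ 2 * (c 0 ^ 2 + ∑ i : Fin n, c i.succ ^ 2) / 2 =
              s ^ 2 * c 0 ^ 2 / 2 + s ^ 2 * (∑ i : Fin n, c i.succ ^ 2) / 2 := by ring
          rw [this, Real.exp_add]
          ring

/-- Upper tail. -/
theorem tail_bound {q : ℕ} (hq : 0 < q) {n : ℕ} (F : (Fin n → Fin q) → ℝ) (c : Fin n → ℝ)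
    (hc : ∀ i, 0 ≤ c i)
    (hF : ∀ i ω ω', (∀ j, j ≠ i → ω j = ω' j) → |F ω - F ω'| ≤ c i) {V lam : ℝ}
    (hV : ∑ i, c i ^ 2 ≤ V) (hV0 : 0 < V) (hlam : 0 ≤ lam) :
    ((Finset.univ.filter (fun ω => lam ≤ F ω - (∑ ω', F ω') / (q : ℝ) ^ n)).card : ℝ) ≤
      (q : ℝ) ^ n * Real.exp (-(lam ^ 2 / (2 * V))) := by
  set s := lam / V with hs
  have hs0 : 0 ≤ s := div_nonneg hlam hV0.le
  have h1 := mgf_bound hq n F c hc hF s
  have h2 : ((Finset.univ.filter (fun ω => lam ≤ F ω - (∑ ω', F ω') / (q : ℝ) ^ n)).card : ℝ) *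
      Real.exp (s * lam) ≤ ∑ ω, Real.exp (s * (F ω - (∑ ω', F ω') / (q : ℝ) ^ n)) := by
    set S := Finset.univ.filter (fun ω => lam ≤ F ω - (∑ ω', F ω') / (q : ℝ) ^ n) with hS
    have e1 : ∑ ω ∈ S, Real.exp (s * (F ω - (∑ ω', F ω') / (q : ℝ) ^ n)) ≤
        ∑ ω, Real.exp (s * (F ω - (∑ ω', F ω') / (q : ℝ) ^ n)) :=
      Finset.sum_le_sum_of_subset_of_nonneg (Finset.subset_univ S)
        (fun _ _ _ => (Real.exp_pos _).le)
    refine le_trans ?_ e1
    rw [← nsmul_eq_mul, ← Finset.sum_const]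
    apply Finset.sum_le_sum
    intro ω hω
    rw [hS, Finset.mem_filter] at hω
    apply Real.exp_le_exp.mpr
    exact mul_le_mul_of_nonneg_left hω.2 hs0
  have h3 : (q : ℝ) ^ n * Real.exp (s ^ 2 * (∑ i, c i ^ 2) / 2) ≤
      (q : ℝ) ^ n * Real.exp (s ^ 2 * V / 2) := by
    gcongr
  have h4 := h2.trans (h1.trans h3)
  rw [← le_div_iff₀ (Real.exp_pos _)] at h4
  refine h4.trans (le_of_eq ?_)
  rw [mul_div_assoc, ← Real.exp_sub]
  congr 2
  rw [hs]
  field_simp
  ring

end Pool.Agent.Helper60.Gap
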