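import Mathlib
import Pool.Agent.Helper60.Gap.McD
import Pool.Agent.Helper60.Gap.Rank

set_option autoImplicit false

namespace Pool.Agent.Helper60.Gap

open Finset Pool.Agent.Helper53.Generic

/-! ### Random subsets keep all multiplicities proportional -/

section
variable {n : ℕ} (x : Fin n → Plane) (d : ℝ)

/-- Ordered index pairs at distance `d`. -/
noncomputable def Ed : Finset (Fin n × Fin n) :=
  Finset.univ.filter (fun p => p.1 ≠ p.2 ∧ dist (x p.1) (x p.2) = d)

/-- Degree in the graph of pairs at distance `d`. -/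
noncomputable def dg (i : Fin n) : ℕ := ((Ed x d).filter (fun p => p.1 = i)).card

theorem Ed_swap {p : Fin n × Fin n} (h : p ∈ Ed x d) : (p.2, p.1) ∈ Ed x d := by
  unfold Ed at *
  rw [Finset.mem_filter] at *
  exact ⟨Finset.mem_univ _, h.2.1.symm, by rw [dist_comm]; exact h.2.2⟩

theorem dg_eq' (i : Fin n) : ((Ed x d).filter (fun p => p.2 = i)).card = dg x d i := by
  unfold dg
  apply Finset.card_bij (fun p _ => (p.2, p.1))
  · intro p hp
    rw [Finset.mem_filter] at hp ⊢
    exact ⟨Ed_swap x d hp.1, hp.2⟩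
  · rintro ⟨a, b⟩ _ ⟨a', b'⟩ _ h
    simp only [Prod.mk.injEq] at h ⊢
    exact ⟨h.2, h.1⟩
  · rintro ⟨a, b⟩ hp
    rw [Finset.mem_filter] at hp
    exact ⟨(b, a), by rw [Finset.mem_filter]; exact ⟨Ed_swap x d hp.1, hp.2⟩, rfl⟩

theorem sum_dg : ∑ i, dg x d i = (Ed x d).card := by
  unfold dg
  exact (Finset.card_eq_sum_card_fiberwise (f := fun p : Fin n × Fin n => p.1)
    (fun p _ => Finset.mem_coe.mpr (Finset.mem_univ p.1))).symm

theorem Ed_card_le : (Ed x d).card ≤ n * n := by
  refine (Finset.card_le_univ _).trans ?_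
  rw [Fintype.card_prod, Fintype.card_fin]

theorem circle_two (hx : Function.Injective x) {j k : Fin n} (hjk : j ≠ k) :
    (Finset.univ.filter (fun i => (i, j) ∈ Ed x d ∧ (i, k) ∈ Ed x d)).card ≤ 2 := by
  by_contra hcon
  push Not at hcon
  rw [Finset.two_lt_card] at hcon
  obtain ⟨a, ha, b, hb, c, hc, hab, hac, hbc⟩ := hcon
  have hfin : Module.finrank ℝ Plane = 2 := by simp
  have key : ∀ i, i ∈ Finset.univ.filter (fun i => (i, j) ∈ Ed x d ∧ (i, k) ∈ Ed x d) →
      dist (x i) (x j) = d ∧ dist (x i) (x k) = d := by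
    intro i hi
    rw [Finset.mem_filter] at hi
    unfold Ed at hi
    rw [Finset.mem_filter, Finset.mem_filter] at hi
    exact ⟨hi.2.1.2.2, hi.2.2.2.2⟩
  obtain ⟨a1, a2⟩ := key a ha
  obtain ⟨b1, b2⟩ := key b hb
  obtain ⟨c1, c2⟩ := key c hc
  rcases EuclideanGeometry.eq_of_dist_eq_of_dist_eq_of_finrank_eq_two hfin
    (fun h => hjk (hx h)) (fun h => hab (hx h)) a1 b1 c1 a2 b2 c2 with h | h
  · exact hac (hx h).symm
  · exact hbc (hx h).symm

theorem sum_dg_sq (hx : Function.Injective x) : ∑ i, dg x d i ^ 2 ≤ 3 * n ^ 2 := by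
  classical
  have h1 : ∀ i, dg x d i ^ 2 =
      ∑ p : Fin n × Fin n, if (i, p.1) ∈ Ed x d ∧ (i, p.2) ∈ Ed x d then 1 else 0 := by
    intro i
    have e1 : dg x d i = (Finset.univ.filter (fun j => (i, j) ∈ Ed x d)).card := by
      unfold dg
      apply Finset.card_bij (fun p _ => p.2)
      · rintro ⟨a, b⟩ hp
        rw [Finset.mem_filter] at hp
        rw [Finset.mem_filter]
        refine ⟨Finset.mem_univ _, ?_⟩
        have : a = i := hp.2
        rw [← this]
        exact hp.1
      · rintro ⟨a, b⟩ hp ⟨a', b'⟩ hp' h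
        rw [Finset.mem_filter] at hp hp'
        have e1 : a = i := hp.2
        have e2 : a' = i := hp'.2
        have e3 : b = b' := h
        rw [e1, e2, e3]
      · intro j hj
        rw [Finset.mem_filter] at hj
        exact ⟨(i, j), by rw [Finset.mem_filter]; exact ⟨hj.2, rfl⟩, rfl⟩
    rw [e1, pow_two, ← Finset.card_product, Finset.card_eq_sum_ones, ← Finset.sum_filter]
    apply Finset.sum_congr _ (fun _ _ => rfl)
    ext ⟨a, b⟩
    simp only [Finset.mem_product, Finset.mem_filter, Finset.mem_univ, true_and]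
  rw [Finset.sum_congr rfl (fun i _ => h1 i), Finset.sum_comm]
  have h2 : ∀ p : Fin n × Fin n,
      ∑ i, (if (i, p.1) ∈ Ed x d ∧ (i, p.2) ∈ Ed x d then 1 else 0) ≤
      2 + (if p.1 = p.2 then n else 0) := by
    intro p
    rw [← Finset.sum_filter, ← Finset.card_eq_sum_ones]
    by_cases hp : p.1 = p.2
    · rw [if_pos hp]
      refine (Finset.card_le_univ _).trans ?_
      rw [Fintype.card_fin]
      omega
    · rw [if_neg hp]
      exact circle_two x d hx hp
  calc ∑ p : Fin n × Fin n, ∑ i, (if (i, p.1) ∈ Ed x d ∧ (i, p.2) ∈ Ed x d then 1 else 0)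
      ≤ ∑ p : Fin n × Fin n, (2 + (if p.1 = p.2 then n else 0)) :=
        Finset.sum_le_sum (fun p _ => h2 p)
    _ = 3 * n ^ 2 := by
        rw [Finset.sum_add_distrib, Finset.sum_const, Finset.card_univ, Fintype.card_prod,
          Fintype.card_fin, Fintype.sum_prod_type]
        have : ∀ a : Fin n, ∑ b : Fin n, (if a = b then n else 0) = n := by
          intro a
          rw [Finset.sum_ite_eq]
          simp
        simp only [this]
        rw [Finset.sum_const, Finset.card_univ, Fintype.card_fin, smul_eq_mul, smul_eq_mul]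
        ring

/-- Number of pairs with both colours in `K`. -/
noncomputable def Fc {q : ℕ} (K : Finset (Fin q)) (ω : Fin n → Fin q) : ℕ :=
  ((Ed x d).filter (fun p => ω p.1 ∈ K ∧ ω p.2 ∈ K)).card

theorem card_both {q : ℕ} (K : Finset (Fin q)) {i j : Fin n} (hij : i ≠ j) :
    (Finset.univ.filter (fun ω : Fin n → Fin q => ω i ∈ K ∧ ω j ∈ K)).card * q ^ 2 =
      K.card ^ 2 * q ^ n := by
  classical
  have h1 : Finset.univ.filter (fun ω : Fin n → Fin q => ω i ∈ K ∧ ω j ∈ K) =
      Fintype.piFinset (fun k => if k = i ∨ k = j then K else Finset.univ) := by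
    ext ω
    rw [Finset.mem_filter, Fintype.mem_piFinset]
    constructor
    · rintro ⟨-, h1, h2⟩ k
      by_cases hk : k = i ∨ k = j
      · rw [if_pos hk]
        rcases hk with rfl | rfl
        · exact h1
        · exact h2
      · rw [if_neg hk]
        exact Finset.mem_univ _
    · intro h
      have h1 := h i
      have h2 := h j
      rw [if_pos (Or.inl rfl)] at h1
      rw [if_pos (Or.inr rfl)] at h2
      exact ⟨Finset.mem_univ _, h1, h2⟩
  rw [h1, Fintype.card_piFinset]
  have h2 : ∀ k : Fin n, (if k = i ∨ k = j then K else (Finset.univ : Finset (Fin q))).card =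
      if k = i ∨ k = j then K.card else q := by
    intro k
    split_ifs
    · rfl
    · rw [Finset.card_univ, Fintype.card_fin]
  rw [Finset.prod_congr rfl (fun k _ => h2 k), Finset.prod_ite, Finset.prod_const,
    Finset.prod_const]
  have h3 : Finset.univ.filter (fun k : Fin n => k = i ∨ k = j) = {i, j} := by
    ext k
    simp only [Finset.mem_filter, Finset.mem_univ, true_and, Finset.mem_insert,
      Finset.mem_singleton]
  have h4 : (Finset.univ.filter (fun k : Fin n => k = i ∨ k = j)).card = 2 := by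
    rw [h3, Finset.card_pair hij]
  have h5 := Finset.card_filter_add_card_filter_not (s := (Finset.univ : Finset (Fin n)))
    (fun k => k = i ∨ k = j)
  rw [h4, Finset.card_univ, Fintype.card_fin] at h5
  rw [h4, mul_assoc, ← pow_add, add_comm _ 2, h5]

theorem mean_Fc {q : ℕ} (hq : 0 < q) (K : Finset (Fin q)) :
    (∑ ω : Fin n → Fin q, (Fc x d K ω : ℝ)) / (q : ℝ) ^ n =
      ((K.card : ℝ) / q) ^ 2 * (Ed x d).card := by
  classical
  have hq' : (q : ℝ) ≠ 0 := by exact_mod_cast hq.ne'
  have h1 : ∑ ω : Fin n → Fin q, Fc x d K ω =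
      ∑ p ∈ Ed x d, (Finset.univ.filter
        (fun ω : Fin n → Fin q => ω p.1 ∈ K ∧ ω p.2 ∈ K)).card := by
    unfold Fc
    simp_rw [Finset.card_filter]
    rw [Finset.sum_comm]
  have h2 : (∑ ω : Fin n → Fin q, Fc x d K ω) * q ^ 2 = (Ed x d).card * (K.card ^ 2 * q ^ n) := by
    rw [h1, Finset.sum_mul, Finset.card_eq_sum_ones, Finset.sum_mul]
    apply Finset.sum_congr rfl
    intro p hp
    rw [one_mul]
    apply card_both
    unfold Ed at hp
    exact (Finset.mem_filter.mp hp).2.1
  have h3 : (∑ ω : Fin n → Fin q, (Fc x d K ω : ℝ)) * (q : ℝ) ^ 2 =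
      (Ed x d).card * ((K.card : ℝ) ^ 2 * (q : ℝ) ^ n) := by exact_mod_cast h2
  rw [div_eq_iff (pow_ne_zero _ hq')]
  have hq2 : (q : ℝ) ^ 2 ≠ 0 := pow_ne_zero _ hq'
  apply mul_right_cancel₀ hq2
  rw [h3]
  field_simp

theorem diff_Fc {q : ℕ} (K : Finset (Fin q)) (i : Fin n) (ω ω' : Fin n → Fin q)
    (h : ∀ j, j ≠ i → ω j = ω' j) : |(Fc x d K ω : ℝ) - Fc x d K ω'| ≤ 2 * dg x d i := by
  classical
  have key : ∀ ω ω' : Fin n → Fin q, (∀ j, j ≠ i → ω j = ω' j) →
      (Fc x d K ω : ℝ) ≤ Fc x d K ω' + 2 * dg x d i := by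
    intro ω ω' h
    have h1 : Fc x d K ω ≤ Fc x d K ω' + (dg x d i + dg x d i) := by
      have hsub : (Ed x d).filter (fun p => ω p.1 ∈ K ∧ ω p.2 ∈ K) ⊆
          (Ed x d).filter (fun p => ω' p.1 ∈ K ∧ ω' p.2 ∈ K) ∪
          ((Ed x d).filter (fun p => p.1 = i) ∪ (Ed x d).filter (fun p => p.2 = i)) := by
        intro p hp
        rw [Finset.mem_filter] at hp
        rw [Finset.mem_union, Finset.mem_union, Finset.mem_filter, Finset.mem_filter,
          Finset.mem_filter]
        by_cases h1 : p.1 = i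
        · exact Or.inr (Or.inl ⟨hp.1, h1⟩)
        · by_cases h2 : p.2 = i
          · exact Or.inr (Or.inr ⟨hp.1, h2⟩)
          · left
            rw [← h _ h1, ← h _ h2]
            exact hp
      have h2 := (Finset.card_le_card hsub).trans ((Finset.card_union_le _ _).trans
        (Nat.add_le_add_left (Finset.card_union_le _ _) _))
      rw [dg_eq'] at h2
      exact h2
    have : (Fc x d K ω : ℝ) ≤ ((Fc x d K ω' + (dg x d i + dg x d i) : ℕ) : ℝ) := by
      exact_mod_cast h1
    push_cast at this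
    linarith
  rw [abs_le]
  constructor
  · have := key ω' ω (fun j hj => (h j hj).symm)
    linarith
  · have := key ω ω' h
    linarith

theorem tail_Fc (hx : Function.Injective x) (hn : 0 < n) {q : ℕ} (hq : 0 < q)
    (K : Finset (Fin q)) {lam : ℝ} (hlam : 0 ≤ lam) :
    ((Finset.univ.filter (fun ω : Fin n → Fin q =>
      lam ≤ |(Fc x d K ω : ℝ) - ((K.card : ℝ) / q) ^ 2 * (Ed x d).card|)).card : ℝ) ≤
      2 * ((q : ℝ) ^ n * Real.exp (-(lam ^ 2 / (24 * n ^ 2)))) := by
  classical
  have hn' : (0 : ℝ) < n := by exact_mod_cast hn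
  have hV : ∑ i : Fin n, (2 * (dg x d i : ℝ)) ^ 2 ≤ 12 * (n : ℝ) ^ 2 := by
    have h1 : ((∑ i : Fin n, dg x d i ^ 2 : ℕ) : ℝ) ≤ ((3 * n ^ 2 : ℕ) : ℝ) := by
      exact_mod_cast sum_dg_sq x d hx
    push_cast at h1
    calc ∑ i : Fin n, (2 * (dg x d i : ℝ)) ^ 2 = 4 * ∑ i : Fin n, (dg x d i : ℝ) ^ 2 := by
          rw [Finset.mul_sum]
          apply Finset.sum_congr rfl
          intro i _
          ring
      _ ≤ 4 * (3 * (n : ℝ) ^ 2) := by gcongr
      _ = _ := by ring
  have hV0 : (0 : ℝ) < 12 * (n : ℝ) ^ 2 := by positivity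
  have hup := tail_bound hq (fun ω => (Fc x d K ω : ℝ)) (fun i => 2 * (dg x d i : ℝ))
    (fun i => by positivity) (fun i ω ω' h => diff_Fc x d K i ω ω' h) hV hV0 hlam
  have hdown := tail_bound hq (fun ω => -(Fc x d K ω : ℝ)) (fun i => 2 * (dg x d i : ℝ))
    (fun i => by positivity) (fun i ω ω' h => by
      have := diff_Fc x d K i ω ω' h
      rw [neg_sub_neg, abs_sub_comm]
      exact this) hV hV0 hlam
  rw [mean_Fc x d hq K] at hup
  have hneg : (∑ ω : Fin n → Fin q, -(Fc x d K ω : ℝ)) / (q : ℝ) ^ n =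
      -(((K.card : ℝ) / q) ^ 2 * (Ed x d).card) := by
    rw [Finset.sum_neg_distrib, neg_div, mean_Fc x d hq K]
  rw [hneg] at hdown
  have hexp : lam ^ 2 / (2 * (12 * (n : ℝ) ^ 2)) = lam ^ 2 / (24 * (n : ℝ) ^ 2) := by ring
  rw [hexp] at hup hdown
  have hsub : (Finset.univ.filter (fun ω : Fin n → Fin q =>
      lam ≤ |(Fc x d K ω : ℝ) - ((K.card : ℝ) / q) ^ 2 * (Ed x d).card|)) ⊆
      (Finset.univ.filter (fun ω : Fin n → Fin q =>
        lam ≤ (Fc x d K ω : ℝ) - ((K.card : ℝ) / q) ^ 2 * (Ed x d).card)) ∪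
      (Finset.univ.filter (fun ω : Fin n → Fin q =>
        lam ≤ -(Fc x d K ω : ℝ) - -(((K.card : ℝ) / q) ^ 2 * (Ed x d).card))) := by
    intro ω hω
    rw [Finset.mem_filter] at hω
    rw [Finset.mem_union, Finset.mem_filter, Finset.mem_filter]
    rcases le_abs.mp hω.2 with h | h
    · left; exact ⟨Finset.mem_univ _, h⟩
    · right; exact ⟨Finset.mem_univ _, by linarith⟩
  have h2 := (Finset.card_le_card hsub).trans (Finset.card_union_le _ _)
  calc ((Finset.univ.filter (fun ω : Fin n → Fin q =>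
      lam ≤ |(Fc x d K ω : ℝ) - ((K.card : ℝ) / q) ^ 2 * (Ed x d).card|)).card : ℝ)
      ≤ (((Finset.univ.filter (fun ω : Fin n → Fin q =>
        lam ≤ (Fc x d K ω : ℝ) - ((K.card : ℝ) / q) ^ 2 * (Ed x d).card)).card +
        (Finset.univ.filter (fun ω : Fin n → Fin q =>
        lam ≤ -(Fc x d K ω : ℝ) - -(((K.card : ℝ) / q) ^ 2 * (Ed x d).card))).card : ℕ) : ℝ) := by
          exact_mod_cast h2
    _ ≤ _ := by
        push_cast
        linarith

end

/-- Index pairs versus point pairs. -/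
theorem card_Ed {n : ℕ} (x : Fin n → Plane) (hx : Function.Injective x) (d : ℝ)
    (I : Finset (Fin n)) [DecidableEq Plane] :
    P (I.image x) d = ((Ed x d).filter (fun p => p.1 ∈ I ∧ p.2 ∈ I)).card := by
  unfold P
  symm
  apply Finset.card_bij (fun p _ => (x p.1, x p.2))
  · intro p hp
    unfold Ed at hp
    rw [Finset.mem_filter, Finset.mem_filter] at hp
    rw [Finset.mem_filter, Finset.mem_offDiag]
    exact ⟨⟨Finset.mem_image_of_mem _ hp.2.1, Finset.mem_image_of_mem _ hp.2.2,
      fun h => hp.1.2.1 (hx h)⟩, hp.1.2.2⟩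
  · rintro ⟨a, b⟩ _ ⟨a', b'⟩ _ h
    simp only [Prod.mk.injEq] at h ⊢
    exact ⟨hx h.1, hx h.2⟩
  · rintro ⟨y, z⟩ hq
    rw [Finset.mem_filter, Finset.mem_offDiag] at hq
    obtain ⟨⟨hy, hz, hne⟩, hd⟩ := hq
    simp only at hy hz hne hd
    rw [Finset.mem_image] at hy hz
    obtain ⟨a, ha, rfl⟩ := hy
    obtain ⟨b, hb, rfl⟩ := hz
    refine ⟨(a, b), ?_, rfl⟩
    unfold Ed
    rw [Finset.mem_filter, Finset.mem_filter]
    exact ⟨⟨Finset.mem_univ _, fun h => hne (congrArg x h), hd⟩, ha, hb⟩

/-- Disjoint subsets of prescribed densities in which all multiplicities are proportional up to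
an additive error `lam`. -/
theorem exists_colouring {ι : Type} [Fintype ι] [DecidableEq ι] (A : Finset Plane)
    (hA : 0 < A.card) {q : ℕ}
    (hq : 0 < q) (K : ι → Finset (Fin q)) (hK : ∀ i j, i ≠ j → Disjoint (K i) (K j)) {lam : ℝ}
    (hlam : 0 < lam)
    (hbig : 2 * (Fintype.card ι : ℝ) * (A.card : ℝ) ^ 2 *
      Real.exp (-(lam ^ 2 / (24 * (A.card : ℝ) ^ 2))) < 1) :
    ∃ B : ι → Finset Plane, (∀ i, B i ⊆ A) ∧ ∑ i, (B i).card ≤ A.card ∧
      ∀ i d, |(P (B i) d : ℝ) - (((K i).card : ℝ) / q) ^ 2 * P A d| < lam := by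
  classical
  set n := A.card with hn
  set x : Fin n → Plane := fun i => (A.equivFin.symm i : Plane) with hx
  have hxinj : Function.Injective x := by
    intro i j h
    exact A.equivFin.symm.injective (Subtype.ext h)
  have hximg : (Finset.univ : Finset (Fin n)).image x = A := by
    ext y
    rw [Finset.mem_image]
    constructor
    · rintro ⟨i, -, rfl⟩
      exact (A.equivFin.symm i).2
    · intro hy
      exact ⟨A.equivFin ⟨y, hy⟩, Finset.mem_univ _, by rw [hx]; simp⟩
  have hEd : ∀ d, (Ed x d).card = P A d := by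
    intro d
    rw [← hximg, card_Ed x hxinj d Finset.univ]
    congr 1
    ext p
    simp
  -- the bad colourings
  have hq' : (0 : ℝ) < q := by exact_mod_cast hq
  have hdcard : (distances A).card ≤ n ^ 2 := by
    unfold distances
    refine Finset.card_image_le.trans ?_
    rw [Finset.offDiag_card, pow_two]
    exact Nat.sub_le _ _
  set bad : ι × ℝ → Finset (Fin n → Fin q) := fun p => Finset.univ.filter (fun ω =>
    lam ≤ |(Fc x p.2 (K p.1) ω : ℝ) - (((K p.1).card : ℝ) / q) ^ 2 * (Ed x p.2).card|) with hbad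
  have hcard : ((((Finset.univ : Finset ι) ×ˢ distances A).biUnion bad).card : ℝ) <
      (q : ℝ) ^ n := by
    have h1 : ((((Finset.univ : Finset ι) ×ˢ distances A).biUnion bad).card : ℝ) ≤
        ∑ p ∈ (Finset.univ : Finset ι) ×ˢ distances A, ((bad p).card : ℝ) := by
      exact_mod_cast Finset.card_biUnion_le
    refine h1.trans_lt ?_
    calc ∑ p ∈ (Finset.univ : Finset ι) ×ˢ distances A, ((bad p).card : ℝ)
        ≤ ∑ _p ∈ (Finset.univ : Finset ι) ×ˢ distances A,
          2 * ((q : ℝ) ^ n * Real.exp (-(lam ^ 2 / (24 * n ^ 2)))) := by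
          apply Finset.sum_le_sum
          intro p _
          exact tail_Fc x p.2 hxinj hA hq (K p.1) hlam.le
      _ = ((Fintype.card ι : ℝ) * (distances A).card) *
          (2 * ((q : ℝ) ^ n * Real.exp (-(lam ^ 2 / (24 * n ^ 2))))) := by
          rw [Finset.sum_const, Finset.card_product, Finset.card_univ, nsmul_eq_mul]
          push_cast
          ring
      _ ≤ ((Fintype.card ι : ℝ) * (n : ℝ) ^ 2) *
          (2 * ((q : ℝ) ^ n * Real.exp (-(lam ^ 2 / (24 * n ^ 2))))) := by
          apply mul_le_mul_of_nonneg_right _ (by positivity)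
          apply mul_le_mul_of_nonneg_left _ (by positivity)
          exact_mod_cast hdcard
      _ = (2 * (Fintype.card ι : ℝ) * (n : ℝ) ^ 2 *
          Real.exp (-(lam ^ 2 / (24 * (n : ℝ) ^ 2)))) * (q : ℝ) ^ n := by ring
      _ < 1 * (q : ℝ) ^ n := by
          apply mul_lt_mul_of_pos_right hbig (pow_pos hq' n)
      _ = (q : ℝ) ^ n := one_mul _
  have hex : ∃ ω : Fin n → Fin q,
      ω ∉ ((Finset.univ : Finset ι) ×ˢ distances A).biUnion bad := by
    by_contra hcon
    push Not at hcon
    have : (Finset.univ : Finset (Fin n → Fin q)) ⊆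
        ((Finset.univ : Finset ι) ×ˢ distances A).biUnion bad := fun ω _ => hcon ω
    have h2 := Finset.card_le_card this
    rw [Finset.card_univ, Fintype.card_fun, Fintype.card_fin, Fintype.card_fin] at h2
    have h3 : ((q ^ n : ℕ) : ℝ) ≤
        ((((Finset.univ : Finset ι) ×ˢ distances A).biUnion bad).card : ℝ) := by
      exact_mod_cast h2
    push_cast at h3
    linarith
  obtain ⟨ω, hω⟩ := hex
  refine ⟨fun i => (Finset.univ.filter (fun k => ω k ∈ K i)).image x, ?_, ?_, ?_⟩
  · intro i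
    rw [← hximg]
    exact Finset.image_subset_image (Finset.subset_univ _)
  · have h1 : ∀ i, ((Finset.univ.filter (fun k => ω k ∈ K i)).image x).card =
        (Finset.univ.filter (fun k => ω k ∈ K i)).card :=
      fun i => Finset.card_image_of_injective _ hxinj
    rw [Finset.sum_congr rfl (fun i _ => h1 i)]
    rw [← Finset.card_biUnion]
    · refine (Finset.card_le_univ _).trans ?_
      rw [Fintype.card_fin]
    · intro i _ j _ hij
      rw [Function.onFun, Finset.disjoint_left]
      intro k hk hk'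
      rw [Finset.mem_filter] at hk hk'
      exact Finset.disjoint_left.mp (hK i j hij) hk.2 hk'.2
  · intro i d
    have h1 : P ((Finset.univ.filter (fun k => ω k ∈ K i)).image x) d = Fc x d (K i) ω := by
      rw [card_Ed x hxinj]
      unfold Fc
      congr 1
      ext p
      simp only [Finset.mem_filter, Finset.mem_univ, true_and]
    rw [h1]
    by_cases hd : d ∈ distances A
    · have h2 : ω ∉ bad (i, d) := by
        intro h
        apply hω
        rw [Finset.mem_biUnion]
        exact ⟨(i, d), Finset.mem_product.mpr ⟨Finset.mem_univ _, hd⟩, h⟩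
      rw [hbad, Finset.mem_filter, not_and] at h2
      have h3 := h2 (Finset.mem_univ _)
      rw [not_le, hEd] at h3
      exact h3
    · rw [mem_distances, not_not] at hd
      have h2 : Fc x d (K i) ω = 0 := by
        have : Fc x d (K i) ω ≤ (Ed x d).card := Finset.card_filter_le _ _
        rw [hEd, hd] at this
        omega
      rw [h2, hd]
      simpa using hlam

end Pool.Agent.Helper60.Gap
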