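import Mathlib

set_option autoImplicit false

namespace Pool.Agent.Helper60.Gap

open Finset

/-! ### The autocorrelation inequality on the ordered group of distances -/

theorem autocorr (S : Finset ℝ) (hS : S.Nonempty) (hpos : ∀ y ∈ S, 0 < y) (G : ℝ → ℝ) {γ : ℝ}
    (hγ : 0 ≤ γ) (hG : ∀ y ∈ S, γ ≤ G y) (hG0 : ∀ y, y ∉ S → G y = 0) {t : ℝ} (ht : 0 < t)
    (ht1 : t ≠ 1) : ∑ y ∈ S, G y * G (y * t) ≤ ∑ y ∈ S, G y ^ 2 - γ ^ 2 := by
  classical
  obtain ⟨y₀, hy₀, hy₀t, z₀, hz₀, hz₀t⟩ : ∃ y₀ ∈ S, y₀ * t ∉ S ∧ ∃ z₀ ∈ S, ∀ y ∈ S, y * t ≠ z₀ := by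
    rcases lt_or_gt_of_ne ht1 with h | h
    · refine ⟨S.min' hS, S.min'_mem hS, ?_, S.max' hS, S.max'_mem hS, ?_⟩
      · intro hmem
        have h1 := S.min'_le _ hmem
        have h2 := hpos _ (S.min'_mem hS)
        nlinarith
      · intro y hy he
        have h1 := S.le_max' y hy
        have h2 := hpos _ hy
        rw [← he] at h1
        nlinarith
    · refine ⟨S.max' hS, S.max'_mem hS, ?_, S.min' hS, S.min'_mem hS, ?_⟩
      · intro hmem
        have h1 := S.le_max' _ hmem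
        have h2 := hpos _ (S.max'_mem hS)
        nlinarith
      · intro y hy he
        have h1 := S.min'_le y hy
        have h2 := hpos _ hy
        rw [← he] at h1
        nlinarith
  have h1 : ∑ y ∈ S, G y * G (y * t) = ∑ y ∈ S.erase y₀, G y * G (y * t) := by
    rw [← Finset.add_sum_erase S _ hy₀, hG0 _ hy₀t, mul_zero, zero_add]
  have h2 : ∑ y ∈ S.erase y₀, G y * G (y * t) ≤
      ∑ y ∈ S.erase y₀, (G y ^ 2 + G (y * t) ^ 2) / 2 := by
    apply Finset.sum_le_sum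
    intro y _
    nlinarith [sq_nonneg (G y - G (y * t))]
  have h3 : ∑ y ∈ S.erase y₀, G y ^ 2 ≤ ∑ y ∈ S, G y ^ 2 - γ ^ 2 := by
    rw [← Finset.add_sum_erase S _ hy₀]
    have := pow_le_pow_left₀ hγ (hG y₀ hy₀) 2
    linarith
  have h4 : ∑ y ∈ S.erase y₀, G (y * t) ^ 2 ≤ ∑ y ∈ S, G y ^ 2 - γ ^ 2 := by
    have e1 : ∑ y ∈ S.erase y₀, G (y * t) ^ 2 ≤ ∑ y ∈ S, G (y * t) ^ 2 :=
      Finset.sum_le_sum_of_subset_of_nonneg (Finset.erase_subset _ _) (fun _ _ _ => sq_nonneg _)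
    have e2 : ∑ y ∈ S, G (y * t) ^ 2 = ∑ z ∈ S.image (fun y => y * t), G z ^ 2 := by
      rw [Finset.sum_image]
      intro a _ b _ hab
      exact mul_right_cancel₀ ht.ne' hab
    have e3 : ∑ z ∈ S.image (fun y => y * t), G z ^ 2 =
        ∑ z ∈ (S.image (fun y => y * t)).filter (fun z => z ∈ S), G z ^ 2 := by
      rw [Finset.sum_filter]
      apply Finset.sum_congr rfl
      intro z _
      split_ifs with hz
      · rfl
      · rw [hG0 z hz]; norm_num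
    have e4 : (S.image (fun y => y * t)).filter (fun z => z ∈ S) ⊆ S.erase z₀ := by
      intro z hz
      rw [Finset.mem_filter, Finset.mem_image] at hz
      obtain ⟨⟨y, hy, rfl⟩, hzS⟩ := hz
      exact Finset.mem_erase.mpr ⟨hz₀t y hy, hzS⟩
    have e5 : ∑ z ∈ (S.image (fun y => y * t)).filter (fun z => z ∈ S), G z ^ 2 ≤
        ∑ z ∈ S.erase z₀, G z ^ 2 :=
      Finset.sum_le_sum_of_subset_of_nonneg e4 (fun _ _ _ => sq_nonneg _)
    have e6 : ∑ z ∈ S.erase z₀, G z ^ 2 ≤ ∑ y ∈ S, G y ^ 2 - γ ^ 2 := by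
      rw [← Finset.add_sum_erase S _ hz₀]
      have := pow_le_pow_left₀ hγ (hG z₀ hz₀) 2
      linarith
    linarith
  have h5 : ∑ y ∈ S.erase y₀, (G y ^ 2 + G (y * t) ^ 2) / 2 =
      (∑ y ∈ S.erase y₀, G y ^ 2 + ∑ y ∈ S.erase y₀, G (y * t) ^ 2) / 2 := by
    rw [← Finset.sum_div, Finset.sum_add_distrib]
  rw [h1]
  linarith

/-- Integer weights realising a constant fraction of the gap. -/
theorem exists_weights (S : Finset ℝ) (hS : S.Nonempty) (hpos : ∀ y ∈ S, 0 < y) (G : ℝ → ℝ)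
    {γ : ℝ} (hγ : 0 < γ) (hG : ∀ y ∈ S, γ ≤ G y) (hGu : ∀ y ∈ S, G y ≤ S.card * γ)
    (hG0 : ∀ y, y ∉ S → G y = 0) :
    ∃ k : ℝ → ℕ, 0 < ∑ y ∈ S, k y ∧ ∀ t : ℝ, 0 < t → t ≠ 1 →
      γ / (2 * (S.card : ℝ) ^ 3) ≤
        ∑ y ∈ S, ((k y : ℝ) / ((∑ y ∈ S, k y : ℕ) : ℝ)) ^ 2 * (G y - G (y * t)) := by
  classical
  set j : ℝ := (S.card : ℝ) with hj
  have hj1 : 1 ≤ j := by
    rw [hj]
    exact_mod_cast Finset.card_pos.mpr hS
  set s : ℝ := 6 * j ^ 3 with hs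
  have hs1 : 6 ≤ s := by
    have : 1 ≤ j ^ 3 := one_le_pow₀ hj1
    linarith
  set u : ℝ → ℝ := fun y => s * √(G y / γ) with hu
  set k : ℝ → ℕ := fun y => ⌊u y⌋₊ with hk
  have hGγ : ∀ y ∈ S, 1 ≤ G y / γ ∧ G y / γ ≤ j := by
    intro y hy
    constructor
    · rw [le_div_iff₀ hγ, one_mul]; exact hG y hy
    · rw [div_le_iff₀ hγ]; exact hGu y hy
  have hu0 : ∀ y, 0 ≤ u y := fun y => by positivity
  have husq : ∀ y ∈ S, u y ^ 2 = s ^ 2 * (G y / γ) := by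
    intro y hy
    rw [hu]
    simp only
    rw [mul_pow, Real.sq_sqrt (by linarith [(hGγ y hy).1])]
  have hus : ∀ y ∈ S, s ≤ u y ∧ u y ≤ s * j := by
    intro y hy
    obtain ⟨h1, h2⟩ := hGγ y hy
    have e1 : 1 ≤ √(G y / γ) := by
      rw [Real.one_le_sqrt]; exact h1
    have e2 : √(G y / γ) ≤ j := by
      rw [Real.sqrt_le_left (by linarith)]
      nlinarith
    constructor
    · calc s = s * 1 := (mul_one s).symm
        _ ≤ u y := by rw [hu]; simp only; gcongr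
    · rw [hu]; simp only; gcongr
  have hk1 : ∀ y, (k y : ℝ) ≤ u y := fun y => Nat.floor_le (hu0 y)
  have hk2 : ∀ y, u y < k y + 1 := fun y => Nat.lt_floor_add_one (u y)
  -- θ = u² - k²
  have hθ : ∀ y ∈ S, 0 ≤ u y ^ 2 - (k y : ℝ) ^ 2 ∧ u y ^ 2 - (k y : ℝ) ^ 2 ≤ 2 * s * j := by
    intro y hy
    have h1 := hk1 y
    have h2 := hk2 y
    have h3 : (0 : ℝ) ≤ k y := Nat.cast_nonneg _
    obtain ⟨h4, h5⟩ := hus y hy
    constructor
    · nlinarith
    · have e1 : u y ^ 2 - (k y : ℝ) ^ 2 = (u y - k y) * (u y + k y) := by ring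
      rw [e1]
      calc (u y - k y) * (u y + k y) ≤ 1 * (u y + u y) := by
            apply mul_le_mul (by linarith) (by linarith) (by linarith) (by norm_num)
        _ ≤ 2 * s * j := by linarith
  set q : ℕ := ∑ y ∈ S, k y with hq
  have hq0 : 0 < q := by
    obtain ⟨y, hy⟩ := hS
    have h1 : 1 ≤ k y := by
      rw [hk]
      simp only
      apply Nat.le_floor
      push_cast
      linarith [(hus y hy).1]
    have h2 : k y ≤ q := Finset.single_le_sum (fun _ _ => Nat.zero_le _) hy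
    omega
  refine ⟨k, hq0, ?_⟩
  intro t ht ht1
  have hq0' : (0 : ℝ) < q := by exact_mod_cast hq0
  -- q² ≤ s² j³
  have hq2 : (q : ℝ) ^ 2 ≤ s ^ 2 * j ^ 3 := by
    have h1 : (q : ℝ) ^ 2 ≤ j * ∑ y ∈ S, (k y : ℝ) ^ 2 := by
      rw [hq]
      push_cast
      exact sq_sum_le_card_mul_sum_sq
    have h2 : ∑ y ∈ S, (k y : ℝ) ^ 2 ≤ ∑ _y ∈ S, s ^ 2 * j := by
      apply Finset.sum_le_sum
      intro y hy
      have h3 := (hθ y hy).1
      have h4 := husq y hy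
      have h5 := (hGγ y hy).2
      have h6 : s ^ 2 * (G y / γ) ≤ s ^ 2 * j := by gcongr
      linarith
    rw [Finset.sum_const, nsmul_eq_mul, ← hj] at h2
    calc (q : ℝ) ^ 2 ≤ j * ∑ y ∈ S, (k y : ℝ) ^ 2 := h1
      _ ≤ j * (j * (s ^ 2 * j)) := by gcongr
      _ = s ^ 2 * j ^ 3 := by ring
  -- main estimate
  have hAC := autocorr S hS hpos G hγ.le hG hG0 ht ht1
  have hGabs : ∀ y ∈ S, |G y - G (y * t)| ≤ j * γ := by
    intro y hy
    have h1 := hG y hy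
    have h2 := hGu y hy
    by_cases hyt : y * t ∈ S
    · have h3 := hG _ hyt
      have h4 := hGu _ hyt
      rw [abs_le]
      constructor <;> linarith
    · rw [hG0 _ hyt, sub_zero, abs_of_nonneg (by linarith)]
      exact h2
  have hmain : s ^ 2 * γ / 2 ≤ ∑ y ∈ S, (k y : ℝ) ^ 2 * (G y - G (y * t)) := by
    have e1 : ∀ y ∈ S, (s ^ 2 / γ) * (G y * (G y - G (y * t))) - (2 * s * j) * (j * γ) ≤
        (k y : ℝ) ^ 2 * (G y - G (y * t)) := by
      intro y hy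
      obtain ⟨h1, h2⟩ := hθ y hy
      have h3 := husq y hy
      have h4 := hGabs y hy
      have e2 : (k y : ℝ) ^ 2 * (G y - G (y * t)) =
          (s ^ 2 / γ) * (G y * (G y - G (y * t))) -
          (u y ^ 2 - (k y : ℝ) ^ 2) * (G y - G (y * t)) := by
        rw [h3]; field_simp; ring
      rw [e2]
      have e3 : (u y ^ 2 - (k y : ℝ) ^ 2) * (G y - G (y * t)) ≤ (2 * s * j) * (j * γ) := by
        calc (u y ^ 2 - (k y : ℝ) ^ 2) * (G y - G (y * t))
            ≤ (u y ^ 2 - (k y : ℝ) ^ 2) * |G y - G (y * t)| := by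
              apply mul_le_mul_of_nonneg_left (le_abs_self _) h1
          _ ≤ (2 * s * j) * (j * γ) := by
              apply mul_le_mul h2 h4 (abs_nonneg _) (by positivity)
      linarith
    have e4 := Finset.sum_le_sum e1
    rw [Finset.sum_sub_distrib, ← Finset.mul_sum, Finset.sum_const, nsmul_eq_mul, ← hj] at e4
    have e5 : ∑ y ∈ S, G y * (G y - G (y * t)) = ∑ y ∈ S, G y ^ 2 - ∑ y ∈ S, G y * G (y * t) := by
      rw [← Finset.sum_sub_distrib]
      apply Finset.sum_congr rfl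
      intro y _
      ring
    have e6 : γ ^ 2 ≤ ∑ y ∈ S, G y * (G y - G (y * t)) := by rw [e5]; linarith
    have e7 : (s ^ 2 / γ) * γ ^ 2 ≤ (s ^ 2 / γ) * ∑ y ∈ S, G y * (G y - G (y * t)) := by
      gcongr
    have e8 : (s ^ 2 / γ) * γ ^ 2 = s ^ 2 * γ := by field_simp
    have e9 : j * ((2 * s * j) * (j * γ)) = s ^ 2 * γ / 3 := by
      rw [hs]; ring
    have e10 : 0 ≤ s ^ 2 * γ := by positivity
    linarith
  have hfin : ∑ y ∈ S, ((k y : ℝ) / (q : ℝ)) ^ 2 * (G y - G (y * t)) =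
      (∑ y ∈ S, (k y : ℝ) ^ 2 * (G y - G (y * t))) / (q : ℝ) ^ 2 := by
    rw [Finset.sum_div]
    apply Finset.sum_congr rfl
    intro y _
    rw [div_pow]
    ring
  rw [hfin]
  have hs0 : 0 < s := by linarith
  have hj0 : 0 < j := by linarith
  calc γ / (2 * j ^ 3) = (s ^ 2 * γ / 2) / (s ^ 2 * j ^ 3) := by field_simp
    _ ≤ (s ^ 2 * γ / 2) / (q : ℝ) ^ 2 := by
        apply div_le_div_of_nonneg_left (by positivity) (by positivity) hq2
    _ ≤ _ := by gcongr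

end Pool.Agent.Helper60.Gap
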