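import Mathlib
import Pool.Agent.Helper60.Gap.Color
import Pool.Agent.Helper60.Gap.Weights

set_option autoImplicit false

namespace Pool.Agent.Helper60.Gap

open Finset Pool.Agent.Helper53.Generic

/-! ### Comparison of `M_1` and `M_r` -/

theorem pad (U : Finset Plane) {N : ℕ} (h : U.card ≤ N) : ∃ U' : Finset Plane, U'.card = N ∧
    ∀ d, P U d ≤ P U' d ∧ P U' d ≤ max (P U d) 2 := by
  induction N, h using Nat.le_induction with
  | base => exact ⟨U, rfl, fun d => ⟨le_rfl, le_max_left _ _⟩⟩
  | succ N _ ih =>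
    obtain ⟨V, hV, h1⟩ := ih
    obtain ⟨W, hW, -, h3, h4, h5⟩ := step2 V {0} ∅
    have hP0 : ∀ d, P ({0} : Finset Plane) d = 0 := by
      intro d
      simp [P]
    refine ⟨W, by rw [hW, hV, Finset.card_singleton], ?_⟩
    intro d
    obtain ⟨h6, h7⟩ := h1 d
    have h8 := h3 d
    have h9 := h5 d
    rw [hP0] at h8 h9
    refine ⟨by omega, ?_⟩
    by_cases hz : P V d = 0
    · have : P W d ≤ 2 := by omega
      exact this.trans (le_max_right _ _)
    · have := h4 d (by omega)
      rw [hP0, add_zero] at this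
      rw [this]
      exact h7

theorem exists_other (U : Finset Plane) {r : ℕ} (D : Finset ℝ) (hD : D.card ≤ r)
    (h : 1 ≤ fr U (r + 1)) : ∃ d, d ∉ D ∧ fr U (r + 1) ≤ f U d := by
  classical
  have h1 := (le_fr_iff U (by omega) h).mp le_rfl
  by_contra hcon
  push Not at hcon
  have hsub : (distances U).filter (fun d => fr U (r + 1) ≤ f U d) ⊆ D := by
    intro d hd
    rw [Finset.mem_filter] at hd
    by_contra hdD
    exact absurd hd.2 (not_le.mpr (hcon d hdD))
  have := Finset.card_le_card hsub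
  omega

theorem exists_top (A : Finset Plane) (h : 1 ≤ fr A 1) : ∃ d, f A d = fr A 1 := by
  have h1 := (le_fr_iff A le_rfl h).mp le_rfl
  obtain ⟨d, hd⟩ := Finset.card_pos.mp (lt_of_lt_of_le one_pos h1)
  rw [Finset.mem_filter] at hd
  exact ⟨d, le_antisymm (f_le_fr_one A d) hd.2⟩

theorem le_fr_two (A : Finset Plane) {z w : ℝ} (hzw : z ≠ w) (h : f A z ≤ f A w) :
    f A z ≤ fr A 2 := by
  classical
  by_cases h0 : f A z = 0
  · omega
  · rw [le_fr_iff A (by norm_num) (by omega)]
    have : ({z, w} : Finset ℝ).card = 2 := Finset.card_pair hzw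
    rw [← this]
    apply Finset.card_le_card
    intro d hd
    rw [Finset.mem_insert, Finset.mem_singleton] at hd
    rw [Finset.mem_filter, mem_distances, P_even]
    rcases hd with rfl | rfl
    · exact ⟨by omega, le_rfl⟩
    · exact ⟨by omega, h⟩

/-- Generic union, without reference to a set of distances. -/
theorem family3 {ι : Type} [DecidableEq ι] (s : Finset ι) (B : ι → Finset Plane) :
    ∃ U : Finset Plane, U.card = ∑ i ∈ s, (B i).card ∧
      ∀ d, ∑ i ∈ s, P (B i) d ≤ P U d ∧ P U d ≤ max (∑ i ∈ s, P (B i) d) 2 := by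
  classical
  obtain ⟨U, hU, h1, h2⟩ := family2 s B (s.biUnion (fun i => distances (B i))) (by
    intro i hi d hd
    rw [Finset.mem_biUnion]
    exact ⟨i, hi, mem_distances.mpr hd⟩)
  refine ⟨U, hU, ?_⟩
  intro d
  by_cases hd : d ∈ s.biUnion (fun i => distances (B i))
  · rw [h1 d hd]
    exact ⟨le_rfl, le_max_left _ _⟩
  · have h3 : ∑ i ∈ s, P (B i) d = 0 := by
      apply Finset.sum_eq_zero
      intro i hi
      by_contra h
      apply hd
      rw [Finset.mem_biUnion]
      exact ⟨i, hi, mem_distances.mpr h⟩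
    rw [h3]
    exact ⟨Nat.zero_le _, (h2 d hd).trans (le_max_right _ _)⟩

theorem compare_down (A : Finset Plane) (hA : 0 < A.card) {r : ℕ} (hr : 1 ≤ r) {lam : ℝ}
    (hlam : 0 < lam)
    (hbig : 2 * (r : ℝ) * (A.card : ℝ) ^ 2 * Real.exp (-(lam ^ 2 / (24 * (A.card : ℝ) ^ 2))) < 1) :
    (fr A 1 : ℝ) - fr A 2 ≤ (r : ℝ) ^ 2 * (M r A.card + lam + 1) := by
  classical
  have hr' : (0 : ℝ) < r := by exact_mod_cast hr
  have hM0 : (0 : ℝ) ≤ M r A.card := Nat.cast_nonneg _
  by_cases h0 : fr A 1 = 0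
  · rw [h0]
    have : (0 : ℝ) ≤ fr A 2 := Nat.cast_nonneg _
    have h2 : 0 ≤ (r : ℝ) ^ 2 * (M r A.card + lam + 1) := by positivity
    push_cast
    linarith
  obtain ⟨d₁, hd₁⟩ := exists_top A (by omega)
  have hd₁mem : d₁ ∈ distances A := by
    rw [mem_distances, P_even]
    omega
  have hposA : ∀ d ∈ distances A, 0 < d := by
    intro d hd
    rw [mem_distances] at hd
    by_contra hneg
    exact hd (P_nonpos (not_lt.mp hneg))
  obtain ⟨c, hc1, hc⟩ : ∃ c : ℝ, 1 ≤ c ∧ ∀ d ∈ distances A, ∀ e ∈ distances A, d < c * e := by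
    have h5 : ∀ᶠ c : ℝ in Filter.atTop, ∀ d ∈ distances A, ∀ e ∈ distances A, d < c * e := by
      rw [Filter.eventually_all_finset]
      intro d _
      rw [Filter.eventually_all_finset]
      intro e he
      have := hposA e he
      exact (Filter.Tendsto.atTop_mul_const this Filter.tendsto_id).eventually_gt_atTop d
    obtain ⟨c, hc1, hc2⟩ := (h5.and (Filter.eventually_ge_atTop 1)).exists
    exact ⟨c, hc2, hc1⟩
  have hc0 : 0 < c := by linarith
  -- distances of different scaled copies differ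
  have hsep : ∀ i j : ℕ, ∀ d ∈ distances A, ∀ e ∈ distances A, c ^ i * d = c ^ j * e → i = j := by
    have key : ∀ i j : ℕ, i < j → ∀ d ∈ distances A, ∀ e ∈ distances A,
        c ^ i * d ≠ c ^ j * e := by
      intro i j hij d hd e he h
      obtain ⟨k, rfl⟩ : ∃ k, j = i + (k + 1) := ⟨j - i - 1, by omega⟩
      have h1 : d = c ^ (k + 1) * e := by
        apply mul_left_cancel₀ (pow_ne_zero i hc0.ne')
        rw [h, pow_add]; ring
      have h2 := hc d hd e he
      have h3 : c * e ≤ c ^ (k + 1) * e := by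
        apply mul_le_mul_of_nonneg_right _ (hposA e he).le
        calc c = c ^ 1 := (pow_one c).symm
          _ ≤ c ^ (k + 1) := pow_le_pow_right₀ hc1 (by omega)
      linarith
    intro i j d hd e he h
    rcases lt_trichotomy i j with hij | hij | hij
    · exact absurd h (key i j hij d hd e he)
    · exact hij
    · exact absurd h.symm (key j i hij e he d hd)
  -- the colouring
  obtain ⟨B, hBA, hBcard, hB⟩ := exists_colouring (ι := Fin r) A hA (q := r) (by omega)
    (fun i => {i}) (by
      intro i j hij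
      rw [Finset.disjoint_singleton]
      exact hij) hlam (by rw [Fintype.card_fin]; exact hbig)
  choose B' hB'card hB' using fun i : Fin r => exists_scaled (B i) (pow_pos hc0 (i : ℕ))
  have hB'' : ∀ i : Fin r, ∀ d, P (B' i) d = P (B i) (d / c ^ (i : ℕ)) := by
    intro i d
    have := hB' i (d / c ^ (i : ℕ))
    rwa [mul_div_cancel₀ _ (pow_ne_zero _ hc0.ne')] at this
  obtain ⟨U₀, hU₀, hU₀P⟩ := family3 (Finset.univ : Finset (Fin r)) B'
  have hU₀card : U₀.card ≤ A.card := by
    rw [hU₀]
    simp only [hB'card]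
    exact hBcard
  obtain ⟨U, hU, hUP⟩ := pad U₀ hU₀card
  have hmemB : ∀ i : Fin r, ∀ d, P (B i) d ≠ 0 → d ∈ distances A := by
    intro i d h
    obtain ⟨x, hx, y, hy, hne, he⟩ := exists_of_P_ne_zero h
    rw [mem_distances, ← he]
    exact P_mem_ne_zero (hBA i hx) (hBA i hy) hne
  -- lower bound at the popular distances
  set D : Finset ℝ := Finset.univ.image (fun i : Fin r => c ^ (i : ℕ) * d₁) with hD
  have hDcard : D.card = r := by
    rw [hD, Finset.card_image_of_injective, Finset.card_univ, Fintype.card_fin]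
    intro i j h
    exact Fin.ext (hsep i j d₁ hd₁mem d₁ hd₁mem h)
  have hone : ∀ i : Fin r, ∀ d, (P (B i) d : ℝ) < ((1 : ℝ) / r) ^ 2 * P A d + lam ∧
      ((1 : ℝ) / r) ^ 2 * P A d - lam < P (B i) d := by
    intro i d
    have h1 := hB i d
    rw [Finset.card_singleton, Nat.cast_one, abs_lt] at h1
    constructor <;> linarith [h1.1, h1.2]
  have hlow : ∀ d ∈ D, ((1 : ℝ) / r) ^ 2 * (2 * fr A 1) - lam ≤ 2 * f U d := by
    intro d hd
    rw [hD, Finset.mem_image] at hd
    obtain ⟨i, -, hid⟩ := hd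
    have h1 : P (B i) d₁ ≤ P U d := by
      have e1 : P (B i) d₁ = P (B' i) d := by rw [← hid]; exact (hB' i d₁).symm
      rw [e1]
      refine le_trans ?_ ((hU₀P d).1.trans (hUP d).1)
      exact Finset.single_le_sum (f := fun k => P (B' k) d)
        (fun _ _ => Nat.zero_le _) (Finset.mem_univ i)
    have h2 := (hone i d₁).2
    rw [P_even A, hd₁] at h2
    have h3 : (P (B i) d₁ : ℝ) ≤ P U d := by exact_mod_cast h1
    rw [P_even U] at h3
    push_cast at h2 h3
    linarith
  -- upper bound at the other distances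
  have hup : ∀ d, d ∉ D → (2 * f U d : ℝ) ≤ max (((1 : ℝ) / r) ^ 2 * (2 * fr A 2) + lam) 2 := by
    intro d hd
    have h1 := (hUP d).2
    have h2 := (hU₀P d).2
    have h3 : (P U d : ℝ) ≤ max ((∑ i, P (B' i) d : ℕ) : ℝ) 2 := by
      have : P U d ≤ max (∑ i, P (B' i) d) 2 :=
        h1.trans (max_le h2 (le_max_right _ _))
      exact_mod_cast this
    rw [P_even U] at h3
    push_cast at h3
    refine h3.trans (max_le_max ?_ le_rfl)
    by_cases hex : ∃ i : Fin r, P (B' i) d ≠ 0
    · obtain ⟨i, hi⟩ := hex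
      rw [Finset.sum_eq_single i]
      · rw [hB'' i d]
        have h4 := (hone i (d / c ^ (i : ℕ))).1
        have hne : d / c ^ (i : ℕ) ≠ d₁ := by
          intro h
          apply hd
          rw [hD, Finset.mem_image]
          exact ⟨i, Finset.mem_univ _, by rw [← h, mul_div_cancel₀ _ (pow_ne_zero _ hc0.ne')]⟩
        have h5 : f A (d / c ^ (i : ℕ)) ≤ fr A 2 :=
          le_fr_two A hne (by rw [hd₁]; exact f_le_fr_one A _)
        have h6 : (P A (d / c ^ (i : ℕ)) : ℝ) ≤ 2 * fr A 2 := by
          rw [P_even A]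
          push_cast
          have : (f A (d / c ^ (i : ℕ)) : ℝ) ≤ fr A 2 := by exact_mod_cast h5
          linarith
        have h7 : ((1 : ℝ) / r) ^ 2 * P A (d / c ^ (i : ℕ)) ≤
            ((1 : ℝ) / r) ^ 2 * (2 * fr A 2) := by gcongr
        linarith
      · intro k _ hki
        have : P (B' k) d = 0 := by
          by_contra hk
          rw [hB''] at hi hk
          have e1 := hsep i k _ (hmemB i _ hi) _ (hmemB k _ hk) (by
            rw [mul_div_cancel₀ _ (pow_ne_zero _ hc0.ne'),
              mul_div_cancel₀ _ (pow_ne_zero _ hc0.ne')])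
          exact hki (Fin.ext e1.symm)
        rw [this]
        norm_num
      · intro h
        exact absurd (Finset.mem_univ i) h
    · push Not at hex
      rw [Finset.sum_eq_zero (fun i _ => by rw [hex i]; norm_num)]
      positivity
  -- conclusion
  obtain ⟨e, heD, he⟩ := Finset.exists_min_image D (f U) (Finset.card_pos.mp (by omega))
  have hMge := Gap.le_M (r := r) U hU
  have hfr : f U e ≤ fr U r := by
    by_cases h1 : f U e = 0
    · omega
    · exact fr_ge U r (f U e) hr (by omega) D hDcard he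
  have hfr' : (f U e : ℝ) ≤ fr U r := by exact_mod_cast hfr
  have hMge' : (fr U r : ℝ) - fr U (r + 1) ≤ M r A.card := by
    have h1 : fr U (r + 1) ≤ fr U r := fr_anti U (by omega)
    have h2 : ((fr U r - fr U (r + 1) : ℕ) : ℝ) ≤ M r A.card := by exact_mod_cast hMge
    rwa [Nat.cast_sub h1] at h2
  have hle := hlow e heD
  have hfr2 : (2 * fr U (r + 1) : ℝ) ≤ max (((1 : ℝ) / r) ^ 2 * (2 * fr A 2) + lam) 2 := by
    by_cases h1 : fr U (r + 1) = 0
    · rw [h1]
      refine le_trans ?_ (le_max_right _ _)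
      norm_num
    · obtain ⟨d, hd, hd'⟩ := exists_other U D hDcard.le (by omega)
      refine le_trans ?_ (hup d hd)
      have : (fr U (r + 1) : ℝ) ≤ f U d := by exact_mod_cast hd'
      linarith
  have hfin : ((1 : ℝ) / r) ^ 2 * ((fr A 1 : ℝ) - fr A 2) ≤ M r A.card + lam + 1 := by
    have hfA2 : (0 : ℝ) ≤ ((1 : ℝ) / r) ^ 2 * fr A 2 := by positivity
    rcases le_max_iff.mp hfr2 with h1 | h1
    · linarith
    · linarith
  calc (fr A 1 : ℝ) - fr A 2 = (r : ℝ) ^ 2 * (((1 : ℝ) / r) ^ 2 * ((fr A 1 : ℝ) - fr A 2)) := by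
        field_simp
    _ ≤ (r : ℝ) ^ 2 * (M r A.card + lam + 1) := by gcongr

end Pool.Agent.Helper60.Gap
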