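import Mathlib
import Pool.Agent.Helper60.Gap.Compare

set_option autoImplicit false

namespace Pool.Agent.Helper60.Gap

open Finset Pool.Agent.Helper53.Generic

/-- Disjoint sets of colours of prescribed sizes. -/
theorem exists_colours {ι : Type} [Fintype ι] (k : ι → ℕ) {q : ℕ} (hq : ∑ i, k i = q) :
    ∃ K : ι → Finset (Fin q), (∀ i j, i ≠ j → Disjoint (K i) (K j)) ∧ ∀ i, (K i).card = k i := by
  classical
  have hcard : Fintype.card (Σ i, Fin (k i)) = Fintype.card (Fin q) := by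
    rw [Fintype.card_sigma, Fintype.card_fin]
    simp only [Fintype.card_fin]
    exact hq
  set e := Fintype.equivOfCardEq hcard with he
  refine ⟨fun i => Finset.univ.image (fun a : Fin (k i) => e ⟨i, a⟩), ?_, ?_⟩
  · intro i j hij
    rw [Finset.disjoint_left]
    intro c hc hc'
    rw [Finset.mem_image] at hc hc'
    obtain ⟨a, -, ha⟩ := hc
    obtain ⟨b, -, hb⟩ := hc'
    have := e.injective (ha.trans hb.symm)
    exact hij (congrArg Sigma.fst this)
  · intro i
    rw [Finset.card_image_of_injective, Finset.card_univ, Fintype.card_fin]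
    intro a b hab
    have := e.injective hab
    exact eq_of_heq (Sigma.mk.inj this).2

/-- The largest consecutive gap among the first `r`. -/
theorem exists_gap (A : Finset Plane) {r : ℕ} (hr : 1 ≤ r) (h : fr A (r + 1) < fr A 1) :
    ∃ j, 1 ≤ j ∧ j ≤ r ∧ fr A (j + 1) < fr A j ∧
      ((fr A 1 : ℝ) - fr A (r + 1) ≤ r * ((fr A j : ℝ) - fr A (j + 1))) ∧
      ((fr A 1 : ℝ) - fr A (j + 1) ≤ j * ((fr A j : ℝ) - fr A (j + 1))) := by
  obtain ⟨j, hj, hmax⟩ := Finset.exists_max_image (Finset.Icc 1 r)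
    (fun i => (fr A i : ℝ) - fr A (i + 1)) ⟨1, Finset.mem_Icc.mpr ⟨le_rfl, hr⟩⟩
  rw [Finset.mem_Icc] at hj
  set γ := (fr A j : ℝ) - fr A (j + 1) with hγ
  have htel : ∀ i, i ≤ r → (fr A 1 : ℝ) - fr A (i + 1) ≤ i * γ := by
    intro i
    induction i with
    | zero => intro _; simp
    | succ i ih =>
      intro hi
      have h1 := ih (by omega)
      have h2 := hmax (i + 1) (Finset.mem_Icc.mpr ⟨by omega, hi⟩)
      push_cast
      linarith
  refine ⟨j, hj.1, hj.2, ?_, htel r le_rfl, htel j hj.2⟩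
  have h1 := htel r le_rfl
  have h2 : (fr A (r + 1) : ℝ) < fr A 1 := by exact_mod_cast h
  have h3 : 0 < γ := by
    by_contra hcon
    push Not at hcon
    have : (r : ℝ) * γ ≤ 0 := mul_nonpos_of_nonneg_of_nonpos (Nat.cast_nonneg _) hcon
    linarith
  rw [hγ] at h3
  have h4 : (fr A (j + 1) : ℝ) < fr A j := by linarith
  exact_mod_cast h4

theorem compare_up (A : Finset Plane) (hA : 0 < A.card) {r : ℕ} (hr : 1 ≤ r) {lam : ℝ}
    (hlam : 0 < lam)
    (hbig : 2 * (r : ℝ) * (A.card : ℝ) ^ 2 * Real.exp (-(lam ^ 2 / (24 * (A.card : ℝ) ^ 2))) < 1) :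
    (fr A 1 : ℝ) - fr A (r + 1) ≤ 2 * (r : ℝ) ^ 4 * (M 1 A.card + r * lam + 1) := by
  classical
  have hr' : (0 : ℝ) < r := by exact_mod_cast hr
  have hM0 : (0 : ℝ) ≤ M 1 A.card := Nat.cast_nonneg _
  rcases (fr_anti A (show 1 ≤ r + 1 by omega)).eq_or_lt with heq | hlt
  · rw [heq, sub_self]
    positivity
  obtain ⟨j, hj1, hjr, hgap, hΔ, hΓ⟩ := exists_gap A hr hlt
  set a := fr A (j + 1) with ha
  set γ : ℝ := (fr A j : ℝ) - a with hγ
  have hγ0 : 0 < γ := by
    have : (a : ℝ) < fr A j := by exact_mod_cast hgap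
    rw [hγ]; linarith
  -- the set of popular distances
  set S := (distances A).filter (fun d => a < f A d) with hS
  have hfS : ((distances A).filter (fun d => fr A j ≤ f A d)) ⊆ S := by
    intro d hd
    rw [Finset.mem_filter] at hd
    rw [hS, Finset.mem_filter]
    exact ⟨hd.1, lt_of_lt_of_le hgap hd.2⟩
  have hc1 := (le_fr_iff A hj1 (by omega : 1 ≤ fr A j)).mp le_rfl
  have hc2 : S.card ≤ j := by
    by_contra hcon
    push Not at hcon
    have h1 : a + 1 ≤ fr A (j + 1) := by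
      rw [le_fr_iff A (by omega) (by omega)]
      exact hcon
    omega
  have hSeq : ((distances A).filter (fun d => fr A j ≤ f A d)) = S :=
    Finset.eq_of_subset_of_card_le hfS (by omega)
  have hScard : S.card = j := by
    have := Finset.card_le_card hfS
    omega
  have hSne : S.Nonempty := Finset.card_pos.mp (by omega)
  have hSpos : ∀ y ∈ S, 0 < y := by
    intro y hy
    rw [hS, Finset.mem_filter, mem_distances] at hy
    by_contra hneg
    exact hy.1 (P_nonpos (not_lt.mp hneg))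
  have hSf : ∀ y ∈ S, fr A j ≤ f A y := by
    intro y hy
    rw [← hSeq, Finset.mem_filter] at hy
    exact hy.2
  have hnS : ∀ y, y ∉ S → f A y ≤ a := by
    intro y hy
    by_contra hcon
    push Not at hcon
    apply hy
    rw [hS, Finset.mem_filter, mem_distances, P_even]
    exact ⟨by omega, hcon⟩
  set G : ℝ → ℝ := fun y => if y ∈ S then (f A y : ℝ) - a else 0 with hG
  have hG1 : ∀ y ∈ S, G y = (f A y : ℝ) - a := fun y hy => by rw [hG]; simp only; rw [if_pos hy]
  have hG0 : ∀ y, y ∉ S → G y = 0 := fun y hy => by rw [hG]; simp only; rw [if_neg hy]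
  have hGle : ∀ y, (f A y : ℝ) ≤ a + G y := by
    intro y
    by_cases hy : y ∈ S
    · rw [hG1 y hy]; linarith
    · rw [hG0 y hy, add_zero]
      exact_mod_cast hnS y hy
  have hGγ : ∀ y ∈ S, γ ≤ G y := by
    intro y hy
    rw [hG1 y hy, hγ]
    have : (fr A j : ℝ) ≤ f A y := by exact_mod_cast hSf y hy
    linarith
  have hGu : ∀ y ∈ S, G y ≤ S.card * γ := by
    intro y hy
    rw [hG1 y hy, hScard]
    have : (f A y : ℝ) ≤ fr A 1 := by exact_mod_cast f_le_fr_one A y
    linarith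
  have hGnn : ∀ y, 0 ≤ G y := by
    intro y
    by_cases hy : y ∈ S
    · exact hγ0.le.trans (hGγ y hy)
    · rw [hG0 y hy]
  obtain ⟨k, hq0, hk⟩ := exists_weights S hSne hSpos G hγ0 hGγ hGu hG0
  set q := ∑ y ∈ S, k y with hq
  -- colours
  obtain ⟨K, hKdisj, hKcard⟩ := exists_colours (ι := S) (fun y => k y) (q := q) (by
    rw [hq, Finset.sum_coe_sort S k])
  have hιcard : Fintype.card S = j := by rw [Fintype.card_coe, hScard]
  have hjr' : (j : ℝ) ≤ r := by exact_mod_cast hjr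
  obtain ⟨B, hBA, hBcard, hB⟩ := exists_colouring (ι := S) A hA hq0 K hKdisj hlam (by
    rw [hιcard]
    refine lt_of_le_of_lt ?_ hbig
    gcongr)
  choose B' hB'card hB' using fun y : S => exists_scaled (B y) (inv_pos.mpr (hSpos y y.2))
  have hB'' : ∀ y : S, ∀ d, P (B' y) d = P (B y) (y * d) := by
    intro y d
    have h1 := hB' y (y * d)
    have h2 : (y : ℝ) ≠ 0 := (hSpos y y.2).ne'
    rwa [← mul_assoc, inv_mul_cancel₀ h2, one_mul] at h1
  obtain ⟨U₀, hU₀, hU₀P⟩ := family3 (Finset.univ : Finset S) B'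
  have hU₀card : U₀.card ≤ A.card := by
    rw [hU₀]
    simp only [hB'card]
    exact hBcard
  obtain ⟨U, hU, hUP⟩ := pad U₀ hU₀card
  -- sums
  set w : ℝ → ℝ := fun y => ((k y : ℝ) / (q : ℝ)) ^ 2 with hw
  have hwnn : ∀ y, 0 ≤ w y := fun y => sq_nonneg _
  have hone : ∀ y : S, ∀ d, (P (B' y) d : ℝ) < w y * P A (y * d) + lam ∧
      w y * P A (y * d) - lam < P (B' y) d := by
    intro y d
    have h1 := hB y (y * d)
    rw [hKcard y, abs_lt] at h1
    rw [hB'']
    constructor <;> linarith [h1.1, h1.2]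
  have hsumS : ∀ g : ℝ → ℝ, ∑ y : S, g y = ∑ y ∈ S, g y := fun g => Finset.sum_coe_sort S g
  have hlow : ∑ y ∈ S, w y * (2 * f A y) - j * lam ≤ 2 * f U 1 := by
    have h1 : ∑ y : S, (w y * P A (y * 1) - lam) ≤ ∑ y : S, (P (B' y) 1 : ℝ) :=
      Finset.sum_le_sum (fun y _ => (hone y 1).2.le)
    have h2 : ((∑ y : S, P (B' y) 1 : ℕ) : ℝ) ≤ P U 1 := by
      exact_mod_cast (hU₀P 1).1.trans (hUP 1).1
    rw [P_even U] at h2
    push_cast at h2
    rw [Finset.sum_sub_distrib, Finset.sum_const, Finset.card_univ, hιcard, nsmul_eq_mul] at h1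
    have h3 : ∑ y : S, w y * (P A (y * 1) : ℝ) = ∑ y ∈ S, w y * (2 * f A y) := by
      rw [hsumS (fun y => w y * (P A (y * 1) : ℝ))]
      apply Finset.sum_congr rfl
      intro y _
      rw [mul_one, P_even A]
      push_cast
      ring
    rw [h3] at h1
    linarith
  have hup : ∀ d, d ≠ 1 → 0 < d →
      (2 * f U d : ℝ) ≤ max (∑ y ∈ S, w y * (2 * f A (y * d)) + j * lam) 2 := by
    intro d _ _
    have h3 : (P U d : ℝ) ≤ max ((∑ y : S, P (B' y) d : ℕ) : ℝ) 2 := by
      have : P U d ≤ max (∑ y : S, P (B' y) d) 2 :=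
        (hUP d).2.trans (max_le (hU₀P d).2 (le_max_right _ _))
      exact_mod_cast this
    rw [P_even U] at h3
    push_cast at h3
    refine h3.trans (max_le_max ?_ le_rfl)
    have h1 : ∑ y : S, (P (B' y) d : ℝ) ≤ ∑ y : S, (w y * P A (y * d) + lam) :=
      Finset.sum_le_sum (fun y _ => (hone y d).1.le)
    rw [Finset.sum_add_distrib, Finset.sum_const, Finset.card_univ, hιcard, nsmul_eq_mul] at h1
    have h4 : ∑ y : S, w y * (P A (y * d) : ℝ) = ∑ y ∈ S, w y * (2 * f A (y * d)) := by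
      rw [hsumS (fun y => w y * (P A (y * d) : ℝ))]
      apply Finset.sum_congr rfl
      intro y _
      rw [P_even A]
      push_cast
      ring
    rw [h4] at h1
    exact h1
  -- the gap
  have hdiff : ∀ d, 0 < d → d ≠ 1 →
      γ / (2 * (j : ℝ) ^ 3) ≤ ∑ y ∈ S, w y * f A y - ∑ y ∈ S, w y * f A (y * d) := by
    intro d hd hd1
    have h1 := hk d hd hd1
    rw [hScard] at h1
    refine h1.trans ?_
    rw [← Finset.sum_sub_distrib]
    apply Finset.sum_le_sum
    intro y hy
    rw [← mul_sub]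
    apply mul_le_mul_of_nonneg_left _ (hwnn y)
    have e1 := hG1 y hy
    have e2 := hGle (y * d)
    linarith
  have hbase : γ / (2 * (j : ℝ) ^ 3) ≤ ∑ y ∈ S, w y * f A y := by
    have h1 := hdiff 2 (by norm_num) (by norm_num)
    have h2 : (0 : ℝ) ≤ ∑ y ∈ S, w y * f A (y * 2) :=
      Finset.sum_nonneg (fun y _ => mul_nonneg (hwnn y) (Nat.cast_nonneg _))
    linarith
  have hsum2 : ∀ g : ℝ → ℝ, ∑ y ∈ S, w y * (2 * g y) = 2 * ∑ y ∈ S, w y * g y := by
    intro g
    rw [Finset.mul_sum]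
    apply Finset.sum_congr rfl
    intro y _
    ring
  rw [hsum2 (fun y => (f A y : ℝ))] at hlow
  have hMge := Gap.le_M (r := 1) U hU
  have hfr1 : (f U 1 : ℝ) ≤ fr U 1 := by exact_mod_cast f_le_fr_one U 1
  have hMge' : (fr U 1 : ℝ) - fr U 2 ≤ M 1 A.card := by
    have h1 : fr U 2 ≤ fr U 1 := fr_anti U (by omega)
    have h2 : ((fr U 1 - fr U (1 + 1) : ℕ) : ℝ) ≤ M 1 A.card := by exact_mod_cast hMge
    rwa [Nat.cast_sub h1] at h2
  have hjlam : (0 : ℝ) ≤ j * lam := by positivity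
  have hkey : γ / (2 * (j : ℝ) ^ 3) ≤ M 1 A.card + j * lam + 1 := by
    by_cases h2 : fr U 2 = 0
    · rw [h2] at hMge'
      push_cast at hMge'
      linarith
    · obtain ⟨d, hd, hd0⟩ := exists_other U (r := 1) {1} (by simp) (show 1 ≤ fr U 2 by omega)
      have hd' : fr U 2 ≤ f U d := hd0
      rw [Finset.mem_singleton] at hd
      have hdpos : 0 < d := by
        by_contra hneg
        have h3 := P_nonpos (A := U) (not_lt.mp hneg)
        rw [P_even] at h3
        omega
      have h3 := hup d hd hdpos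
      have h4 : (fr U 2 : ℝ) ≤ f U d := by exact_mod_cast hd'
      have h5 := hdiff d hdpos hd
      rw [hsum2 (fun y => (f A (y * d) : ℝ))] at h3
      rcases le_max_iff.mp h3 with h6 | h6
      · linarith
      · linarith
  -- conclusion
  have hj0 : (0 : ℝ) < j := by exact_mod_cast hj1
  have h6 : γ ≤ 2 * (j : ℝ) ^ 3 * (M 1 A.card + j * lam + 1) := by
    rw [div_le_iff₀ (by positivity)] at hkey
    linarith
  calc (fr A 1 : ℝ) - fr A (r + 1) ≤ r * γ := hΔ
    _ ≤ r * (2 * (j : ℝ) ^ 3 * (M 1 A.card + j * lam + 1)) := by gcongr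
    _ ≤ r * (2 * (r : ℝ) ^ 3 * (M 1 A.card + r * lam + 1)) := by gcongr
    _ = _ := by ring

end Pool.Agent.Helper60.Gap
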