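import Mathlib
import Pool.Agent.Helper60.Gap.CompareUp
import Pool.Agent.Helper60.Gap.Lower

set_option autoImplicit false

namespace Pool.Agent.Helper60.Gap

open Finset Filter

/-- The maximum of `f(d_1) - f(d_{r+1})` over all `n`-point sets in the plane. -/
noncomputable def Mstar (r n : ℕ) : ℕ :=
  sSup {g | ∃ A : Finset Plane, A.card = n ∧ g = fr A 1 - fr A (r + 1)}

theorem Mstar_bdd (r n : ℕ) :
    BddAbove {g | ∃ A : Finset Plane, A.card = n ∧ g = fr A 1 - fr A (r + 1)} := by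
  refine ⟨n * n, ?_⟩
  rintro g ⟨B, hB, rfl⟩
  have := fr_le_sq B 1
  rw [hB] at this
  omega

theorem exists_Mstar (r n : ℕ) :
    ∃ A : Finset Plane, A.card = n ∧ Mstar r n = fr A 1 - fr A (r + 1) := by
  have hne : {g | ∃ A : Finset Plane, A.card = n ∧ g = fr A 1 - fr A (r + 1)}.Nonempty := by
    obtain ⟨A, hA⟩ := exists_card n
    exact ⟨_, A, hA, rfl⟩
  exact Nat.sSup_mem hne (Mstar_bdd r n)

theorem M_le_Mstar {r : ℕ} (hr : 1 ≤ r) (n : ℕ) : M r n ≤ Mstar r n := by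
  obtain ⟨A, hA, hM⟩ := exists_M r n
  have h1 : fr A 1 - fr A (r + 1) ≤ Mstar r n := le_csSup (Mstar_bdd r n) ⟨A, hA, rfl⟩
  have h2 := fr_anti A hr
  omega

theorem ev_growth : ∀ᶠ x : ℝ in atTop, 42 * √x ≤ Real.exp (x / (300 * Real.log x)) := by
  have h1 : ∀ᶠ x : ℝ in atTop, Real.log x ^ 2 ≤ 1 / 1200 * x := by
    have h := (Real.isLittleO_pow_log_id_atTop (n := 2)).def (c := 1 / 1200) (by norm_num)
    filter_upwards [h, eventually_ge_atTop (0 : ℝ)] with x hx hx0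
    simp only [id, Real.norm_eq_abs] at hx
    rw [abs_of_nonneg hx0] at hx
    exact (le_abs_self _).trans hx
  filter_upwards [h1, eventually_ge_atTop (Real.exp 2)] with x hx hx2
  have hx0 : 0 < x := lt_of_lt_of_le (Real.exp_pos 2) hx2
  have hlog : 2 ≤ Real.log x := by
    rw [Real.le_log_iff_exp_le hx0]
    exact hx2
  have h42 : (42 : ℝ) ≤ Real.exp 4 := by
    have h7 : (2.7182818283 : ℝ) ^ 4 ≤ Real.exp 1 ^ 4 := by
      apply pow_le_pow_left₀ (by norm_num) Real.exp_one_gt_d9.le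
    rw [← Real.exp_nat_mul] at h7
    norm_num at h7
    linarith
  have hsq : √x = Real.exp (Real.log x / 2) := by
    rw [Real.sqrt_eq_rpow, Real.rpow_def_of_pos hx0]
    congr 1
    ring
  rw [hsq]
  calc 42 * Real.exp (Real.log x / 2) ≤ Real.exp 4 * Real.exp (Real.log x / 2) := by gcongr
    _ = Real.exp (4 + Real.log x / 2) := by rw [Real.exp_add]
    _ ≤ Real.exp (x / (300 * Real.log x)) := by
        apply Real.exp_le_exp.mpr
        have h3 : 4 * Real.log x ≤ x / (300 * Real.log x) := by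
          rw [le_div_iff₀ (by positivity)]
          nlinarith
        linarith

theorem fixed_rank : ∃ n₀ : ℕ, ∀ n : ℕ, n₀ ≤ n → ∀ r : ℕ, 1 ≤ r →
    (r : ℝ) ≤ (n : ℝ) ^ (1 / (300 * Real.log (Real.log n))) →
    (M 1 n : ℝ) ≤ 2 * (r : ℝ) ^ 2 * M r n ∧ M r n ≤ Mstar r n ∧
    (Mstar r n : ℝ) ≤ 3 * (r : ℝ) ^ 4 * M 1 n := by
  obtain ⟨n₁, hn₁⟩ := lower_bound
  have hlog : Tendsto (fun n : ℕ => Real.log n) atTop atTop :=
    Real.tendsto_log_atTop.comp tendsto_natCast_atTop_atTop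
  obtain ⟨n₂, hn₂⟩ := Filter.eventually_atTop.mp (hlog.eventually
    (ev_growth.and (eventually_ge_atTop (4 : ℝ))))
  refine ⟨n₁ + n₂ + 1, ?_⟩
  intro n hn r hr hrn
  obtain ⟨hg, hx4⟩ := hn₂ n (by omega)
  have hnpos : (0 : ℝ) < n := by exact_mod_cast (by omega : 0 < n)
  have hn1 : (1 : ℝ) ≤ n := by exact_mod_cast (by omega : 1 ≤ n)
  have hM1 := hn₁ n (by omega) 1 le_rfl (by
    rw [Nat.cast_one, Real.one_le_sqrt]
    exact hn1)
  rw [Nat.cast_one, div_one] at hM1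
  set x := Real.log n with hx
  have hx0 : 0 < x := by linarith
  have hlx : 0 < Real.log x := Real.log_pos (by linarith)
  have hlx1 : 1 ≤ Real.log x := by
    rw [Real.le_log_iff_exp_le hx0]
    have := Real.exp_one_lt_d9
    linarith
  have hpow : (n : ℝ) ^ (1 / (300 * Real.log x)) = Real.exp (x / (300 * Real.log x)) := by
    rw [Real.rpow_def_of_pos hnpos, ← hx]
    congr 1
    ring
  rw [hpow] at hrn
  have hpow1 : (n : ℝ) ^ (1 + 1 / (100 * Real.log x)) =
      n * Real.exp (x / (100 * Real.log x)) := by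
    rw [Real.rpow_add hnpos, Real.rpow_one, Real.rpow_def_of_pos hnpos, ← hx]
    congr 2
    ring
  rw [hpow1] at hM1
  set e := Real.exp (x / (300 * Real.log x)) with he
  have he3 : Real.exp (x / (100 * Real.log x)) = e ^ 3 := by
    rw [he, ← Real.exp_nat_mul]
    congr 1
    push_cast
    field_simp
    ring
  rw [he3] at hM1
  have hr' : (1 : ℝ) ≤ r := by exact_mod_cast hr
  have he1 : 1 ≤ e := hr'.trans hrn
  -- the error term
  set lam : ℝ := 20 * n * √x with hlam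
  have hsx : 1 ≤ √x := by rw [Real.one_le_sqrt]; linarith
  have hlam0 : 0 < lam := by positivity
  have hlam1 : lam + 1 ≤ 21 * (n * √x) := by
    have : 1 ≤ n * √x := by nlinarith
    rw [hlam]
    linarith
  have hkey : (r : ℝ) ^ 2 * (lam + 1) ≤ (M 1 n : ℝ) / 2 := by
    have h1 : (r : ℝ) ^ 2 ≤ e ^ 2 := by gcongr
    calc (r : ℝ) ^ 2 * (lam + 1) ≤ e ^ 2 * (21 * (n * √x)) := by gcongr
      _ = e ^ 2 * n * (42 * √x) / 2 := by ring
      _ ≤ e ^ 2 * n * e / 2 := by gcongr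
      _ = n * e ^ 3 / 2 := by ring
      _ ≤ (M 1 n : ℝ) / 2 := by gcongr
  have hen : e ≤ n := by
    have h1 : (n : ℝ) = Real.exp x := by rw [hx, Real.exp_log hnpos]
    rw [h1, he]
    apply Real.exp_le_exp.mpr
    rw [div_le_iff₀ (by positivity)]
    nlinarith
  have hrn' : (r : ℝ) ≤ n := hrn.trans hen
  have hbig : 2 * (r : ℝ) * (n : ℝ) ^ 2 * Real.exp (-(lam ^ 2 / (24 * (n : ℝ) ^ 2))) < 1 := by
    have h1 : lam ^ 2 / (24 * (n : ℝ) ^ 2) = 50 / 3 * x := by
      rw [hlam, mul_pow, mul_pow, Real.sq_sqrt hx0.le]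
      field_simp
      ring
    have h2 : (n : ℝ) ^ 3 = Real.exp (3 * x) := by
      have e1 : (n : ℝ) = Real.exp x := by rw [hx, Real.exp_log hnpos]
      rw [e1, ← Real.exp_nat_mul]
      push_cast
      rfl
    rw [h1]
    calc 2 * (r : ℝ) * (n : ℝ) ^ 2 * Real.exp (-(50 / 3 * x))
        ≤ 2 * (n : ℝ) * (n : ℝ) ^ 2 * Real.exp (-(50 / 3 * x)) := by gcongr
      _ = 2 * ((n : ℝ) ^ 3 * Real.exp (-(50 / 3 * x))) := by ring
      _ = 2 * Real.exp (3 * x + -(50 / 3 * x)) := by rw [h2, Real.exp_add]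
      _ ≤ 2 * Real.exp (-1) := by
          gcongr
          linarith
      _ < 1 := by
          rw [Real.exp_neg]
          have := Real.exp_one_gt_d9
          rw [← div_eq_mul_inv, div_lt_one (Real.exp_pos 1)]
          linarith
  refine ⟨?_, M_le_Mstar hr n, ?_⟩
  · obtain ⟨A, hA, hM⟩ := exists_M 1 n
    have h1 := compare_down A (by omega) hr hlam0 (by rw [hA]; exact hbig)
    rw [hA] at h1
    have h2 : (M 1 n : ℝ) = (fr A 1 : ℝ) - fr A 2 := by
      rw [hM, Nat.cast_sub (fr_anti A (by omega))]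
    rw [← h2] at h1
    have h3 : (r : ℝ) ^ 2 * (M r n + lam + 1) = (r : ℝ) ^ 2 * M r n + (r : ℝ) ^ 2 * (lam + 1) := by
      ring
    rw [h3] at h1
    linarith
  · obtain ⟨A, hA, hM⟩ := exists_Mstar r n
    have h1 := compare_up A (by omega) hr hlam0 (by rw [hA]; exact hbig)
    rw [hA] at h1
    have h2 : (Mstar r n : ℝ) = (fr A 1 : ℝ) - fr A (r + 1) := by
      rw [hM, Nat.cast_sub (fr_anti A (by omega))]
    rw [← h2] at h1
    have h3 : (r : ℝ) * lam + 1 ≤ (M 1 n : ℝ) / 2 := by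
      refine le_trans ?_ hkey
      nlinarith [mul_nonneg (sub_nonneg.mpr hr') hlam0.le]
    calc (Mstar r n : ℝ) ≤ 2 * (r : ℝ) ^ 4 * (M 1 n + r * lam + 1) := h1
      _ = 2 * (r : ℝ) ^ 4 * (M 1 n + (r * lam + 1)) := by ring
      _ ≤ 2 * (r : ℝ) ^ 4 * (M 1 n + (M 1 n : ℝ) / 2) := by gcongr
      _ = 3 * (r : ℝ) ^ 4 * M 1 n := by ring

end Pool.Agent.Helper60.Gap
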